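import Pool.Agent.D0H58.OR.Core

/-! Dense ordinary reduction of hyperelliptic curves all of whose branch points move. -/

set_option autoImplicit false

open Polynomial

namespace Pool.Agent.D0H58.OR

open Pool.Agent.Results.MP_2ca583_ag.HasseWittClassification
open Pool.Agent.Y218.HW

/-- restriction of a derivation to a subring -/
lemma restrictD {R E : Type*} [CommRing R] [Field E] (i : R →+* E) (hi : Function.Injective i)
    (D : Derivation ℤ E E) (h : ∀ x, ∃ y, i y = D (i x)) :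
    ∃ D' : Derivation ℤ R R, ∀ x, i (D' x) = D (i x) := by
  choose f hf using h
  let F : R →+ R :=
    { toFun := f
      map_zero' := by apply hi; rw [hf]; simp
      map_add' := fun x y => by apply hi; rw [hf, map_add, map_add, map_add, hf, hf] }
  refine ⟨Derivation.mk' F.toIntLinearMap ?_, fun x => hf x⟩
  intro x y
  change f (x * y) = x • f y + y • f x
  apply hi
  rw [hf, map_mul, Derivation.leibniz, smul_eq_mul, smul_eq_mul, smul_eq_mul, smul_eq_mul, map_add,
    map_mul, map_mul, hf, hf]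

/-- a polynomial with coefficients in a subring -/
lemma lift_poly {R E σ : Type*} [CommRing R] [CommRing E] (i : R →+* E) (F : MvPolynomial σ E)
    (h : ∀ m, ∃ y, i y = MvPolynomial.coeff m F) : ∃ F' : MvPolynomial σ R, MvPolynomial.map i F' = F := by
  classical
  choose f hf using h
  refine ⟨∑ m ∈ F.support, MvPolynomial.monomial m (f m), ?_⟩
  rw [map_sum]
  conv_rhs => rw [F.as_sum]
  refine Finset.sum_congr rfl fun m _ => ?_
  rw [MvPolynomial.map_monomial, hf]

/-- a ring homomorphism from an inclusion of images -/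
lemma exists_hom {A R k : Type*} [CommRing A] [CommRing R] [CommRing k] (j : A →+* k) (κ : R →+* k)
    (hκ : Function.Injective κ) (h : ∀ x, ∃ y, κ y = j x) : ∃ i : A →+* R, ∀ x, κ (i x) = j x := by
  choose f hf using h
  exact ⟨{ toFun := f
           map_one' := by apply hκ; rw [hf, map_one, map_one]
           map_mul' := fun x y => by apply hκ; rw [hf, map_mul, map_mul, hf, hf]
           map_zero' := by apply hκ; rw [hf, map_zero, map_zero]
           map_add' := fun x y => by apply hκ; rw [hf, map_add, map_add, hf, hf] }, hf⟩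

/-- Closed points: a prime ideal which does not contain the Hasse-Witt determinants is contained in
a maximal ideal with the same property. -/
lemma closed_point {A ι : Type*} [CommRing A] [Fintype ι] [IsJacobsonRing A] (p : ℕ) (g : ι → ℕ)
    (F : ι → A[X]) (c : A) (M0 : Ideal A) (hM0 : M0.IsPrime) (hp : (p : A) ∈ M0) (hc : c ∉ M0)
    (hd : ∀ i, (hasseWitt p (g i) (F i)).det ∉ M0) :
    ∃ M : Ideal A, M.IsMaximal ∧ (p : A) ∈ M ∧ c ∉ M ∧
      ∀ i, (hasseWitt p (g i) ((F i).map (Ideal.Quotient.mk M))).det ≠ 0 := by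
  classical
  have hprod : c * ∏ i, (hasseWitt p (g i) (F i)).det ∉ M0 := by
    intro hm
    rcases hM0.mem_or_mem hm with h1 | h1
    · exact hc h1
    · obtain ⟨i, -, hi⟩ := (hM0.prod_mem_iff).1 h1
      exact hd i hi
  have hjac : M0.jacobson = M0 := isJacobsonRing_iff_prime_eq.mp inferInstance M0 hM0
  rw [← hjac, Ideal.jacobson, Submodule.mem_sInf] at hprod
  push Not at hprod
  obtain ⟨M, ⟨hM0M, hM⟩, hMa⟩ := hprod
  refine ⟨M, hM, hM0M hp, fun h1 => hMa (Ideal.mul_mem_right _ M h1), fun i => ?_⟩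
  rw [← Pool.Agent.Y218.Adc.det_map]
  intro h1
  refine hMa (Ideal.mul_mem_left M _ ?_)
  exact Ideal.mem_of_dvd M (Finset.dvd_prod_of_mem
    (fun i => (hasseWitt p (g i) (F i)).det) (Finset.mem_univ i))
    (Ideal.Quotient.eq_zero_iff_mem.1 h1)

/-- The derivative in the direction `δ` of the period of the form `P dx / y` against itself, on the
curve `y² = ∏ (x - a s)`. -/
noncomputable def ks {k : Type*} [Field k] {n : ℕ} (a : Fin n → k) (δ : Derivation ℤ k k)
    (P : k[X]) : k :=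
  ∑ s, δ (a s) * P.eval (a s) ^ 2 / ∏ t ∈ Finset.univ.erase s, (a s - a t)

/-- The condition. -/
def Moves {k : Type*} [Field k] {n : ℕ} (a : Fin n → k) : Prop :=
  ∃ δ₀ : Derivation ℤ k k, (∃ s, δ₀ (a s) ≠ 0) ∧
    ∀ P : k[X], P.degree < ((n - 1) / 2 : ℕ) → (∀ δ : Derivation ℤ k k, ks a δ P = 0) →
      ∀ s, δ₀ (a s) ≠ 0 → P.eval (a s) = 0

/-- certificates over a finitely generated field -/
lemma cert_of_moves {k E : Type*} [Field k] [IsAlgClosed k] [Field E] [Algebra E k] {n : ℕ}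
    (a : Fin n → E) (h : Moves fun s => algebraMap E k (a s)) :
    ∃ (D₀ : Derivation ℤ E E) (s₀ : Fin n), D₀ (a s₀) = 1 ∧ ∀ s, D₀ (a s) ≠ 0 →
      ∃ (e : ℕ) (F : Derivation ℤ E E →₀ MvPolynomial (Fin ((n - 1) / 2)) E),
        lin ((n - 1) / 2) (a s) ^ e = F.sum fun D f => f * quad ((n - 1) / 2)
          (fun t => D (a t) * (∏ t' ∈ Finset.univ.erase t, (a t - a t'))⁻¹) a := by
  classical
  obtain ⟨δ₀, ⟨s₀, hs₀⟩, h⟩ := h
  obtain ⟨ℓ, hℓ⟩ := exists_functional (E := E) _ hs₀
  refine ⟨push δ₀ ℓ, s₀, hℓ, fun s hs => ?_⟩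
  have hs' : δ₀ (algebraMap E k (a s)) ≠ 0 := by
    intro h0
    apply hs
    rw [push_apply, h0, map_zero]
  apply certificate (k := k) (I := Derivation ℤ E E) ((n - 1) / 2) n a
    (fun D t => D (a t) * (∏ t' ∈ Finset.univ.erase t, (a t - a t'))⁻¹) s
  intro v hv
  obtain ⟨P, hP⟩ : ∃ P : k[X], P = ∑ l : Fin ((n - 1) / 2), C (v l) * X ^ (l : ℕ) := ⟨_, rfl⟩
  have hPeval : ∀ x : k, P.eval x = ∑ l : Fin ((n - 1) / 2), x ^ (l : ℕ) * v l := by
    intro x
    rw [hP, eval_finsetSum]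
    refine Finset.sum_congr rfl fun l _ => ?_
    rw [eval_mul, eval_C, eval_pow, eval_X, mul_comm]
  have hPdeg : P.degree < ((n - 1) / 2 : ℕ) := by
    rw [hP]
    refine (degree_sum_le _ _).trans_lt ?_
    rw [Finset.sup_lt_iff (WithBot.bot_lt_coe _)]
    intro l _
    refine (degree_C_mul_X_pow_le _ _).trans_lt ?_
    exact_mod_cast l.2
  rw [← hPeval]
  refine h P hPdeg (fun δ => ?_) s hs'
  have key := all_of_push a (fun t => algebraMap E k (∏ t' ∈ Finset.univ.erase t, (a t - a t'))⁻¹ *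
    P.eval (algebraMap E k (a t)) ^ 2) (fun D => by
      rw [← hv D]
      refine Finset.sum_congr rfl fun t _ => ?_
      rw [hPeval, map_mul]
      ring) δ
  unfold ks
  rw [← key]
  refine Finset.sum_congr rfl fun t _ => ?_
  rw [map_inv₀, map_prod]
  simp only [map_sub]
  rw [div_eq_mul_inv]
  ring

/-- the data over a finitely generated ring -/
structure RingData {k ι : Type*} [Field k] (n : ι → ℕ) (a : ∀ i, Fin (n i) → k) (R : Type*)
    [CommRing R] (κ : R →+* k) where
  /-- the branch points -/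
  aR : ∀ i, Fin (n i) → R
  haR : ∀ i s, κ (aR i s) = a i s
  /-- the inverse of the derivative -/
  wR : ∀ i, Fin (n i) → R
  hwR : ∀ i s, wR i s * ∏ t ∈ Finset.univ.erase s, (aR i s - aR i t) = 1
  /-- the moving derivation -/
  D₀ : ι → Derivation ℤ R R
  hD₀ : ∀ i, 3 ≤ n i → ∃ s₀, D₀ i (aR i s₀) = 1
  hcert : ∀ i, 3 ≤ n i → ∀ s, D₀ i (aR i s) ≠ 0 → ∃ e : ℕ, lin ((n i - 1) / 2) (aR i s) ^ e ∈
    Ideal.span (Set.range fun D : Derivation ℤ R R =>
      quad ((n i - 1) / 2) (fun t => D (aR i t) * wR i t) (aR i))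

/-- the reduction modulo large primes -/
theorem main_of_ringData {k ι : Type*} [Field k] [CharZero k] [Fintype ι] (n : ι → ℕ)
    (a : ∀ i, Fin (n i) → k) (R : Type*) [CommRing R] [IsDomain R] [CharZero R]
    [Algebra.FiniteType ℤ R] (κ : R →+* k) (hκ : Function.Injective κ) (W : RingData n a R κ)
    (A : Type*) [CommRing A] [IsJacobsonRing A] (j : A →+* k) (iA : A →+* R)
    (hiA : ∀ x, κ (iA x) = j x) (F : ι → A[X]) (hF : ∀ i, (F i).map j = ∏ s, (X - C (a i s)))
    (c : A) (cR : R) (hc : iA c * cR = 1) :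
    ∃ N : ℕ, ∀ p : ℕ, N ≤ p → p.Prime → ∃ M : Ideal A, M.IsMaximal ∧ (p : A) ∈ M ∧ c ∉ M ∧
      ∀ i, (hasseWitt p ((n i - 1) / 2) ((F i).map (Ideal.Quotient.mk M))).det ≠ 0 := by
  classical
  obtain ⟨M1, hM1⟩ := diff_prime R
  refine ⟨M1 + 2 * (∑ i, n i) + 3, fun p hp hpp => ?_⟩
  obtain ⟨P, hP, hpP, hDP⟩ := hM1 p (by omega) hpp
  have hdom : IsDomain (R ⧸ P) := Ideal.Quotient.isDomain P
  have hchar : CharP (R ⧸ P) p := charP_of_zero p hpp (by
    have := Ideal.Quotient.eq_zero_iff_mem.2 hpP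
    rwa [map_natCast] at this)
  have hFR : ∀ i, (F i).map iA = fam (W.aR i) := by
    intro i
    apply map_injective κ hκ
    rw [Polynomial.map_map, fam_map]
    have e1 : κ.comp iA = j := RingHom.ext hiA
    rw [e1, hF]
    unfold fam
    simp_rw [W.haR]
  have hM0 : (P.comap iA).IsPrime := Ideal.comap_isPrime iA P
  refine closed_point p (fun i => (n i - 1) / 2) F c (P.comap iA) hM0 ?_ ?_ fun i => ?_
  · rw [Ideal.mem_comap, map_natCast]; exact hpP
  · rw [Ideal.mem_comap]
    intro h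
    apply hP.ne_top
    rw [Ideal.eq_top_iff_one, ← hc]
    exact P.mul_mem_right _ h
  · rw [Ideal.mem_comap, Pool.Agent.Y218.Adc.det_map, hFR]
    intro hmem
    rcases Nat.lt_or_ge (n i) 3 with h3 | h3
    · -- genus zero
      have h4 : (n i - 1) / 2 = 0 := by omega
      have h5 : (hasseWitt p ((n i - 1) / 2) (fam (W.aR i))).det = 1 := by
        have : IsEmpty (Fin ((n i - 1) / 2)) := by rw [h4]; infer_instance
        exact Matrix.det_isEmpty
      rw [h5] at hmem
      exact hP.ne_top ((Ideal.eq_top_iff_one P).2 hmem)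
    · obtain ⟨s₀, hs₀⟩ := W.hD₀ i h3
      have hni : n i ≤ ∑ i, n i := Finset.single_le_sum (fun _ _ => Nat.zero_le _) (Finset.mem_univ i)
      obtain ⟨N, hN⟩ : ∃ N, 2 * N + 1 = p := by
        have : Odd p := hpp.odd_of_ne_two (by omega)
        obtain ⟨m, hm⟩ := this
        exact ⟨m, hm.symm⟩
      refine det_ne p ((n i - 1) / 2) (n i) N hpp (by omega) (by omega) (by omega) (by omega) hN
        (by omega) (W.aR i) (W.wR i) (W.hwR i) (W.D₀ i) s₀ (Ideal.Quotient.mk P) (fun D => ?_) ?_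
        (W.hcert i h3) (Ideal.Quotient.eq_zero_iff_mem.2 hmem)
      · apply push_quot _ Ideal.Quotient.mk_surjective
        intro x hx
        rw [Ideal.Quotient.eq_zero_iff_mem] at hx ⊢
        exact hDP D x hx
      · rw [hs₀, map_one]
        exact one_ne_zero

/-- Dense ordinary reduction. -/
theorem main {k ι : Type*} [Field k] [IsAlgClosed k] [CharZero k] [Fintype ι] (n : ι → ℕ)
    (a : ∀ i, Fin (n i) → k) (ha : ∀ i, Function.Injective (a i)) (h : ∀ i, 3 ≤ n i → Moves (a i))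
    (A : Subalgebra ℤ k) (hA : A.FG) (F : ι → A[X])
    (hF : ∀ i, (F i).map (algebraMap A k) = ∏ s, (X - C (a i s))) (c : A) (hc : c ≠ 0) :
    ∃ N : ℕ, ∀ p : ℕ, N ≤ p → p.Prime → ∃ M : Ideal A, M.IsMaximal ∧ (p : A) ∈ M ∧ c ∉ M ∧
      ∀ i, (hasseWitt p ((n i - 1) / 2) ((F i).map (Ideal.Quotient.mk M))).det ≠ 0 := by
  classical
  obtain ⟨TA, hTA⟩ := hA
  obtain ⟨T, hT⟩ : ∃ T : Finset k, T = TA ∪ Finset.univ.biUnion fun i => Finset.univ.image (a i) :=
    ⟨_, rfl⟩
  obtain ⟨G, hG1, hG2⟩ := frac_closure T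
  have haT : ∀ i s, a i s ∈ T := by
    intro i s
    rw [hT, Finset.mem_union, Finset.mem_biUnion]
    exact Or.inr ⟨i, Finset.mem_univ i, Finset.mem_image_of_mem _ (Finset.mem_univ s)⟩
  have haE : ∀ i s, ∃ x ∈ G, ((x : Subfield.closure (T : Set k)) : k) = a i s :=
    fun i s => hG1 _ (haT i s)
  choose aE haEG haE using haE
  -- the certificates
  have hcert : ∀ i, ∃ (D₀ : Derivation ℤ (Subfield.closure (T : Set k)) (Subfield.closure (T : Set k)))
      (e : Fin (n i) → ℕ) (Fc : Fin (n i) → (Derivation ℤ (Subfield.closure (T : Set k))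
        (Subfield.closure (T : Set k)) →₀ MvPolynomial (Fin ((n i - 1) / 2)) (Subfield.closure (T : Set k)))),
      3 ≤ n i → (∃ s₀, D₀ (aE i s₀) = 1) ∧ ∀ s, D₀ (aE i s) ≠ 0 →
        lin ((n i - 1) / 2) (aE i s) ^ e s = (Fc s).sum fun D f => f * quad ((n i - 1) / 2)
          (fun t => D (aE i t) * (∏ t' ∈ Finset.univ.erase t, (aE i t - aE i t'))⁻¹) (aE i) := by
    intro i
    by_cases h3 : 3 ≤ n i
    · have h4 : Moves fun s => algebraMap (Subfield.closure (T : Set k)) k (aE i s) := by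
        have : (fun s => algebraMap (Subfield.closure (T : Set k)) k (aE i s)) = a i :=
          _root_.funext fun s => haE i s
        rw [this]; exact h i h3
      obtain ⟨D₀, s₀, h5, h6⟩ := cert_of_moves (aE i) h4
      have h7 : ∀ s, ∃ (e : ℕ) (Fc : Derivation ℤ (Subfield.closure (T : Set k))
          (Subfield.closure (T : Set k)) →₀ MvPolynomial (Fin ((n i - 1) / 2)) (Subfield.closure (T : Set k))),
          D₀ (aE i s) ≠ 0 → lin ((n i - 1) / 2) (aE i s) ^ e = Fc.sum fun D f =>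
            f * quad ((n i - 1) / 2)
              (fun t => D (aE i t) * (∏ t' ∈ Finset.univ.erase t, (aE i t - aE i t'))⁻¹) (aE i) := by
        intro s
        by_cases hs : D₀ (aE i s) ≠ 0
        · obtain ⟨e, Fc, he⟩ := h6 s hs
          exact ⟨e, Fc, fun _ => he⟩
        · exact ⟨0, 0, fun h => absurd h hs⟩
      choose e Fc he using h7
      exact ⟨D₀, e, Fc, fun _ => ⟨⟨s₀, h5⟩, he⟩⟩
    · exact ⟨0, fun _ => 0, fun _ => 0, fun h => absurd h h3⟩
  choose D₀ e Fc hFc using hcert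
  -- elements of `A`
  have hAl : ∀ x ∈ A, ∃ y : Subfield.closure (T : Set k), y ∈ Algebra.adjoin ℤ
      (G : Set (Subfield.closure (T : Set k))) ∧ (y : k) = x := by
    intro x hx
    rw [← hTA] at hx
    induction hx using Algebra.adjoin_induction with
    | mem x hx =>
      obtain ⟨y, hy, hyx⟩ := hG1 x (by rw [hT]; exact Finset.mem_union_left _ hx)
      exact ⟨y, Algebra.subset_adjoin hy, hyx⟩
    | algebraMap z =>
      refine ⟨(z : Subfield.closure (T : Set k)), ?_, by simp⟩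
      simp
    | add x y _ _ hx hy =>
      obtain ⟨x', h1, h2⟩ := hx
      obtain ⟨y', h3, h4⟩ := hy
      exact ⟨x' + y', Subalgebra.add_mem _ h1 h3, by push_cast; rw [h2, h4]⟩
    | mul x y _ _ hx hy =>
      obtain ⟨x', h1, h2⟩ := hx
      obtain ⟨y', h3, h4⟩ := hy
      exact ⟨x' * y', Subalgebra.mul_mem _ h1 h3, by push_cast; rw [h2, h4]⟩
  obtain ⟨cE, hcE1, hcE2⟩ := hAl c c.2
  have hcE0 : cE ≠ 0 := by
    rintro rfl
    apply hc
    apply Subtype.ext
    rw [← hcE2]
    simp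
  -- the stable ring
  obtain ⟨Δ, hΔ⟩ : ∃ Δ : Finset (Derivation ℤ (Subfield.closure (T : Set k))
      (Subfield.closure (T : Set k))), Δ = Finset.univ.biUnion fun i =>
      insert (D₀ i) (Finset.univ.biUnion fun s => (Fc i s).support) := ⟨_, rfl⟩
  obtain ⟨C0, hC0⟩ : ∃ C0 : Finset (Subfield.closure (T : Set k)), C0 = insert cE⁻¹
      ((Finset.univ.biUnion fun i => Finset.univ.biUnion fun s => (Fc i s).support.biUnion fun D =>
        (Fc i s D).support.image fun m => MvPolynomial.coeff m (Fc i s D)) ∪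
      Finset.univ.biUnion fun i => Finset.univ.image fun s =>
        (∏ t ∈ Finset.univ.erase s, (aE i s - aE i t))⁻¹) := ⟨_, rfl⟩
  obtain ⟨R, hRfg, hRG, hRC, hRD⟩ := stable_ring G C0 hG2 Δ
  have hD₀Δ : ∀ i, D₀ i ∈ Δ := fun i => by
    rw [hΔ, Finset.mem_biUnion]
    exact ⟨i, Finset.mem_univ i, Finset.mem_insert_self _ _⟩
  have hFcΔ : ∀ i s, ∀ D ∈ (Fc i s).support, D ∈ Δ := fun i s D hD => by
    rw [hΔ, Finset.mem_biUnion]
    exact ⟨i, Finset.mem_univ i, Finset.mem_insert_of_mem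
      (Finset.mem_biUnion.2 ⟨s, Finset.mem_univ s, hD⟩)⟩
  have hcR : cE⁻¹ ∈ R := hRC _ (by rw [hC0]; exact Finset.mem_insert_self _ _)
  have hwR : ∀ i s, (∏ t ∈ Finset.univ.erase s, (aE i s - aE i t))⁻¹ ∈ R := fun i s => hRC _ (by
    rw [hC0]
    refine Finset.mem_insert_of_mem (Finset.mem_union_right _ (Finset.mem_biUnion.2
      ⟨i, Finset.mem_univ i, Finset.mem_image.2 ⟨s, Finset.mem_univ s, rfl⟩⟩)))
  have hFR : ∀ i s, ∀ D ∈ (Fc i s).support, ∀ m, MvPolynomial.coeff m (Fc i s D) ∈ R := by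
    intro i s D hD m
    by_cases hm : m ∈ (Fc i s D).support
    · apply hRC
      rw [hC0]
      exact Finset.mem_insert_of_mem (Finset.mem_union_left _ (Finset.mem_biUnion.2
        ⟨i, Finset.mem_univ i, Finset.mem_biUnion.2 ⟨s, Finset.mem_univ s, Finset.mem_biUnion.2
          ⟨D, hD, Finset.mem_image.2 ⟨m, hm, rfl⟩⟩⟩⟩))
    · rw [MvPolynomial.notMem_support_iff.1 hm]
      exact R.zero_mem
  obtain ⟨iR, hiR⟩ : ∃ iR : R →+* Subfield.closure (T : Set k), ∀ x, iR x = x.1 :=
    ⟨R.val.toRingHom, fun _ => rfl⟩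
  have hiRinj : Function.Injective iR := by
    intro x y h
    rw [hiR, hiR] at h
    exact Subtype.ext h
  have hres : ∀ D ∈ Δ, ∃ D' : Derivation ℤ R R, ∀ x, iR (D' x) = D (iR x) := fun D hD =>
    restrictD iR hiRinj D fun x => ⟨⟨D x.1, hRD D hD x.1 x.2⟩, by rw [hiR, hiR]⟩
  obtain ⟨κ, hκ⟩ : ∃ κ : R →+* k, κ = (Subfield.closure (T : Set k)).subtype.comp iR := ⟨_, rfl⟩
  have hκx : ∀ x, κ x = ((x.1 : Subfield.closure (T : Set k)) : k) := by
    intro x
    rw [hκ, RingHom.comp_apply, hiR]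
    rfl
  have hκinj : Function.Injective κ := by
    rw [hκ]
    exact (Subtype.val_injective (p := fun x => x ∈ Subfield.closure (T : Set k))).comp hiRinj
  have hchar : CharZero R := RingHom.charZero κ
  have hft : Algebra.FiniteType ℤ R := (Subalgebra.fg_iff_finiteType _).mp hRfg
  have hinjE : ∀ i, Function.Injective (aE i) := by
    intro i s t hst
    apply ha i
    rw [← haE i s, ← haE i t, hst]
  choose D₀R hD₀R using fun i => hres (D₀ i) (hD₀Δ i)
  have haR : ∀ i s, aE i s ∈ R := fun i s => hRG _ (haEG i s)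
  obtain ⟨aR, haR'⟩ : ∃ aR : ∀ i, Fin (n i) → R, ∀ i s, iR (aR i s) = aE i s :=
    ⟨fun i s => ⟨aE i s, haR i s⟩, fun i s => hiR _⟩
  obtain ⟨wR, hwR'⟩ : ∃ wR : ∀ i, Fin (n i) → R, ∀ i s, iR (wR i s) =
      (∏ t ∈ Finset.univ.erase s, (aE i s - aE i t))⁻¹ :=
    ⟨fun i s => ⟨_, hwR i s⟩, fun i s => hiR _⟩
  have W : RingData n a R κ :=
    { aR := aR
      haR := fun i s => by
        rw [hκ, RingHom.comp_apply, haR']
        exact haE i s
      wR := wR
      hwR := fun i s => by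
        apply hiRinj
        rw [map_mul, map_prod, hwR', map_one]
        simp only [map_sub, haR']
        apply inv_mul_cancel₀
        rw [Finset.prod_ne_zero_iff]
        intro t ht
        exact sub_ne_zero.2 fun h => (Finset.mem_erase.1 ht).1 (hinjE i h).symm
      D₀ := D₀R
      hD₀ := fun i h3 => by
        obtain ⟨⟨s₀, hs₀⟩, -⟩ := hFc i h3
        refine ⟨s₀, ?_⟩
        apply hiRinj
        rw [hD₀R, haR', hs₀, map_one]
      hcert := fun i h3 s hs => by
        obtain ⟨-, h4⟩ := hFc i h3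
        have hs' : D₀ i (aE i s) ≠ 0 := by
          intro h0
          apply hs
          apply hiRinj
          rw [hD₀R, haR', h0, map_zero]
        have h5 := h4 s hs'
        refine ⟨e i s, ?_⟩
        choose D' hD' using fun D : (Fc i s).support => hres D.1 (hFcΔ i s D.1 D.2)
        choose F' hF' using fun D : (Fc i s).support => lift_poly iR (Fc i s D.1)
          (fun m => ⟨⟨_, hFR i s D.1 D.2 m⟩, hiR _⟩)
        have h6 : lin ((n i - 1) / 2) (aR i s) ^ e i s = ∑ D : (Fc i s).support,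
            F' D * quad ((n i - 1) / 2) (fun t => D' D (aR i t) * wR i t) (aR i) := by
          apply MvPolynomial.map_injective iR hiRinj
          rw [map_pow, map_lin, haR', h5, map_sum, Finsupp.sum, ← Finset.sum_coe_sort]
          refine Finset.sum_congr rfl fun D _ => ?_
          rw [map_mul, hF', map_quad]
          simp only [map_mul, hD', haR', hwR']
        rw [h6]
        exact Ideal.sum_mem _ fun D _ => Ideal.mul_mem_left _ _ (Ideal.subset_span ⟨D' D, rfl⟩) }
  -- the map from `A`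
  have hRadj : Algebra.adjoin ℤ (G : Set (Subfield.closure (T : Set k))) ≤ R :=
    Algebra.adjoin_le fun x hx => hRG x hx
  obtain ⟨iA, hiA⟩ := exists_hom (algebraMap A k) κ hκinj (fun x => by
    obtain ⟨y, hy1, hy2⟩ := hAl x x.2
    exact ⟨⟨y, hRadj hy1⟩, by rw [hκx]; exact hy2⟩)
  have hfA : Algebra.FiniteType ℤ A := (Subalgebra.fg_iff_finiteType _).mp ⟨TA, hTA⟩
  have hJ : IsJacobsonRing A := by
    have := Pool.Agent.Y162.HW.jac_int
    exact isJacobsonRing_of_finiteType (A := ℤ)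
  refine main_of_ringData n a R κ hκinj W A (algebraMap A k) iA hiA F hF c ⟨cE⁻¹, hcR⟩ ?_
  apply hκinj
  rw [map_mul, map_one, hiA, hκx]
  change (c : k) * ((cE⁻¹ : Subfield.closure (T : Set k)) : k) = 1
  rw [← hcE2, ← Subfield.coe_mul, mul_inv_cancel₀ hcE0]
  rfl

end Pool.Agent.D0H58.OR
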