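import Mathlib

/-! The certificate that a system of quadratic forms has few common zeros. -/

set_option autoImplicit false

open MvPolynomial

namespace Pool.Agent.D0H58.OR

section

variable {A : Type*} [CommRing A]

/-- the value of a polynomial with the coefficients `X₀, …, X_(g-1)` at `x` -/
noncomputable def lin (g : ℕ) (x : A) : MvPolynomial (Fin g) A := ∑ l : Fin g, C (x ^ (l : ℕ)) * X l

/-- the quadratic form `∑ c s P(a s)²` -/
noncomputable def quad (g : ℕ) {n : ℕ} (c a : Fin n → A) : MvPolynomial (Fin g) A :=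
  ∑ s, C (c s) * lin g (a s) ^ 2

lemma map_lin {B : Type*} [CommRing B] (φ : A →+* B) (g : ℕ) (x : A) :
    MvPolynomial.map φ (lin g x) = lin g (φ x) := by
  unfold lin
  simp

lemma map_quad {B : Type*} [CommRing B] (φ : A →+* B) (g : ℕ) {n : ℕ} (c a : Fin n → A) :
    MvPolynomial.map φ (quad g c a) = quad g (fun s => φ (c s)) (fun s => φ (a s)) := by
  unfold quad
  simp [map_lin]

lemma eval_lin (g : ℕ) (x : A) (v : Fin g → A) :
    eval v (lin g x) = ∑ l : Fin g, x ^ (l : ℕ) * v l := by
  unfold lin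
  simp

lemma eval_quad (g : ℕ) {n : ℕ} (c a : Fin n → A) (v : Fin g → A) :
    eval v (quad g c a) = ∑ s, c s * (∑ l : Fin g, a s ^ (l : ℕ) * v l) ^ 2 := by
  unfold quad
  simp [eval_lin]

lemma eval_eq (g : ℕ) (x : A) (U : Polynomial A) (hU : U.degree < g) :
    ∑ l : Fin g, x ^ (l : ℕ) * U.coeff l = U.eval x := by
  rcases eq_or_ne U 0 with rfl | h
  · simp
  rw [Polynomial.eval_eq_sum_range' (n := g), Finset.sum_range]
  · exact Finset.sum_congr rfl fun l _ => mul_comm _ _
  · exact (Polynomial.natDegree_lt_iff_degree_lt h).2 hU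

end

/-- Hilbert's Nullstellensatz -/
theorem certificate {E k : Type*} [Field E] [Field k] [Algebra E k] [IsAlgClosed k] {I : Type*}
    (g n : ℕ) (a : Fin n → E) (c : I → Fin n → E) (s : Fin n)
    (h : ∀ v : Fin g → k, (∀ i, ∑ t, algebraMap E k (c i t) *
      (∑ l : Fin g, algebraMap E k (a t) ^ (l : ℕ) * v l) ^ 2 = 0) →
      ∑ l : Fin g, algebraMap E k (a s) ^ (l : ℕ) * v l = 0) :
    ∃ (e : ℕ) (F : I →₀ MvPolynomial (Fin g) E),
      lin g (a s) ^ e = F.sum fun i f => f * quad g (c i) a := by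
  have h1 : lin g (a s) ∈ (Ideal.span (Set.range fun i => quad g (c i) a)).radical := by
    rw [← vanishingIdeal_zeroLocus_eq_radical (K := k), mem_vanishingIdeal_iff]
    intro v hv
    rw [mem_zeroLocus_iff] at hv
    have e1 : ∀ q : MvPolynomial (Fin g) E, aeval v q = eval v (MvPolynomial.map (algebraMap E k) q) := by
      intro q
      rw [aeval_def, eval_map]
    rw [e1, map_lin, eval_lin]
    apply h
    intro i
    have h2 := hv _ (Ideal.subset_span ⟨i, rfl⟩)
    rw [e1, map_quad, eval_quad] at h2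
    exact h2
  obtain ⟨e, he⟩ := h1
  obtain ⟨F, hF⟩ := Finsupp.mem_ideal_span_range_iff_exists_finsupp.1 he
  exact ⟨e, F, hF.symm⟩

section push

variable {E k : Type*} [Field E] [Field k] [Algebra E k]

/-- a derivation of `k`, restricted to `E` and composed with an `E`-linear functional -/
noncomputable def push (δ : Derivation ℤ k k) (ℓ : k →ₗ[E] E) : Derivation ℤ E E where
  toFun x := ℓ (δ (algebraMap E k x))
  map_add' x y := by simp
  map_smul' n x := by
    change ℓ (δ (algebraMap E k (n • x))) = n • ℓ (δ (algebraMap E k x))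
    rw [map_zsmul, map_zsmul, map_zsmul]
  map_one_eq_zero' := by
    change ℓ (δ (algebraMap E k 1)) = 0
    simp
  leibniz' x y := by
    change ℓ (δ (algebraMap E k (x * y))) = x • ℓ (δ (algebraMap E k y)) + y • ℓ (δ (algebraMap E k x))
    rw [map_mul, Derivation.leibniz, map_add, smul_eq_mul, smul_eq_mul, ← Algebra.smul_def,
      ← Algebra.smul_def, map_smul, map_smul]

lemma push_apply (δ : Derivation ℤ k k) (ℓ : k →ₗ[E] E) (x : E) :
    push δ ℓ x = ℓ (δ (algebraMap E k x)) := rfl

/-- derivations of `E` are enough -/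
lemma all_of_push {n : ℕ} (a : Fin n → E) (m : Fin n → k)
    (h : ∀ D : Derivation ℤ E E, ∑ s, algebraMap E k (D (a s)) * m s = 0) (δ : Derivation ℤ k k) :
    ∑ s, δ (algebraMap E k (a s)) * m s = 0 := by
  classical
  let b := Module.Basis.ofVectorSpace E k
  set T : Finset _ := Finset.univ.biUnion fun s => (b.repr (δ (algebraMap E k (a s)))).support with hT
  have h1 : ∀ s, δ (algebraMap E k (a s)) =
      ∑ j ∈ T, algebraMap E k (push δ (b.coord j) (a s)) * b j := by
    intro s
    have h2 := b.linearCombination_repr (δ (algebraMap E k (a s)))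
    rw [Finsupp.linearCombination_apply, Finsupp.sum_of_support_subset (s := T)] at h2
    · conv_lhs => rw [← h2]
      refine Finset.sum_congr rfl fun j _ => ?_
      rw [Algebra.smul_def]
      rfl
    · exact Finset.subset_biUnion_of_mem
        (fun s => (b.repr (δ (algebraMap E k (a s)))).support) (Finset.mem_univ s)
    · intro j _
      rw [zero_smul]
  have h3 : ∑ s, δ (algebraMap E k (a s)) * m s =
      ∑ j ∈ T, b j * ∑ s, algebraMap E k (push δ (b.coord j) (a s)) * m s := by
    simp_rw [Finset.mul_sum]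
    rw [Finset.sum_comm]
    refine Finset.sum_congr rfl fun s _ => ?_
    rw [h1 s, Finset.sum_mul]
    refine Finset.sum_congr rfl fun j _ => ?_
    ring
  rw [h3]
  apply Finset.sum_eq_zero
  intro j _
  rw [h, mul_zero]

lemma exists_functional (x : k) (hx : x ≠ 0) : ∃ ℓ : k →ₗ[E] E, ℓ x = 1 := by
  have h1 : ¬ ∀ φ : Module.Dual E k, φ x = 0 := fun h =>
    hx ((Module.forall_dual_apply_eq_zero_iff E x).1 h)
  push Not at h1
  obtain ⟨φ, hφ⟩ := h1
  refine ⟨(φ x)⁻¹ • φ, ?_⟩
  rw [LinearMap.smul_apply, smul_eq_mul, inv_mul_cancel₀ hφ]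

end push

end Pool.Agent.D0H58.OR
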