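import Mathlib

/-! Tensors, connections on tensors, and horizontal functionals. -/

set_option autoImplicit false

namespace Pool.Agent.D0H58.OR

section

variable {S : Type*} [CommRing S]

/-- the value of a tensor at a family of functionals -/
def pr {g n : ℕ} (l : Fin g → Fin n → S) (T : (Fin g → Fin n) → S) : S :=
  ∑ s, T s * ∏ j, l j (s j)

lemma deriv_prod (D : Derivation ℤ S S) {ι : Type*} [DecidableEq ι] (T : Finset ι) (x : ι → S) :
    D (∏ i ∈ T, x i) = ∑ i ∈ T, (∏ j ∈ T.erase i, x j) * D (x i) := by
  induction T using Finset.induction_on with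
  | empty => simp
  | insert b T hb ih =>
    rw [Finset.prod_insert hb, Derivation.leibniz, smul_eq_mul, smul_eq_mul, ih,
      Finset.sum_insert hb, Finset.erase_insert hb, Finset.mul_sum, add_comm]
    congr 1
    refine Finset.sum_congr rfl fun s hs => ?_
    have h2 : (insert b T).erase s = insert b (T.erase s) := by
      rw [Finset.erase_insert_of_ne]
      rintro rfl; exact hb hs
    rw [h2, Finset.prod_insert (fun h => hb (Finset.mem_of_mem_erase h))]
    ring

/-- the exchange of `s i` and `t` -/
lemma swap_sum {g n : ℕ} (i : Fin g) (G : (Fin g → Fin n) → Fin n → S) :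
    ∑ s : Fin g → Fin n, ∑ t, G s t = ∑ s : Fin g → Fin n, ∑ t, G (Function.update s i t) (s i) := by
  classical
  rw [← Finset.sum_product', ← Finset.sum_product']
  refine Finset.sum_nbij' (fun x => (Function.update x.1 i x.2, x.1 i))
    (fun x => (Function.update x.1 i x.2, x.1 i)) ?_ ?_ ?_ ?_ ?_
  · intro x _; simp
  · intro x _; simp
  · intro x _; simp
  · intro x _; simp
  · intro x _; simp

/-- the derivative of the value -/
lemma pr_deriv (D : Derivation ℤ S S) {g n : ℕ} (θ : Fin n → Fin n → S)
    (hθ : ∀ s t, θ s t = θ t s) (ν : S) (l : Fin g → Fin n → S)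
    (hl : ∀ j s, D (l j s) = ν * ∑ t, θ s t * (l j s - l j t)) (T : (Fin g → Fin n) → S) :
    D (pr l T) = pr l (fun s => D (T s) + ν * ∑ i, ∑ t, θ (s i) t *
      (T s - T (Function.update s i t))) := by
  classical
  unfold pr
  rw [map_sum]
  have h1 : ∀ s : Fin g → Fin n, D (T s * ∏ j, l j (s j)) = D (T s) * ∏ j, l j (s j) +
      ν * ∑ i, ∑ t, (θ (s i) t * T s * ∏ j, l j (s j) -
        θ (s i) t * T s * ∏ j, l j (Function.update s i t j)) := by
    intro s
    rw [Derivation.leibniz, deriv_prod, smul_eq_mul, smul_eq_mul, add_comm]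
    congr 1
    · ring
    · rw [Finset.mul_sum, Finset.mul_sum]
      refine Finset.sum_congr rfl fun i _ => ?_
      rw [hl, Finset.mul_sum, Finset.mul_sum, Finset.mul_sum, Finset.mul_sum]
      refine Finset.sum_congr rfl fun t _ => ?_
      have e1 : ∏ j, l j (s j) = l i (s i) * ∏ j ∈ Finset.univ.erase i, l j (s j) :=
        (Finset.mul_prod_erase _ _ (Finset.mem_univ i)).symm
      have e2 : ∏ j, l j (Function.update s i t j) = l i t * ∏ j ∈ Finset.univ.erase i, l j (s j) := by
        rw [← Finset.mul_prod_erase _ _ (Finset.mem_univ i)]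
        congr 1
        · simp
        · refine Finset.prod_congr rfl fun j hj => ?_
          rw [Function.update_of_ne (Finset.ne_of_mem_erase hj)]
      rw [e1, e2]
      ring
  rw [Finset.sum_congr rfl fun s _ => h1 s, Finset.sum_add_distrib]
  have h2 : ∀ s : Fin g → Fin n, (D (T s) + ν * ∑ i, ∑ t, θ (s i) t *
      (T s - T (Function.update s i t))) * ∏ j, l j (s j) = D (T s) * ∏ j, l j (s j) +
      ν * ∑ i, ∑ t, (θ (s i) t * T s * ∏ j, l j (s j) -
        θ (s i) t * T (Function.update s i t) * ∏ j, l j (s j)) := by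
    intro s
    rw [add_mul, mul_assoc, Finset.sum_mul]
    congr 2
    refine Finset.sum_congr rfl fun i _ => ?_
    rw [Finset.sum_mul]
    refine Finset.sum_congr rfl fun t _ => ?_
    ring
  rw [Finset.sum_congr rfl fun s _ => h2 s, Finset.sum_add_distrib]
  congr 1
  rw [← Finset.mul_sum, ← Finset.mul_sum]
  congr 1
  rw [Finset.sum_comm]
  conv_rhs => rw [Finset.sum_comm]
  refine Finset.sum_congr rfl fun i _ => ?_
  simp only [Finset.sum_sub_distrib]
  congr 1
  rw [swap_sum i]
  refine Finset.sum_congr rfl fun s _ => Finset.sum_congr rfl fun t _ => ?_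
  simp [hθ t (s i)]

/-- the tensor of the product of the holomorphic forms -/
def vol (g : ℕ) {n : ℕ} (a : Fin n → S) (s : Fin g → Fin n) : S :=
  (Matrix.of fun i j : Fin g => a (s i) ^ ((j : ℕ) + 1)).det

lemma pr_vol {g n : ℕ} (a : Fin n → S) (l : Fin g → Fin n → S) :
    pr l (vol g a) = (Matrix.of fun i j : Fin g => ∑ s, a s ^ ((j : ℕ) + 1) * l i s).det := by
  classical
  have h1 : (Matrix.of fun i j : Fin g => ∑ s, a s ^ ((j : ℕ) + 1) * l i s) =
      fun i => ∑ s, l i s • (fun j : Fin g => a s ^ ((j : ℕ) + 1)) := by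
    funext i j
    rw [Matrix.of_apply, Finset.sum_apply]
    refine Finset.sum_congr rfl fun s _ => ?_
    rw [Pi.smul_apply, smul_eq_mul, mul_comm]
  have h2 : (Matrix.of fun i j : Fin g => ∑ s, a s ^ ((j : ℕ) + 1) * l i s).det =
      (Matrix.detRowAlternating (R := S) (n := Fin g)).toMultilinearMap
        (fun i => ∑ s, l i s • (fun j : Fin g => a s ^ ((j : ℕ) + 1))) := by
    rw [h1]; rfl
  rw [h2, MultilinearMap.map_sum]
  unfold pr
  refine Finset.sum_congr rfl fun s _ => ?_
  rw [MultilinearMap.map_smul_univ, smul_eq_mul, mul_comm]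
  rfl

end

section field

variable {F : Type*} [Field F]

/-- if all the minors vanish, then the rows are linearly dependent -/
lemma exists_dep {g n : ℕ} (l : Fin g → Fin n → F)
    (h : ∀ s : Fin g → Fin n, (Matrix.of fun i j : Fin g => l i (s j)).det = 0) :
    ∃ v : Fin g → F, v ≠ 0 ∧ ∀ s, ∑ j, v j * l j s = 0 := by
  classical
  by_contra hcon
  push Not at hcon
  -- the columns span
  obtain ⟨c, hc⟩ : ∃ c : Fin n → Fin g → F, ∀ s i, c s i = l i s := ⟨fun s i => l i s, fun _ _ => rfl⟩
  have hspan : Submodule.span F (Set.range c) = ⊤ := by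
    by_contra hne
    obtain ⟨φ, hφ, hφ2⟩ := Submodule.exists_le_ker_of_lt_top _ (lt_top_iff_ne_top.2 hne)
    have h1 : ∀ x : Fin g → F, φ x = ∑ j, φ (Pi.single j 1) * x j := by
      intro x
      conv_lhs => rw [← Finset.univ_sum_single x]
      rw [map_sum]
      refine Finset.sum_congr rfl fun j _ => ?_
      have : (Pi.single j (x j) : Fin g → F) = x j • Pi.single j 1 := by
        rw [← Pi.single_smul]; simp
      rw [this, map_smul, smul_eq_mul, mul_comm]
    obtain ⟨s, hs⟩ := hcon (fun j => φ (Pi.single j 1)) (by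
      intro h0
      apply hφ
      apply LinearMap.ext
      intro x
      rw [h1 x, LinearMap.zero_apply]
      exact Finset.sum_eq_zero fun j _ => by rw [congrFun h0 j, Pi.zero_apply, zero_mul])
    apply hs
    have h2 : φ (c s) = 0 := hφ2 (Submodule.subset_span ⟨s, rfl⟩)
    rw [h1] at h2
    simpa [hc] using h2
  obtain ⟨κ, r, hr, hsp, hli⟩ := exists_linearIndependent' F c
  rw [hspan] at hsp
  have hfin : Finite κ := hli.finite
  have hfin' : Fintype κ := Fintype.ofFinite κ
  have hcard : Fintype.card κ = g := by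
    have := Module.Basis.mk hli (hsp ▸ le_rfl)
    have h3 := Module.finrank_eq_card_basis this
    rw [Module.finrank_fin_fun] at h3
    exact h3.symm
  let e : Fin g ≃ κ := (Fintype.equivFinOfCardEq hcard).symm
  have h4 := h fun j => r (e j)
  have h5 : LinearIndependent F fun j : Fin g => c (r (e j)) := hli.comp e e.injective
  have h6 := (Matrix.linearIndependent_rows_iff_isUnit (A := Matrix.of fun j i : Fin g => l i (r (e j)))).1
    (by
      have : (Matrix.of fun j i : Fin g => l i (r (e j))).row = fun j : Fin g => c (r (e j)) := by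
        funext j i
        rw [hc]
        rfl
      rw [this]
      exact h5)
  rw [Matrix.isUnit_iff_isUnit_det] at h6
  apply h6.ne_zero
  rw [← h4, ← Matrix.det_transpose]
  rfl

end field

end Pool.Agent.D0H58.OR
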