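import Pool.Agent.D0H58.OR.Rank

/-! The common kernel of the horizontal functionals is isotropic. -/

set_option autoImplicit false

open Polynomial

namespace Pool.Agent.D0H58.OR

open Pool.Agent.Results.MP_2ca583_ag.HasseWittClassification
open Pool.Agent.Y218.HW

/-- The symplectic form on the de Rham cohomology of `y² = ∏ (x - a s)`, applied to the classes of
`∑ c s dx / ((x - a s) y)` and `∑ d s dx / ((x - a s) y)`. -/
def form {k : Type*} [Field k] {n : ℕ} (a c d : Fin n → k) : k :=
  ∑ s, (∑ t, (c s * d t - c t * d s) / (a s - a t)) / ∏ t ∈ Finset.univ.erase s, (a s - a t)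

section

variable {R : Type*} [CommRing R]

/-- the numerator of a form -/
noncomputable def qq {n : ℕ} (a c : Fin n → R) : R[X] := ∑ s, C (c s) * fe a s

/-- the expansion at a branch point -/
lemma qq_expand {n : ℕ} (a c : Fin n → R) (s : Fin n) :
    qq a c = C (c s) * fe a s + (X - C (a s)) * ∑ t ∈ Finset.univ.erase s, C (c t) *
      ∏ u ∈ (Finset.univ.erase s).erase t, (X - C (a u)) := by
  classical
  unfold qq
  rw [← Finset.add_sum_erase _ _ (Finset.mem_univ s), Finset.mul_sum]
  congr 1
  refine Finset.sum_congr rfl fun t ht => ?_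
  have h1 : fe a t = (X - C (a s)) * ∏ u ∈ (Finset.univ.erase s).erase t, (X - C (a u)) := by
    unfold fe
    have h2 : s ∈ Finset.univ.erase t := Finset.mem_erase.2 ⟨(Finset.ne_of_mem_erase ht).symm, Finset.mem_univ s⟩
    rw [← Finset.mul_prod_erase _ _ h2, Finset.erase_right_comm]
  rw [h1]
  ring

end

section field

variable {k : Type*} [Field k] (p : ℕ) [Fact p.Prime] [CharP k p]

lemma iso (n : ℕ) (hn1 : 1 ≤ n) (a : Fin n → k) (ha : Function.Injective a) (c d : Fin n → k) (N : ℕ)
    (hN : 2 * N + 1 = p) (hN1 : 1 ≤ N) (h1 : NoTop p (qq a c * fam a ^ (N - 1)))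
    (h2 : NoTop p (qq a d * fam a ^ (N - 1))) : form a c d = 0 := by
  classical
  obtain ⟨f, hf⟩ : ∃ f, f = fam a := ⟨_, rfl⟩
  rw [← hf] at h1 h2
  have hfd : f.natDegree = n := by rw [hf, natDegree_fam]
  have hqd : ∀ c : Fin n → k, (qq a c).natDegree ≤ n - 1 := by
    intro c
    unfold qq
    refine natDegree_sum_le_of_forall_le _ _ fun s _ => ?_
    refine (natDegree_C_mul_le _ _).trans ?_
    unfold fe
    refine (natDegree_prod_le _ _).trans ?_
    refine (Finset.sum_le_card_nsmul _ _ 1 fun t _ => natDegree_X_sub_C_le _).trans ?_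
    rw [Finset.card_erase_of_mem (Finset.mem_univ s)]
    simp
  obtain ⟨G, hG, hGd⟩ := exists_antideriv p _ h1
  obtain ⟨V, hV⟩ : ∃ V, V = qq a d * f ^ (N - 1) := ⟨_, rfl⟩
  rw [← hV] at h2
  -- degree bounds
  have hPd : ∀ c : Fin n → k, (qq a c * f ^ (N - 1)).natDegree ≤ (n - 1) + (N - 1) * n := by
    intro c
    refine le_trans natDegree_mul_le ?_
    have h3 := natDegree_pow_le_of_le (N - 1) hfd.le
    have := hqd c
    omega
  obtain ⟨W, hW⟩ : ∃ W, W = G * V := ⟨_, rfl⟩
  have hWd : W.natDegree < (n - 1) * p + (p - 1) := by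
    rw [hW]
    refine lt_of_le_of_lt natDegree_mul_le ?_
    have h3 := hPd c
    have h4 : V.natDegree ≤ (n - 1) + (N - 1) * n := by rw [hV]; exact hPd d
    have e3 : ((n - 1) + (N - 1) * n) + 1 + ((n - 1) + (N - 1) * n) < (n - 1) * p + (p - 1) := by
      obtain ⟨M, rfl⟩ : ∃ M, N = M + 1 := ⟨N - 1, by omega⟩
      obtain ⟨n', rfl⟩ : ∃ n', n = n' + 1 := ⟨n - 1, by omega⟩
      rw [← hN]
      simp only [Nat.add_sub_cancel]
      nlinarith
    omega
  -- the polynomial Q
  obtain ⟨Q, hQ⟩ : ∃ Q : k[X], Q = ∑ i ∈ Finset.range (W.natDegree + 1),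
    monomial i (W.coeff (i * p + (p - 1))) := ⟨_, rfl⟩
  have hQeval : ∀ x : k, Q.eval (x ^ p) = (taylor x W).coeff (p - 1) := by
    intro x
    rw [taylor_coeff_pred p W x, hQ, eval_finsetSum]
    simp only [eval_monomial]
  have hQcoeff : ∀ m, n - 1 ≤ m → Q.coeff m = 0 := by
    intro m hm
    rw [hQ, finsetSum_coeff]
    apply Finset.sum_eq_zero
    intro i _
    rw [coeff_monomial]
    split_ifs with hin
    · rw [hin]
      apply coeff_eq_zero_of_natDegree_lt
      have : (n - 1) * p ≤ m * p := Nat.mul_le_mul_right p hm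
      omega
    · rfl
  have hp' : p - 1 = 2 * N := by omega
  have hNk : ((N : k) + 1) ≠ 0 := by
    have := natCast_ne_zero_of_lt (k := k) p (N + 1) (by omega) (by omega)
    push_cast at this; exact this
  have hNk' : (N : k) ≠ 0 := natCast_ne_zero_of_lt p N hN1 (by omega)
  have h2N : 2 * (N : k) + 1 = 0 := by
    have h3 : ((2 * N + 1 : ℕ) : k) = 0 := by rw [hN]; exact CharP.cast_eq_zero k p
    push_cast at h3; exact h3
  -- the products
  obtain ⟨B, hB⟩ : ∃ B : Fin n → k, ∀ s, B s = ∏ t ∈ Finset.univ.erase s, (a s - a t) :=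
    ⟨_, fun _ => rfl⟩
  obtain ⟨S, hS⟩ : ∃ S : (Fin n → k) → Fin n → k, ∀ c s, S c s =
      ∑ t ∈ Finset.univ.erase s, c t / (a s - a t) := ⟨_, fun _ _ => rfl⟩
  have hB0 : ∀ s, B s ≠ 0 := by
    intro s
    rw [hB, Finset.prod_ne_zero_iff]
    intro t ht
    exact sub_ne_zero.2 fun h => (Finset.mem_erase.1 ht).1 (ha h).symm
  -- the coefficients of an expansion
  have hexp : ∀ (c : Fin n → k) (s : Fin n),
      (∀ i < N - 1, (taylor (a s) (qq a c * f ^ (N - 1))).coeff i = 0) ∧
      (taylor (a s) (qq a c * f ^ (N - 1))).coeff (N - 1) = B s ^ N * c s ∧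
      (taylor (a s) (qq a c * f ^ (N - 1))).coeff N = (N : k) * B s ^ (N - 1) *
        (derivative (fe a s)).eval (a s) * c s + B s ^ N * S c s := by
    intro c s
    obtain ⟨M, hM⟩ : ∃ M : k[X], M = ∑ t ∈ Finset.univ.erase s, C (c t) *
      ∏ u ∈ (Finset.univ.erase s).erase t, (X - C (a u)) := ⟨_, rfl⟩
    have hfh : f = (X - C (a s)) * fe a s := by rw [hf, fam_fe a s]
    have hhs : (fe a s).eval (a s) = B s := by
      unfold fe
      rw [hB, eval_prod]; simp
    have hMs : M.eval (a s) = B s * S c s := by
      rw [hM, hS, eval_finsetSum, Finset.mul_sum]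
      refine Finset.sum_congr rfl fun t ht => ?_
      rw [eval_mul, eval_C, eval_prod, hB, ← Finset.mul_prod_erase _ _ ht]
      simp only [eval_sub, eval_X, eval_C]
      have : a s - a t ≠ 0 := sub_ne_zero.2 fun h => (Finset.mem_erase.1 ht).1 (ha h).symm
      field_simp
    have hτ : taylor (a s) (X - C (a s)) = X := by simp
    have hτV : taylor (a s) (qq a c * f ^ (N - 1)) = X ^ (N - 1) * (C (c s) * (taylor (a s) (fe a s)) ^ N
        + X * ((taylor (a s) (fe a s)) ^ (N - 1) * taylor (a s) M)) := by
      rw [qq_expand a c s, ← hM, taylor_mul, taylor_pow, map_add, taylor_mul, taylor_mul, taylor_C,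
        hfh, taylor_mul, hτ, mul_pow]
      have e1 : (taylor (a s) (fe a s)) ^ N = (taylor (a s) (fe a s)) ^ (N - 1) * taylor (a s) (fe a s) := by
        rw [← pow_succ]; congr 1; omega
      rw [e1]
      ring
    refine ⟨fun i hi => ?_, ?_, ?_⟩
    · rw [hτV, coeff_X_pow_mul', if_neg (by omega)]
    · rw [hτV, coeff_X_pow_mul', if_pos le_rfl, Nat.sub_self, coeff_zero_eq_eval_zero]
      simp only [eval_mul, eval_pow, eval_add, eval_X, eval_C, taylor_eval, zero_add, zero_mul,
        add_zero, hhs]
      ring
    · have e2 : N = 1 + (N - 1) := by omega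
      have e3 : (X ^ (N - 1) * (C (c s) * (taylor (a s) (fe a s)) ^ N
        + X * ((taylor (a s) (fe a s)) ^ (N - 1) * taylor (a s) M))).coeff N =
        (C (c s) * (taylor (a s) (fe a s)) ^ N
        + X * ((taylor (a s) (fe a s)) ^ (N - 1) * taylor (a s) M)).coeff 1 := by
        rw [coeff_X_pow_mul', if_pos (by omega)]
        congr 1
        omega
      rw [hτV, e3, coeff_add, coeff_C_mul]
      have e4 : (X * ((taylor (a s) (fe a s)) ^ (N - 1) * taylor (a s) M)).coeff 1 = B s ^ N * S c s := by
        rw [show (1 : ℕ) = 0 + 1 from rfl, coeff_X_mul, coeff_zero_eq_eval_zero]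
        simp only [eval_mul, eval_pow, taylor_eval, zero_add, hhs, hMs]
        have : B s ^ N = B s ^ (N - 1) * B s := by rw [← pow_succ]; congr 1; omega
        rw [this]; ring
      have e5 : ((taylor (a s) (fe a s)) ^ N).coeff 1 = (N : k) * B s ^ (N - 1) *
          (derivative (fe a s)).eval (a s) := by
        rw [← taylor_pow, taylor_coeff_one, derivative_pow, eval_mul, eval_mul, eval_C, eval_pow, hhs]
      rw [e4, e5]
      ring
  -- local computation
  have hloc : ∀ s, (taylor (a s) W).coeff (p - 1) * ((N : k) + 1) =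
      B s ^ (2 * N) * (d s * S c s - c s * S d s) := by
    intro s
    obtain ⟨hc0, hc1, hc2⟩ := hexp c s
    obtain ⟨hd0, hd1, hd2⟩ := hexp d s
    rw [← hV] at hd0 hd1 hd2
    have hGi : ∀ i, (taylor (a s) G).coeff (i + 1) * ((i : k) + 1) =
        (taylor (a s) (qq a c * f ^ (N - 1))).coeff i := by
      intro i
      have e1 : (derivative (taylor (a s) G)).coeff i =
          (taylor (a s) G).coeff (i + 1) * ((i : k) + 1) := coeff_derivative _ _
      rw [← e1, derivative_taylor, hG]
    have hGz : ∀ i, 1 ≤ i → i < N → (taylor (a s) G).coeff i = 0 := by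
      intro i hi1 hi2
      obtain ⟨j, rfl⟩ : ∃ j, i = j + 1 := ⟨i - 1, by omega⟩
      have e1 := hGi j
      rw [hc0 j (by omega)] at e1
      have e2 := natCast_ne_zero_of_lt (k := k) p (j + 1) (by omega) (by omega)
      push_cast at e2
      exact (mul_eq_zero.1 e1).resolve_right e2
    have hsum : (taylor (a s) W).coeff (p - 1)
        = (taylor (a s) G).coeff N * (taylor (a s) V).coeff N +
          (taylor (a s) G).coeff (N + 1) * (taylor (a s) V).coeff (N - 1) := by
      have hne : ((N, N) : ℕ × ℕ) ≠ (N + 1, N - 1) := by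
        intro h
        have := congrArg Prod.fst h
        simp only at this
        omega
      have hpair := Finset.sum_pair (f := fun x : ℕ × ℕ => (taylor (a s) G).coeff x.1 *
        (taylor (a s) V).coeff x.2) hne
      simp only at hpair
      rw [hW, taylor_mul, coeff_mul, ← hpair]
      symm
      apply Finset.sum_subset
      · intro x hx
        rw [Finset.HasAntidiagonal.mem_antidiagonal]
        rw [Finset.mem_insert, Finset.mem_singleton] at hx
        rcases hx with rfl | rfl
        · simp only; omega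
        · simp only; omega
      · rintro ⟨i, j⟩ hij hne'
        rw [Finset.HasAntidiagonal.mem_antidiagonal] at hij
        rw [Finset.mem_insert, Finset.mem_singleton, not_or] at hne'
        simp only at hij ⊢
        by_cases hi0 : i = 0
        · have : j = p - 1 := by omega
          rw [this, taylor_coeff_pred_of_noTop p V (a s) h2, mul_zero]
        · by_cases hiN : i < N
          · rw [hGz i (by omega) hiN, zero_mul]
          · have hi1 : i ≠ N := by
              intro h0
              apply hne'.1
              rw [h0]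
              congr 1
              omega
            have hi2 : i ≠ N + 1 := by
              intro h0
              apply hne'.2
              rw [h0]
              congr 1
              omega
            rw [hd0 j (by omega), mul_zero]
    have hGN : (taylor (a s) G).coeff N * (N : k) = B s ^ N * c s := by
      have e1 := hGi (N - 1)
      have e2 : N - 1 + 1 = N := by omega
      have e3 : ((N - 1 : ℕ) : k) + 1 = N := by
        have : ((N - 1 : ℕ) : k) + 1 = ((N - 1 + 1 : ℕ) : k) := by push_cast; ring
        rw [this, e2]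
      rw [e2, e3, hc1] at e1
      exact e1
    have hGN1 := hGi N
    rw [hc2] at hGN1
    rw [hsum, hd1, hd2]
    have e5 : (taylor (a s) G).coeff N = B s ^ N * c s / (N : k) := by
      rw [← hGN, mul_div_assoc, div_self hNk', mul_one]
    have e6 : B s ^ (2 * N) = B s ^ N * (B s ^ (N - 1) * B s) := by
      rw [← pow_succ, ← pow_add]
      congr 1
      omega
    have e7 : B s ^ N = B s ^ (N - 1) * B s := by
      rw [← pow_succ]; congr 1; omega
    have e8 : ((taylor (a s)) G).coeff N * ((N : k) * B s ^ (N - 1) * eval (a s) (derivative (fe a s)) * d s +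
        B s ^ N * S d s) * ((N : k) + 1) = - (B s ^ N * c s) * ((N : k) * B s ^ (N - 1) *
          eval (a s) (derivative (fe a s)) * d s + B s ^ N * S d s) := by
      have e9 : (N : k) + 1 = -(N : k) := by linear_combination h2N
      rw [e9]
      linear_combination (-((N : k) * B s ^ (N - 1) *
          eval (a s) (derivative (fe a s)) * d s + B s ^ N * S d s)) * hGN
    have e10 : (((taylor (a s)) G).coeff N * ((N : k) * B s ^ (N - 1) * eval (a s) (derivative (fe a s)) * d s +
        B s ^ N * S d s) + ((taylor (a s)) G).coeff (N + 1) * (B s ^ N * d s)) * ((N : k) + 1) =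
        - (B s ^ N * c s) * ((N : k) * B s ^ (N - 1) *
          eval (a s) (derivative (fe a s)) * d s + B s ^ N * S d s) +
        ((N : k) * B s ^ (N - 1) * eval (a s) (derivative (fe a s)) * c s + B s ^ N * S c s) *
          (B s ^ N * d s) := by
      rw [← hGN1, ← e8]; ring
    rw [e10, e6, ← e7]
    ring
  -- Lagrange interpolation at the points `a s ^ p`
  have hfrob : ∀ x y : k, (x - y) ^ p = x ^ p - y ^ p := fun x y => sub_pow_char x y
  have hinj : Function.Injective (fun s => a s ^ p) := by
    intro s t hst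
    have h3 : (a s - a t) ^ p = 0 := by rw [hfrob]; exact sub_eq_zero.2 hst
    exact ha (sub_eq_zero.1 (pow_eq_zero_iff (Fact.out : p.Prime).ne_zero |>.1 h3))
  have hQdeg : Q.degree < (Finset.univ : Finset (Fin n)).card := by
    rw [Finset.card_univ, Fintype.card_fin, degree_lt_iff_coeff_zero]
    intro m hm
    exact hQcoeff m (by omega)
  have key := Lagrange.coeff_eq_sum (s := (Finset.univ : Finset (Fin n))) (v := fun s => a s ^ p)
    (hinj.injOn) hQdeg
  rw [Finset.card_univ, Fintype.card_fin, hQcoeff (n - 1) le_rfl] at key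
  have e6 : ∀ s, Q.eval (a s ^ p) / ∏ t ∈ Finset.univ.erase s, (a s ^ p - a t ^ p) =
      (-(1 / ((N : k) + 1))) * ((c s * S d s - d s * S c s) / B s) := by
    intro s
    have e7 : ∏ t ∈ Finset.univ.erase s, (a s ^ p - a t ^ p) = B s ^ p := by
      rw [hB, ← Finset.prod_pow]
      exact Finset.prod_congr rfl fun t _ => (hfrob _ _).symm
    have e8 := hloc s
    rw [hQeval, e7]
    have e9 : B s ^ p = B s ^ (2 * N) * B s := by
      rw [← pow_succ]
      congr 1
      omega
    have e10 : (taylor (a s) W).coeff (p - 1) = B s ^ (2 * N) * (d s * S c s - c s * S d s) /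
        ((N : k) + 1) := by
      rw [← e8, mul_div_assoc, div_self hNk, mul_one]
    rw [e10, e9]
    have := hB0 s
    field_simp
    ring
  rw [Finset.sum_congr rfl fun s _ => e6 s, ← Finset.mul_sum] at key
  have key2 : ∑ s, (c s * S d s - d s * S c s) / B s = 0 := by
    rcases mul_eq_zero.1 key.symm with h | h
    · exfalso
      rw [neg_eq_zero, div_eq_zero_iff] at h
      rcases h with h | h
      · exact one_ne_zero h
      · exact hNk h
    · exact h
  unfold form
  rw [← key2]
  refine Finset.sum_congr rfl fun s _ => ?_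
  rw [← hB]
  congr 1
  rw [← Finset.add_sum_erase _ _ (Finset.mem_univ s), hS, hS, Finset.mul_sum, Finset.mul_sum,
    ← Finset.sum_sub_distrib, sub_self, zero_div, zero_add]
  refine Finset.sum_congr rfl fun t _ => ?_
  ring

end field

end Pool.Agent.D0H58.OR
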