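import Pool.Agent.D0H58.OR.Null
import Pool.Agent.D0H58.OR.Iso

/-! The criterion of cyclic volume tensors. -/

set_option autoImplicit false

universe u

open Polynomial

namespace Pool.Agent.D0H58.OR

open Pool.Agent.Results.MP_2ca583_ag.HasseWittClassification
open Pool.Agent.Y218.HW

/-- The condition: the generated tensors are not killed by a Lagrangian subspace. -/
def Big {k : Type*} [Field k] {n : ℕ} (a : Fin n → k) : Prop :=
  ∀ μ : Fin ((n - 1) / 2) → Fin n → k, LinearIndependent k μ → (∀ j, ∑ s, μ j s = 0) →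
    (∀ c d : Fin n → k, (∀ j, ∑ s, μ j s * c s = 0) → (∀ j, ∑ s, μ j s * d s = 0) →
      form a c d = 0) → ∃ T, Gen ((n - 1) / 2) a T ∧ pr μ T ≠ 0

lemma form_eq {k : Type*} [Field k] {n : ℕ} (a c d : Fin n → k) :
    form a c d = ∑ s, ∑ t, wt a s t * (c s * d t - c t * d s) := by
  unfold form wt
  refine Finset.sum_congr rfl fun s _ => ?_
  rw [Finset.sum_div]
  refine Finset.sum_congr rfl fun t _ => ?_
  rw [div_div, div_eq_mul_inv, mul_inv, mul_comm]

lemma form_sum_left {k : Type*} [Field k] {n m : ℕ} (a d : Fin n → k) (x : Fin m → k)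
    (γ : Fin m → Fin n → k) (h : ∀ i, form a (γ i) d = 0) :
    form a (fun s => ∑ i, x i * γ i s) d = 0 := by
  simp only [form_eq] at h ⊢
  have h1 : ∀ s t, wt a s t * ((∑ i, x i * γ i s) * d t - (∑ i, x i * γ i t) * d s) =
      ∑ i, x i * (wt a s t * (γ i s * d t - γ i t * d s)) := by
    intro s t
    rw [Finset.sum_mul, Finset.sum_mul, ← Finset.sum_sub_distrib, Finset.mul_sum]
    refine Finset.sum_congr rfl fun i _ => ?_
    ring
  simp only [h1]
  have h2 : ∑ s, ∑ t, ∑ i, x i * (wt a s t * (γ i s * d t - γ i t * d s)) =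
      ∑ i, x i * ∑ s, ∑ t, wt a s t * (γ i s * d t - γ i t * d s) := by
    simp only [Finset.mul_sum]
    rw [Finset.sum_comm]
    conv_lhs =>
      enter [2, t]
      rw [Finset.sum_comm]
    rw [Finset.sum_comm]
    refine Finset.sum_congr rfl fun i _ => ?_
    rw [Finset.sum_comm]
  rw [h2]
  exact Finset.sum_eq_zero fun i _ => by rw [h i, mul_zero]

lemma form_swap {k : Type*} [Field k] {n : ℕ} (a c d : Fin n → k) : form a c d = -form a d c := by
  rw [form_eq, form_eq, ← Finset.sum_neg_distrib]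
  refine Finset.sum_congr rfl fun s _ => ?_
  rw [← Finset.sum_neg_distrib]
  refine Finset.sum_congr rfl fun t _ => ?_
  ring

/-- rows with a nonzero minor are linearly independent -/
lemma indep_of_minor {k : Type*} [Field k] {g n : ℕ} (μ : Fin g → Fin n → k) (s : Fin g → Fin n)
    (h : (Matrix.of fun i j : Fin g => μ i (s j)).det ≠ 0) : LinearIndependent k μ := by
  have h1 := (Matrix.linearIndependent_rows_iff_isUnit
    (A := Matrix.of fun i j : Fin g => μ i (s j))).2 (by
      rw [Matrix.isUnit_iff_isUnit_det]; exact h.isUnit)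
  exact LinearIndependent.of_comp (LinearMap.funLeft k k s) h1

/-- the map given by the functionals -/
def fmap {k : Type*} [Field k] {g n : ℕ} (μ : Fin g → Fin n → k) : (Fin n → k) →ₗ[k] (Fin g → k) where
  toFun c := fun j => ∑ s, μ j s * c s
  map_add' c d := by
    funext j
    simp only [Pi.add_apply, mul_add, Finset.sum_add_distrib]
  map_smul' x c := by
    funext j
    simp only [Pi.smul_apply, smul_eq_mul, RingHom.id_apply, Finset.mul_sum]
    refine Finset.sum_congr rfl fun s _ => ?_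
    ring

lemma finrank_ker {k : Type*} [Field k] {g n : ℕ} (μ : Fin g → Fin n → k)
    (h : LinearIndependent k μ) : Module.finrank k (LinearMap.ker (fmap μ)) = n - g := by
  have h1 : fmap μ = (Matrix.of μ).mulVecLin := by
    ext1 i
    rfl
  have h2 : (Matrix.of μ).rank = g := by
    have := LinearIndependent.rank_matrix (M := Matrix.of μ) h
    rwa [Fintype.card_fin] at this
  have h3 := (fmap μ).finrank_range_add_finrank_ker
  rw [h1] at h3 ⊢
  rw [Matrix.rank] at h2
  rw [h2, Module.finrank_fin_fun] at h3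
  omega

/-- independent vectors in the kernel span it -/
lemma ker_span {k : Type*} [Field k] {g n m : ℕ} (hm : m = n - g) (μ : Fin g → Fin n → k)
    (h : LinearIndependent k μ) (γ : Fin m → Fin n → k) (hγ : LinearIndependent k γ)
    (h0 : ∀ j i, ∑ s, μ j s * γ i s = 0) (c : Fin n → k) (hc : ∀ j, ∑ s, μ j s * c s = 0) :
    ∃ x : Fin m → k, c = fun s => ∑ i, x i * γ i s := by
  have h1 : Submodule.span k (Set.range γ) ≤ LinearMap.ker (fmap μ) := by
    rw [Submodule.span_le]
    rintro _ ⟨i, rfl⟩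
    rw [SetLike.mem_coe, LinearMap.mem_ker]
    funext j
    exact h0 j i
  have h2 : Module.finrank k (Submodule.span k (Set.range γ)) =
      Module.finrank k (LinearMap.ker (fmap μ)) := by
    rw [finrank_ker μ h, finrank_span_eq_card hγ, Fintype.card_fin, hm]
  have h3 := Submodule.eq_of_le_of_finrank_eq h1 h2
  have h4 : c ∈ Submodule.span k (Set.range γ) := by
    rw [h3, LinearMap.mem_ker]
    funext j
    exact hc j
  obtain ⟨x, hx⟩ := (Submodule.mem_span_range_iff_exists_fun k).1 h4
  refine ⟨x, ?_⟩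
  rw [← hx]
  funext s
  rw [Finset.sum_apply]
  rfl

/-- certificates over a finitely generated field -/
lemma cert_of_big {k E : Type*} [Field k] [IsAlgClosed k] [Field E] [Algebra E k] {n : ℕ}
    (a : Fin n → E) (h : Big fun s => algebraMap E k (a s)) (s : Fin ((n - 1) / 2) → Fin n)
    (s' : Fin (n - (n - 1) / 2) → Fin n) :
    ∃ e : ℕ, (detP E s s' : MvPolynomial (Vr ((n - 1) / 2) (n - (n - 1) / 2) n) E) ^ e ∈
      Ideal.span (eqs ((n - 1) / 2) (n - (n - 1) / 2) a) := by
  apply certificate2 (k := k)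
  intro pt hpt
  by_contra hne
  rw [eval_detP] at hne
  obtain ⟨μ, hμ⟩ : ∃ μ : Fin ((n - 1) / 2) → Fin n → k, ∀ j s, μ j s = pt (Sum.inl (j, s)) :=
    ⟨fun j s => pt (Sum.inl (j, s)), fun _ _ => rfl⟩
  obtain ⟨γ, hγ⟩ : ∃ γ : Fin (n - (n - 1) / 2) → Fin n → k, ∀ j s, γ j s = pt (Sum.inr (j, s)) :=
    ⟨fun j s => pt (Sum.inr (j, s)), fun _ _ => rfl⟩
  simp only [← hμ, ← hγ] at hne
  have hμi := indep_of_minor μ s (left_ne_zero_of_mul hne)
  have hγi := indep_of_minor γ s' (right_ne_zero_of_mul hne)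
  have h1 : ∀ j, ∑ s, μ j s = 0 := by
    intro j
    have := hpt _ (Or.inl ⟨j, rfl⟩)
    rw [eval_rowP] at this
    simpa only [hμ] using this
  have h2 : ∀ j i, ∑ s, μ j s * γ i s = 0 := by
    intro j i
    have := hpt _ (Or.inr (Or.inl ⟨j, i, rfl⟩))
    rw [eval_kerP] at this
    simpa only [hμ, hγ] using this
  have h3 : ∀ i i', form (fun s => algebraMap E k (a s)) (γ i) (γ i') = 0 := by
    intro i i'
    have := hpt _ (Or.inr (Or.inr (Or.inl ⟨i, i', rfl⟩)))
    rw [eval_formP] at this
    rw [form_eq, ← this]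
    refine Finset.sum_congr rfl fun s _ => Finset.sum_congr rfl fun t _ => ?_
    rw [hγ, hγ, hγ, hγ]
    congr 1
    unfold wt
    rw [map_mul, map_inv₀, map_inv₀, map_prod]
    simp only [map_sub]
  have h4 : ∀ c d : Fin n → k, (∀ j, ∑ s, μ j s * c s = 0) → (∀ j, ∑ s, μ j s * d s = 0) →
      form (fun s => algebraMap E k (a s)) c d = 0 := by
    intro c d hc hd
    obtain ⟨x, rfl⟩ := ker_span rfl μ hμi γ hγi h2 c hc
    obtain ⟨y, rfl⟩ := ker_span rfl μ hμi γ hγi h2 d hd
    apply form_sum_left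
    intro i
    rw [form_swap, neg_eq_zero]
    apply form_sum_left
    intro i'
    exact h3 i' i
  obtain ⟨T, hT, hne2⟩ := h μ hμi h1 h4
  apply hne2
  refine pr_gen _ a μ (fun T₀ hT₀ => ?_) T hT
  have := hpt _ (Or.inr (Or.inr (Or.inr ⟨T₀, hT₀, rfl⟩)))
  rw [eval_prP] at this
  unfold pr
  simpa only [hμ] using this

lemma lam_map {A B : Type*} [CommRing A] [CommRing B] (φ : A →+* B) (p N : ℕ) {n : ℕ} (a : Fin n → A)
    (j : ℕ) (s : Fin n) : φ (lam p N a j s) = lam p N (fun s => φ (a s)) j s := by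
  unfold lam fe
  rw [← coeff_map, Polynomial.map_mul, Polynomial.map_pow, fam_map, Polynomial.map_prod]
  simp

/-- the vectors in the common kernel of the horizontal functionals give exact forms -/
lemma noTop_of_ker {K : Type*} [Field K] (p g n N : ℕ) (hN : 2 * N + 1 = p) (hN1 : 1 ≤ N)
    (hn1 : 1 ≤ n) (hn2 : n ≤ 2 * g + 2) (a c : Fin n → K)
    (h : ∀ j : Fin g, ∑ s, lam p N a j s * c s = 0) : NoTop p (qq a c * fam a ^ (N - 1)) := by
  intro i
  by_cases hi : i < g
  · have h1 := h ⟨i, hi⟩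
    unfold qq
    rw [Finset.sum_mul, finsetSum_coeff, ← h1]
    refine Finset.sum_congr rfl fun s _ => ?_
    rw [mul_assoc, coeff_C_mul, mul_comm]
    rfl
  · apply coeff_eq_zero_of_natDegree_lt
    have hqd : (qq a c).natDegree ≤ n - 1 := by
      unfold qq
      refine natDegree_sum_le_of_forall_le _ _ fun s _ => ?_
      refine (natDegree_C_mul_le _ _).trans ?_
      unfold fe
      refine (natDegree_prod_le _ _).trans ?_
      refine (Finset.sum_le_card_nsmul _ _ 1 fun t _ => natDegree_X_sub_C_le _).trans ?_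
      rw [Finset.card_erase_of_mem (Finset.mem_univ s)]
      simp
    have h3 := natDegree_pow_le_of_le (N - 1) (natDegree_fam a).le
    have h4 := natDegree_mul_le (p := qq a c) (q := fam a ^ (N - 1))
    have h5 : g * p ≤ i * p := Nat.mul_le_mul_right p (by omega)
    obtain ⟨M, rfl⟩ : ∃ M, N = M + 1 := ⟨N - 1, by omega⟩
    rw [Nat.add_sub_cancel] at h3 h4 ⊢
    have h6 : M * n ≤ M * (2 * g + 2) := Nat.mul_le_mul_left M hn2
    have h7 : g * p = M * (2 * g) + 3 * g := by rw [← hN]; ring
    have h8 : M * (2 * g + 2) = M * (2 * g) + 2 * M := by ring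
    omega

/-- the criterion at a differential prime ideal -/
lemma big_good {k E : Type u} [Field k] [IsAlgClosed k] [Field E] [Algebra E k] {n : ℕ}
    (hn : 3 ≤ n) (a : Fin n → E) (ha : Function.Injective a)
    (h : Big fun s => algebraMap E k (a s)) :
    ∃ (C : Finset E) (Δ : Finset (Derivation ℤ E E)), ∀ (R S : Type u) [CommRing R] [CommRing S]
      [IsDomain S] (p N : ℕ) [Fact p.Prime] [CharP S p], 2 * N + 1 = p → n ≤ N →
      ∀ Y : Spec a ((n - 1) / 2) R S, (∀ j s, Y.l j s = lam p N (fun s => Y.π (Y.aR s)) j s) →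
        (Function.Injective fun s => Y.π (Y.aR s)) → Y.Ok C Δ → False := by
  classical
  have hcert := fun (s : Fin ((n - 1) / 2) → Fin n) (s' : Fin (n - (n - 1) / 2) → Fin n) =>
    cert_of_big a h s s'
  choose e he using hcert
  have htr := fun (s : Fin ((n - 1) / 2) → Fin n) (s' : Fin (n - (n - 1) / 2) → Fin n) =>
    transfer _ _ _ a _ (he s s')
  choose C Δ hCΔ using htr
  refine ⟨(Finset.univ.biUnion fun s => Finset.univ.biUnion fun s' => C s s') ∪
    Finset.univ.biUnion fun s => Finset.univ.image fun t => wt a s t,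
    Finset.univ.biUnion fun s => Finset.univ.biUnion fun s' => Δ s s', ?_⟩
  intro R S _ _ _ p N _ _ hN hnN Y hl hinj hY
  have hN1 : 1 ≤ N := by omega
  have hw : ∀ s t, ∃ x, Y.iR x = wt a s t := fun s t => hY.1 _ (Finset.mem_union_right _
    (Finset.mem_biUnion.2 ⟨s, Finset.mem_univ s, Finset.mem_image_of_mem _ (Finset.mem_univ t)⟩))
  choose wR hwR using hw
  let K := FractionRing S
  let φ : S →+* K := algebraMap S K
  have hφ : Function.Injective φ := IsFractionRing.injective S K
  have hK : CharP K p := charP_of_injective_ringHom hφ p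
  obtain ⟨b, hb⟩ : ∃ b : Fin n → K, ∀ s, b s = φ (Y.π (Y.aR s)) := ⟨_, fun _ => rfl⟩
  have hbinj : Function.Injective b := by
    intro s t hst
    rw [hb, hb] at hst
    exact hinj (hφ hst)
  have hlb : ∀ j s, φ (Y.l j s) = lam p N b j s := by
    intro j s
    rw [hl, lam_map]
    congr 1
    funext s
    exact (hb s).symm
  obtain ⟨μ, hμ⟩ : ∃ μ : Fin ((n - 1) / 2) → Fin n → K, ∀ j s, μ j s = φ (Y.l j s) :=
    ⟨fun j s => φ (Y.l j s), fun _ _ => rfl⟩
  -- the functionals are independent
  have hmin : ∃ s : Fin ((n - 1) / 2) → Fin n, (Matrix.of fun i j => μ i (s j)).det ≠ 0 := by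
    by_contra hcon
    push Not at hcon
    obtain ⟨v, hv0, hv⟩ := exists_dep μ hcon
    apply hv0
    refine lam_indep p hN (by omega) (by omega) b hbinj v fun s => ?_
    rw [← hv s]
    refine Finset.sum_congr rfl fun j _ => ?_
    rw [hμ, hlb]
  obtain ⟨s, hs⟩ := hmin
  have hμi := indep_of_minor μ s hs
  -- the kernel
  let bas := Module.finBasisOfFinrankEq K (LinearMap.ker (fmap μ)) (finrank_ker μ hμi)
  obtain ⟨γ, hγ⟩ : ∃ γ : Fin (n - (n - 1) / 2) → Fin n → K, ∀ i, γ i = (bas i).1 :=
    ⟨fun i => (bas i).1, fun _ => rfl⟩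
  have hγi : LinearIndependent K γ := by
    have h1 := bas.linearIndependent.map' (LinearMap.ker (fmap μ)).subtype (Submodule.ker_subtype _)
    have h2 : γ = (LinearMap.ker (fmap μ)).subtype ∘ bas := by
      funext i
      rw [hγ]; rfl
    rw [h2]
    exact h1
  have hγk : ∀ j i, ∑ s, μ j s * γ i s = 0 := by
    intro j i
    have h1 := (bas i).2
    rw [LinearMap.mem_ker] at h1
    rw [hγ]
    exact congrFun h1 j
  have hmin' : ∃ s' : Fin (n - (n - 1) / 2) → Fin n, (Matrix.of fun i j => γ i (s' j)).det ≠ 0 := by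
    by_contra hcon
    push Not at hcon
    obtain ⟨v, hv0, hv⟩ := exists_dep γ hcon
    apply hv0
    rw [Fintype.linearIndependent_iff] at hγi
    funext i
    refine hγi v ?_ i
    funext s
    rw [Finset.sum_apply]
    exact hv s
  obtain ⟨s', hs'⟩ := hmin'
  have hnoTop : ∀ i, NoTop p (qq b (γ i) * fam b ^ (N - 1)) := by
    intro i
    refine noTop_of_ker p ((n - 1) / 2) n N hN hN1 (by omega) (by omega) b (γ i) fun j => ?_
    rw [← hγk j i]
    refine Finset.sum_congr rfl fun s _ => ?_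
    rw [hμ, hlb]
  obtain ⟨pt, hpt1, hpt2⟩ : ∃ pt : Vr ((n - 1) / 2) (n - (n - 1) / 2) n → K,
      (∀ j s, pt (Sum.inl (j, s)) = μ j s) ∧ ∀ i s, pt (Sum.inr (i, s)) = γ i s :=
    ⟨Sum.elim (fun x => μ x.1 x.2) (fun x => γ x.1 x.2), fun _ _ => rfl, fun _ _ => rfl⟩
  have hp1 : ∀ j s, pt (Sum.inl (j, s)) = φ (Y.l j s) := by
    intro j s
    rw [hpt1, hμ]
  have hp2 : ∀ j, ∑ s, pt (Sum.inl (j, s)) = 0 := by
    intro j
    simp only [hpt1, hμ, hlb]
    exact sum_lam p b N hN hN1 j
  have hp3 : ∀ j i, ∑ s, pt (Sum.inl (j, s)) * pt (Sum.inr (i, s)) = 0 := by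
    intro j i
    simp only [hpt1, hpt2]
    exact hγk j i
  have hp4 : ∀ i i', ∑ s, ∑ t, φ (Y.π (wR s t)) * (pt (Sum.inr (i, s)) * pt (Sum.inr (i', t)) -
      pt (Sum.inr (i, t)) * pt (Sum.inr (i', s))) = 0 := by
    intro i i'
    simp only [hpt2]
    have h1 := iso p n (by omega) b hbinj (γ i) (γ i') N hN hN1 (hnoTop i) (hnoTop i')
    rw [form_eq] at h1
    rw [← h1]
    refine Finset.sum_congr rfl fun s _ => Finset.sum_congr rfl fun t _ => ?_
    congr 1
    -- the coefficients
    rcases eq_or_ne s t with rfl | hst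
    · have h2 : wR s s = 0 := by
        apply Y.hiR
        rw [hwR, map_zero]
        simp [wt]
      rw [h2, map_zero, map_zero]
      simp [wt]
    · have h2 : wR s t * ((Y.aR s - Y.aR t) * ∏ u ∈ Finset.univ.erase s, (Y.aR s - Y.aR u)) = 1 := by
        apply Y.hiR
        rw [map_mul, map_mul, hwR, map_prod, map_one]
        simp only [map_sub, Y.haR]
        have h3 : a s - a t ≠ 0 := sub_ne_zero.2 fun h => hst (ha h)
        have h4 : ∏ u ∈ Finset.univ.erase s, (a s - a u) ≠ 0 := by
          rw [Finset.prod_ne_zero_iff]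
          intro u hu
          exact sub_ne_zero.2 fun h => (Finset.mem_erase.1 hu).1 (ha h).symm
        unfold wt
        field_simp
      have h3 := congrArg (fun x => φ (Y.π x)) h2
      simp only [map_mul, map_prod, map_sub, map_one, ← hb] at h3
      unfold wt
      rw [← mul_inv]
      exact eq_inv_of_mul_eq_one_left h3
  obtain ⟨y, hy1, hy2⟩ := hCΔ s s' R S K Y φ pt wR
    (hY.mono ((Finset.subset_biUnion_of_mem (fun s' => C s s') (Finset.mem_univ s')).trans
      ((Finset.subset_biUnion_of_mem (fun s => Finset.univ.biUnion fun s' => C s s')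
        (Finset.mem_univ s)).trans Finset.subset_union_left))
      ((Finset.subset_biUnion_of_mem (fun s' => Δ s s') (Finset.mem_univ s')).trans
      (Finset.subset_biUnion_of_mem (fun s => Finset.univ.biUnion fun s' => Δ s s')
        (Finset.mem_univ s)))) hwR hp1 hp2 hp3 hp4
  -- the contradiction
  have h1 : y = detP R s s' ^ e s s' := by
    apply MvPolynomial.map_injective Y.iR Y.hiR
    rw [hy1, map_pow, map_detP]
  rw [h1] at hy2
  have h2 : MvPolynomial.eval₂ (φ.comp Y.π) pt (detP R s s') = 0 := by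
    rw [MvPolynomial.eval₂_pow] at hy2
    by_contra hne
    exact pow_ne_zero _ hne hy2
  rw [eval_detP] at h2
  simp only [hpt1, hpt2] at h2
  exact mul_ne_zero hs hs' h2

end Pool.Agent.D0H58.OR
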