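import Pool.Agent.D0H58.OR.Norm

/-! For all large primes `p` there is a prime ideal over `p` which is stable under all derivations. -/

set_option autoImplicit false

open Polynomial

namespace Pool.Agent.D0H58.OR

/-- splitting off the coefficients in an ideal -/
lemma split_low {P R : Type*} [CommRing P] [CommRing R] (φ : P →+* R) (q : Ideal P) (I : Ideal R)
    (hqI : ∀ x ∈ q, φ x ∈ I) (z : R) (Q : P[X]) (v : ℕ) (hv : ∀ i < v, Q.coeff i ∈ q) :
    ∃ H : P[X], (∀ i, H.coeff i = Q.coeff (i + v)) ∧ Q.eval₂ φ z - z ^ v * H.eval₂ φ z ∈ I := by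
  induction v with
  | zero => exact ⟨Q, fun i => rfl, by simp⟩
  | succ v ih =>
    obtain ⟨H, h1, h2⟩ := ih fun i hi => hv i (by omega)
    refine ⟨H.divX, fun i => ?_, ?_⟩
    · rw [coeff_divX, h1]
      congr 1
      omega
    · have e1 : H.eval₂ φ z = H.divX.eval₂ φ z * z + φ (H.coeff 0) := by
        conv_lhs => rw [← divX_mul_X_add H]
        rw [eval₂_add, eval₂_mul_X, eval₂_C]
      have e2 : Q.eval₂ φ z - z ^ (v + 1) * H.divX.eval₂ φ z =
          (Q.eval₂ φ z - z ^ v * H.eval₂ φ z) + z ^ v * φ (H.coeff 0) := by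
        rw [e1]; ring
      rw [e2]
      refine I.add_mem h2 (I.mul_mem_left _ (hqI _ ?_))
      rw [h1, zero_add]
      exact hv v (by omega)

/-- a prime ideal whose nilpotency index over `p` is less than `p` is stable under derivations -/
lemma stable_of_index {R : Type*} [CommRing R] (p d : ℕ) (hp : p.Prime) (hdp : d < p) (P : Ideal R)
    (hP : P.IsPrime) (hpP : (p : R) ∈ P)
    (h : ∀ x ∈ P, ∃ v ≤ d, ∃ w ∉ P, w * x ^ v ∈ Ideal.span {(p : R)})
    (D : Derivation ℤ R R) (x : R) (hx : x ∈ P) : D x ∈ P := by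
  classical
  have hex : ∃ v, ∃ w ∉ P, w * x ^ v ∈ Ideal.span {(p : R)} := by
    obtain ⟨v, -, hw⟩ := h x hx
    exact ⟨v, hw⟩
  obtain ⟨v1, hv1, hw1⟩ := h x hx
  have hle : Nat.find hex ≤ d := (Nat.find_min' hex hw1).trans hv1
  obtain ⟨w, hwP, hw⟩ := Nat.find_spec hex
  have hspan : Ideal.span {(p : R)} ≤ P := by
    rw [Ideal.span_le]; simpa using hpP
  rcases Nat.eq_zero_or_pos (Nat.find hex) with h0 | h0
  · exfalso
    rw [h0, pow_zero, mul_one] at hw
    exact hwP (hspan hw)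
  · obtain ⟨m, hm⟩ : ∃ m, Nat.find hex = m + 1 := ⟨Nat.find hex - 1, by omega⟩
    by_contra hDx
    have hlt : m < Nat.find hex := by omega
    rw [hm] at hw
    apply Nat.find_min hex hlt
    refine ⟨w * w * D x, ?_, ?_⟩
    · intro h1
      rcases hP.mem_or_mem h1 with h2 | h2
      · rcases hP.mem_or_mem h2 with h3 | h3
        · exact hwP h3
        · exact hwP h3
      · exact hDx h2
    · -- the derivative
      have h1 : D (w * x ^ (m + 1)) ∈ Ideal.span {(p : R)} := by
        obtain ⟨r, hr⟩ := Ideal.mem_span_singleton'.1 hw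
        rw [← hr, Derivation.leibniz, Derivation.map_natCast, smul_zero, zero_add, smul_eq_mul]
        exact Ideal.mul_mem_right _ _ (Ideal.subset_span rfl)
      rw [Derivation.leibniz, Derivation.leibniz_pow, Nat.add_sub_cancel, smul_eq_mul,
        smul_eq_mul, nsmul_eq_mul, smul_eq_mul] at h1
      have h2 : ((m + 1 : ℕ) : R) * (w * w * D x * x ^ m) ∈ Ideal.span {(p : R)} := by
        have e1 : ((m + 1 : ℕ) : R) * (w * w * D x * x ^ m) =
            w * (w * (((m + 1 : ℕ) : R) * (x ^ m * D x)) + x ^ (m + 1) * D w) -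
              (w * x ^ (m + 1)) * D w := by
          ring
        rw [e1]
        exact Ideal.sub_mem _ (Ideal.mul_mem_left _ _ h1) (Ideal.mul_mem_right _ _ hw)
      have hcop : Nat.Coprime (m + 1) p := by
        rw [Nat.coprime_comm]
        rw [Nat.Prime.coprime_iff_not_dvd hp]
        intro hd
        have := Nat.le_of_dvd (by omega) hd
        omega
      have hbez := (Nat.isCoprime_iff_coprime.2 hcop)
      obtain ⟨α, β, hαβ⟩ := hbez
      have e2 : (w * w * D x * x ^ m) = (α : R) * (((m + 1 : ℕ) : R) * (w * w * D x * x ^ m)) +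
          (w * w * D x * x ^ m) * (β : R) * (p : R) := by
        have e3 : (α : R) * ((m + 1 : ℕ) : R) + (β : R) * (p : R) = 1 := by
          have := congrArg (Int.cast : ℤ → R) hαβ
          push_cast at this ⊢
          exact this
        linear_combination (-(w * w * D x * x ^ m)) * e3
      rw [e2]
      exact Ideal.add_mem _ (Ideal.mul_mem_left _ _ h2)
        (Ideal.mul_mem_left _ _ (Ideal.subset_span rfl))

/-- For a finitely generated domain of characteristic zero and all large primes `p` there is a prime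
ideal over `p` which is stable under all derivations. -/
theorem diff_prime (R : Type*) [CommRing R] [IsDomain R] [CharZero R] [Algebra.FiniteType ℤ R] :
    ∃ M : ℕ, ∀ p : ℕ, M ≤ p → p.Prime → ∃ P : Ideal R, P.IsPrime ∧ (p : R) ∈ P ∧
      ∀ D : Derivation ℤ R R, ∀ x ∈ P, D x ∈ P := by
  classical
  obtain ⟨s, φ, hφ, N, d, hN, hnorm⟩ := norm_int R
  refine ⟨N + d + 1, fun p hp hpp => ?_⟩
  -- the prime ideal of the polynomial ring
  have hpr : Prime (MvPolynomial.C (p : ℤ) : MvPolynomial (Fin s) ℤ) :=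
    (MvPolynomial.prime_C_iff _).2 (Nat.prime_iff_prime_int.1 hpp)
  obtain ⟨q, hqdef⟩ : ∃ q : Ideal (MvPolynomial (Fin s) ℤ), q = Ideal.span {MvPolynomial.C (p : ℤ)} :=
    ⟨_, rfl⟩
  have hq : q.IsPrime := by rw [hqdef]; exact (Ideal.span_singleton_prime hpr.ne_zero).2 hpr
  have hCp : (MvPolynomial.C (p : ℤ) : MvPolynomial (Fin s) ℤ) = (p : MvPolynomial (Fin s) ℤ) := by
    simp
  have hφp : φ (MvPolynomial.C (p : ℤ)) = (p : R) := by rw [hCp, map_natCast]
  have hqI : ∀ x ∈ q, φ x ∈ Ideal.span {(p : R)} := by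
    intro x hx
    rw [hqdef] at hx
    obtain ⟨y, rfl⟩ := Ideal.mem_span_singleton'.1 hx
    rw [map_mul, hφp]
    exact Ideal.mul_mem_left _ _ (Ideal.subset_span rfl)
  have hNq : (N : MvPolynomial (Fin s) ℤ) ∉ q := by
    rw [hqdef, Ideal.mem_span_singleton]
    have e1 : (N : MvPolynomial (Fin s) ℤ) = MvPolynomial.C (N : ℤ) := by simp
    rw [e1, MvPolynomial.C_dvd_iff_dvd_coeff]
    intro h
    have h1 := h 0
    rw [MvPolynomial.coeff_zero_C] at h1
    have h2 : p ∣ N := by exact_mod_cast h1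
    have := Nat.le_of_dvd (Nat.pos_of_ne_zero hN) h2
    omega
  -- disjointness
  have hdisj : Disjoint ((Ideal.span {(p : R)} : Ideal R) : Set R)
      ((q.primeCompl.map φ : Submonoid R) : Set R) := by
    rw [Set.disjoint_left]
    rintro x hx ⟨y, hy, hyx⟩
    apply hy
    obtain ⟨r, hr⟩ := Ideal.mem_span_singleton'.1 hx
    obtain ⟨a, Q, hQ1, hQ2, hQ3⟩ := hnorm r
    -- `p N ^ a r = N ^ a y`
    have h1 := scaleRoots_eval₂_eq_zero φ (s := MvPolynomial.C (p : ℤ)) hQ3
    have h2 : φ (MvPolynomial.C (p : ℤ)) * ((N : R) ^ a * r) =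
        φ ((N : MvPolynomial (Fin s) ℤ) ^ a * y) := by
      change φ y = x at hyx
      rw [hφp, map_mul, map_pow, map_natCast, hyx, ← hr]
      ring
    rw [h2, eval₂_hom] at h1
    have h3 : (Q.scaleRoots (MvPolynomial.C (p : ℤ))).eval ((N : MvPolynomial (Fin s) ℤ) ^ a * y) = 0 :=
      hφ (h1.trans (map_zero φ).symm)
    have h4 := congrArg (Ideal.Quotient.mk q) h3
    rw [map_zero, ← eval₂_hom, ← eval_map] at h4
    have hnt : Nontrivial (MvPolynomial (Fin s) ℤ ⧸ q) := Ideal.Quotient.nontrivial_iff.2 hq.ne_top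
    rw [map_scaleRoots _ _ _ (by rw [hQ1.leadingCoeff, map_one]; exact one_ne_zero)] at h4
    have h5 : Ideal.Quotient.mk q (MvPolynomial.C (p : ℤ)) = 0 := by
      rw [Ideal.Quotient.eq_zero_iff_mem, hqdef]; exact Ideal.subset_span rfl
    rw [h5, scaleRoots_zero, eval_smul, eval_pow, eval_X, (hQ1.map _).leadingCoeff, one_smul,
      ← map_pow, Ideal.Quotient.eq_zero_iff_mem] at h4
    have h6 := hq.mem_of_pow_mem _ h4
    rcases hq.mem_or_mem h6 with h7 | h7
    · exact absurd (hq.mem_of_pow_mem _ h7) hNq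
    · exact h7
  obtain ⟨P, hP, hpP, hdis⟩ := Ideal.exists_le_prime_disjoint _ _ hdisj
  have hnot : ∀ y, y ∉ q → φ y ∉ P := by
    intro y hy h
    exact Set.disjoint_left.1 hdis h ⟨y, hy, rfl⟩
  have hpP' : (p : R) ∈ P := hpP (Ideal.subset_span rfl)
  refine ⟨P, hP, hpP', fun D x hx => ?_⟩
  refine stable_of_index p d hpp (by omega) P hP hpP' (fun x hx => ?_) D x hx
  obtain ⟨a, Q, hQ1, hQ2, hQ3⟩ := hnorm x
  have hex : ∃ i, Q.coeff i ∉ q := by
    refine ⟨Q.natDegree, ?_⟩
    have : Q.coeff Q.natDegree = 1 := hQ1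
    rw [this]
    exact fun h => hq.ne_top ((Ideal.eq_top_iff_one q).2 h)
  have hv : Nat.find hex ≤ d := by
    apply Nat.find_min'
    rw [← hQ2]
    have : Q.coeff Q.natDegree = 1 := hQ1
    rw [this]
    exact fun h => hq.ne_top ((Ideal.eq_top_iff_one q).2 h)
  obtain ⟨v, hvdef⟩ : ∃ v, v = Nat.find hex := ⟨_, rfl⟩
  rw [← hvdef] at hv
  have hvs : Q.coeff v ∉ q := by rw [hvdef]; exact Nat.find_spec hex
  obtain ⟨H, hH1, hH2⟩ := split_low φ q (Ideal.span {(p : R)}) hqI ((N : R) ^ a * x) Q v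
    (fun i hi => by
      rw [hvdef] at hi
      have := Nat.find_min hex hi
      push Not at this
      exact this)
  rw [hQ3, zero_sub] at hH2
  have hw : H.eval₂ φ ((N : R) ^ a * x) ∉ P := by
    intro h
    have e1 : H.eval₂ φ ((N : R) ^ a * x) = H.divX.eval₂ φ ((N : R) ^ a * x) * ((N : R) ^ a * x) +
        φ (H.coeff 0) := by
      conv_lhs => rw [← divX_mul_X_add H]
      rw [eval₂_add, eval₂_mul_X, eval₂_C]
    rw [e1] at h
    have h1 : H.divX.eval₂ φ ((N : R) ^ a * x) * ((N : R) ^ a * x) ∈ P :=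
      P.mul_mem_left _ (P.mul_mem_left _ hx)
    have h2 := (P.add_mem_iff_right h1).1 h
    refine hnot _ ?_ h2
    rw [hH1, zero_add]; exact hvs
  have hNP : (N : R) ∉ P := by
    have := hnot _ hNq
    rwa [map_natCast] at this
  refine ⟨v, hv, H.eval₂ φ ((N : R) ^ a * x) * (N : R) ^ (a * v), ?_, ?_⟩
  · intro h
    rcases hP.mem_or_mem h with h1 | h1
    · exact hw h1
    · exact hNP (hP.mem_of_pow_mem _ h1)
  · have e1 : H.eval₂ φ ((N : R) ^ a * x) * (N : R) ^ (a * v) * x ^ v =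
        -(-(((N : R) ^ a * x) ^ v * H.eval₂ φ ((N : R) ^ a * x))) := by
      rw [mul_pow, ← pow_mul]; ring
    rw [e1]
    exact Ideal.neg_mem_iff _ |>.2 hH2

end Pool.Agent.D0H58.OR
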