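import Mathlib

/-! Finitely generated subrings of a finitely generated field which are stable under given
derivations. -/

set_option autoImplicit false

namespace Pool.Agent.D0H58.OR

/-- Let `E` be a field all of whose elements are quotients of elements of the ring generated by the
finite set `G`. For every finite set `C ⊂ E` and every finite set `Δ` of derivations there is a
finitely generated ring which contains `G` and `C` and is stable under the derivations in `Δ`. -/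
theorem stable_ring {E : Type*} [Field E] (G C : Finset E)
    (hG : ∀ x : E, ∃ y ∈ Algebra.adjoin ℤ (G : Set E), ∃ z ∈ Algebra.adjoin ℤ (G : Set E),
      z ≠ 0 ∧ x = y / z) (Δ : Finset (Derivation ℤ E E)) :
    ∃ R : Subalgebra ℤ E, R.FG ∧ (∀ x ∈ G, x ∈ R) ∧ (∀ x ∈ C, x ∈ R) ∧
      ∀ D ∈ Δ, ∀ x ∈ R, D x ∈ R := by
  classical
  obtain ⟨R0, hR0⟩ : ∃ R0 : Subalgebra ℤ E, R0 = Algebra.adjoin ℤ (G : Set E) := ⟨_, rfl⟩
  rw [← hR0] at hG
  choose y hy z hz hz0 hyz using hG
  obtain ⟨Y, hY⟩ : ∃ Y : Finset E, Y = C ∪ Δ.biUnion fun D => G.image fun x => D x := ⟨_, rfl⟩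
  obtain ⟨b, hb⟩ : ∃ b : E, b = ∏ x ∈ Y, z x := ⟨_, rfl⟩
  have hb0 : b ≠ 0 := by rw [hb, Finset.prod_ne_zero_iff]; exact fun x _ => hz0 x
  have hbR0 : b ∈ R0 := by rw [hb]; exact Subalgebra.prod_mem _ fun x _ => hz x
  obtain ⟨R, hR⟩ : ∃ R : Subalgebra ℤ E, R = Algebra.adjoin ℤ (insert b⁻¹ (G : Set E)) := ⟨_, rfl⟩
  have hle : R0 ≤ R := by
    rw [hR0, hR]; exact Algebra.adjoin_mono (Set.subset_insert _ _)
  have hbinv : b⁻¹ ∈ R := by rw [hR]; exact Algebra.subset_adjoin (Set.mem_insert _ _)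
  have hGR : ∀ x ∈ G, x ∈ R := fun x hx => by
    rw [hR]; exact Algebra.subset_adjoin (Set.mem_insert_of_mem _ hx)
  have hYR : ∀ x ∈ Y, x ∈ R := by
    intro x hx
    have e1 : x = y x * (∏ t ∈ Y.erase x, z t) * b⁻¹ := by
      have e2 : b = z x * ∏ t ∈ Y.erase x, z t := by rw [hb, Finset.mul_prod_erase _ _ hx]
      have e3 : ∏ t ∈ Y.erase x, z t ≠ 0 := Finset.prod_ne_zero_iff.2 fun t _ => hz0 t
      have e4 := hz0 x
      conv_lhs => rw [hyz x]
      rw [e2]
      field_simp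
    rw [e1]
    exact R.mul_mem (R.mul_mem (hle (hy x)) (hle (Subalgebra.prod_mem _ fun t _ => hz t))) hbinv
  have hDG : ∀ D ∈ Δ, ∀ x ∈ G, D x ∈ R := by
    intro D hD x hx
    apply hYR
    rw [hY, Finset.mem_union, Finset.mem_biUnion]
    exact Or.inr ⟨D, hD, Finset.mem_image_of_mem _ hx⟩
  have hDR0 : ∀ D ∈ Δ, ∀ x ∈ R0, D x ∈ R := by
    intro D hD x hx
    rw [hR0] at hx
    have : x ∈ R0 ∧ D x ∈ R := by
      induction hx using Algebra.adjoin_induction with
      | mem x hx => exact ⟨by rw [hR0]; exact Algebra.subset_adjoin hx, hDG D hD x hx⟩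
      | algebraMap n =>
        refine ⟨R0.algebraMap_mem _, ?_⟩
        rw [Derivation.map_algebraMap]; exact R.zero_mem
      | add x y _ _ hx hy =>
        refine ⟨R0.add_mem hx.1 hy.1, ?_⟩
        rw [map_add]; exact R.add_mem hx.2 hy.2
      | mul x y _ _ hx hy =>
        refine ⟨R0.mul_mem hx.1 hy.1, ?_⟩
        rw [Derivation.leibniz, smul_eq_mul, smul_eq_mul]
        exact R.add_mem (R.mul_mem (hle hx.1) hy.2) (R.mul_mem (hle hy.1) hx.2)
    exact this.2
  have hDb : ∀ D ∈ Δ, D b⁻¹ ∈ R := by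
    intro D hD
    have e1 : D (b * b⁻¹) = 0 := by rw [mul_inv_cancel₀ hb0]; exact D.map_one_eq_zero
    rw [Derivation.leibniz, smul_eq_mul, smul_eq_mul] at e1
    have e2 : D b⁻¹ = -(b⁻¹ * b⁻¹ * D b) := by
      apply mul_left_cancel₀ hb0
      have e3 : b * D b⁻¹ = -(b⁻¹ * D b) := eq_neg_of_add_eq_zero_left e1
      rw [e3]
      field_simp
    rw [e2]
    exact R.neg_mem (R.mul_mem (R.mul_mem hbinv hbinv) (hDR0 D hD b hbR0))
  refine ⟨R, ?_, hGR, fun x hx => hYR x (by rw [hY]; exact Finset.mem_union_left _ hx), ?_⟩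
  · rw [hR]
    exact Subalgebra.fg_def.2 ⟨_, (G.finite_toSet.insert _), rfl⟩
  · intro D hD x hx
    have : D x ∈ R ∧ x ∈ R := by
      rw [hR] at hx
      induction hx using Algebra.adjoin_induction with
      | mem x hx =>
        rcases hx with rfl | hx
        · exact ⟨hDb D hD, hbinv⟩
        · exact ⟨hDG D hD x hx, hGR x hx⟩
      | algebraMap n =>
        refine ⟨?_, R.algebraMap_mem _⟩
        rw [Derivation.map_algebraMap]; exact R.zero_mem
      | add x y _ _ hx hy =>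
        refine ⟨?_, R.add_mem hx.2 hy.2⟩
        rw [map_add]; exact R.add_mem hx.1 hy.1
      | mul x y _ _ hx hy =>
        refine ⟨?_, R.mul_mem hx.2 hy.2⟩
        rw [Derivation.leibniz, smul_eq_mul, smul_eq_mul]
        exact R.add_mem (R.mul_mem hx.2 hy.1) (R.mul_mem hy.2 hx.1)
    exact this.1

/-- the subfield generated by a finite set -/
theorem frac_closure {k : Type*} [Field k] (T : Finset k) :
    ∃ G : Finset (Subfield.closure (T : Set k)), (∀ x ∈ T, ∃ y ∈ G, (y : k) = x) ∧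
      ∀ x : Subfield.closure (T : Set k), ∃ y ∈ Algebra.adjoin ℤ (G : Set (Subfield.closure (T : Set k))),
        ∃ z ∈ Algebra.adjoin ℤ (G : Set (Subfield.closure (T : Set k))), z ≠ 0 ∧ x = y / z := by
  classical
  set E := Subfield.closure (T : Set k) with hE
  have hTE : ∀ x ∈ T, x ∈ E := fun x hx => Subfield.subset_closure hx
  obtain ⟨G, hG⟩ : ∃ G : Finset E, G = T.attach.image fun x => (⟨x.1, hTE x.1 x.2⟩ : E) := ⟨_, rfl⟩
  have himg : (E.subtype : E → k) '' (G : Set E) = (T : Set k) := by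
    ext x
    simp only [Set.mem_image, Finset.mem_coe, hG, Finset.mem_image, Finset.mem_attach, true_and]
    constructor
    · rintro ⟨_, ⟨y, rfl⟩, rfl⟩
      exact y.2
    · intro hx
      exact ⟨_, ⟨⟨x, hx⟩, rfl⟩, rfl⟩
  have hadj : ∀ x : E, x ∈ Subring.closure (G : Set E) → x ∈ Algebra.adjoin ℤ (G : Set E) := by
    intro x hx
    have : Subring.closure (G : Set E) ≤ (Algebra.adjoin ℤ (G : Set E)).toSubring :=
      Subring.closure_le.2 Algebra.subset_adjoin
    exact this hx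
  have hlift : ∀ x ∈ Subring.closure (T : Set k), ∃ y ∈ Algebra.adjoin ℤ (G : Set E), (y : k) = x := by
    intro x hx
    rw [← himg, ← RingHom.map_closure] at hx
    obtain ⟨y, hy, hyx⟩ := hx
    exact ⟨y, hadj y hy, hyx⟩
  refine ⟨G, fun x hx => ⟨⟨x, hTE x hx⟩, ?_, rfl⟩, fun x => ?_⟩
  · rw [hG, Finset.mem_image]
    exact ⟨⟨x, hx⟩, Finset.mem_attach _ _, rfl⟩
  · obtain ⟨y, hy, z, hz, hyz⟩ := Subfield.mem_closure_iff.1 x.2
    obtain ⟨y', hy', rfl⟩ := hlift y hy
    obtain ⟨z', hz', rfl⟩ := hlift z hz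
    by_cases hz0 : z' = 0
    · refine ⟨0, Subalgebra.zero_mem _, 1, Subalgebra.one_mem _, one_ne_zero, ?_⟩
      rw [zero_div]
      apply Subtype.ext
      rw [← hyz, hz0]
      simp
    · refine ⟨y', hy', z', hz', hz0, ?_⟩
      apply Subtype.ext
      rw [← hyz]
      rfl

end Pool.Agent.D0H58.OR
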