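import Pool.Agent.D0H58.OR.Dom
import Pool.Agent.D0H58.OR.DPrime
import Pool.Agent.D0H58.OR.Cert
import Pool.Agent.D0H58.OR.Stab
import Pool.Agent.Y218.Adc

/-! The Hasse-Witt determinants at a differential prime ideal. -/

set_option autoImplicit false

open Polynomial

namespace Pool.Agent.D0H58.OR

open Pool.Agent.Results.MP_2ca583_ag.HasseWittClassification
open Pool.Agent.Y218.HW

/-- the kernel of the Hasse-Witt matrix -/
lemma exists_ker {R : Type*} [CommRing R] [IsDomain R] (p : ℕ) (hp : 2 < p) (g n N : ℕ)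
    (hn : n ≤ 2 * g + 2) (hN : 2 * N + 1 = p) (a : Fin n → R)
    (h : (hasseWitt p g (fam a)).det = 0) : ∃ U : R[X], U ≠ 0 ∧ Ker p g N a U := by
  classical
  obtain ⟨v, hv, hMv⟩ := Matrix.exists_mulVec_eq_zero_iff.2 h
  have hN' : (p - 1) / 2 = N := by omega
  obtain ⟨U, hU⟩ : ∃ U : R[X], U = ∑ j : Fin g, C (v j) * X ^ (j : ℕ) := ⟨_, rfl⟩
  have hcoeff : ∀ j : Fin g, U.coeff j = v j := by
    intro j
    rw [hU, finsetSum_coeff, Finset.sum_eq_single j]
    · simp
    · intro b _ hb
      rw [coeff_C_mul_X_pow, if_neg]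
      exact fun h => hb (Fin.ext h.symm)
    · intro h; exact absurd (Finset.mem_univ j) h
  have hdeg : U.degree < g := by
    rw [hU]
    refine (degree_sum_le _ _).trans_lt ?_
    rcases Nat.eq_zero_or_pos g with rfl | hg
    · exact absurd (Subsingleton.elim _ _) hv
    · rw [Finset.sup_lt_iff (by exact_mod_cast WithBot.bot_lt_coe g)]
      intro j _
      refine (degree_C_mul_X_pow_le _ _).trans_lt ?_
      exact_mod_cast j.2
  refine ⟨U, ?_, hdeg, ?_⟩
  · rintro rfl
    apply hv
    funext j
    rw [← hcoeff j]; simp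
  · intro i
    by_cases hi : i < g
    · have e1 := congrFun hMv ⟨i, hi⟩
      rw [Matrix.mulVec, dotProduct] at e1
      have e2 : (U * fam a ^ N).coeff (i * p + (p - 1)) = (X * (U * fam a ^ N)).coeff (p * (i + 1)) := by
        have : p * (i + 1) = (i * p + (p - 1)) + 1 := by
          have : 1 ≤ p := by omega
          rw [mul_add, mul_one, mul_comm p i]; omega
        rw [this, coeff_X_mul]
      rw [e2]
      have e3 : X * (U * fam a ^ N) = ∑ j : Fin g, C (v j) * (X ^ ((j : ℕ) + 1) * fam a ^ N) := by
        rw [hU, Finset.sum_mul, Finset.mul_sum]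
        refine Finset.sum_congr rfl fun j _ => ?_
        rw [pow_succ]; ring
      rw [e3, finsetSum_coeff]
      refine Eq.trans (Finset.sum_congr rfl fun j _ => ?_) e1
      rw [coeff_C_mul, mul_comm]
      unfold hasseWitt
      rw [hN']
      rfl
    · apply coeff_eq_zero_of_natDegree_lt
      have e1 : U.natDegree ≤ g - 1 := by
        rcases eq_or_ne U 0 with h0 | h0
        · rw [h0]; simp
        · have := (natDegree_lt_iff_degree_lt h0).2 hdeg; omega
      have e2 : (fam a ^ N).natDegree ≤ N * n := by
        refine natDegree_pow_le_of_le N ?_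
        unfold fam
        rw [natDegree_prod_of_monic _ _ (fun l _ => monic_X_sub_C _)]
        simp
      have e3 := natDegree_mul_le (p := U) (q := fam a ^ N)
      have e4 : N * n ≤ N * (2 * g + 2) := Nat.mul_le_mul_left N hn
      have e5 : g * p ≤ i * p := Nat.mul_le_mul_right p (by omega)
      have e6 : g * p = N * (2 * g) + g := by rw [← hN]; ring
      have e7 : N * (2 * g + 2) = N * (2 * g) + 2 * N := by ring
      rcases Nat.eq_zero_or_pos g with rfl | hg
      · have e8 : U = 0 := by
          by_contra h0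
          have := (natDegree_lt_iff_degree_lt h0).2 hdeg
          omega
        rw [e8, zero_mul, natDegree_zero]
        omega
      · omega

/-- a derivation on the quotient -/
lemma push_quot {R S : Type*} [CommRing R] [CommRing S] (π : R →+* S) (hπ : Function.Surjective π)
    (D : Derivation ℤ R R) (h : ∀ x, π x = 0 → π (D x) = 0) :
    ∃ D' : Derivation ℤ S S, ∀ x, D' (π x) = π (D x) := by
  choose f hf using hπ
  have hwd : ∀ x y, π x = π y → π (D x) = π (D y) := by
    intro x y hxy
    have h1 := h (x - y) (by rw [map_sub, hxy, sub_self])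
    rw [map_sub, map_sub] at h1
    exact sub_eq_zero.1 h1
  let F : S →+ S :=
    { toFun := fun y => π (D (f y))
      map_zero' := by
        have := hwd (f 0) 0 (by rw [hf, map_zero])
        rw [this, map_zero, map_zero]
      map_add' := fun x y => by
        have := hwd (f (x + y)) (f x + f y) (by rw [hf, map_add, hf, hf])
        rw [this, map_add, map_add] }
  have hF : ∀ x, F (π x) = π (D x) := fun x => hwd _ _ (hf _)
  refine ⟨Derivation.mk' F.toIntLinearMap ?_, fun x => hF x⟩
  intro x y
  change F (x * y) = x • F y + y • F x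
  rw [← hf x, ← hf y, ← map_mul, hF, hF, hF, Derivation.leibniz, smul_eq_mul, smul_eq_mul,
    map_add, map_mul, map_mul, smul_eq_mul, smul_eq_mul]

lemma charP_of_zero {R : Type*} [CommRing R] [Nontrivial R] (p : ℕ) (hp : p.Prime) (h : (p : R) = 0) :
    CharP R p := by
  obtain ⟨q, hq⟩ := CharP.exists R
  have h1 : q ∣ p := (CharP.cast_eq_zero_iff R q p).1 h
  rcases (Nat.dvd_prime hp).1 h1 with h2 | h2
  · subst h2
    exact absurd (CharP.char_ne_one R 1) (by simp)
  · rwa [← h2]

lemma fam_map {R S : Type*} [CommRing R] [CommRing S] (φ : R →+* S) {n : ℕ} (a : Fin n → R) :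
    (fam a).map φ = fam fun s => φ (a s) := by
  unfold fam
  simp [Polynomial.map_prod]

/-- the Hasse-Witt determinant does not vanish at a differential prime ideal -/
theorem det_ne {R S : Type*} [CommRing R] [CommRing S] [IsDomain S] (p g n N : ℕ) (hp : p.Prime)
    [CharP S p] (hp2 : 2 < p) (hg : 1 ≤ g) (hn1 : 2 * g + 1 ≤ n) (hn2 : n ≤ 2 * g + 2)
    (hN : 2 * N + 1 = p) (hgN : g ≤ N) (a w : Fin n → R)
    (hw : ∀ s, w s * ∏ t ∈ Finset.univ.erase s, (a s - a t) = 1) (D₀ : Derivation ℤ R R)
    (s₀ : Fin n) (π : R →+* S)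
    (hDP : ∀ D : Derivation ℤ R R, ∃ D' : Derivation ℤ S S, ∀ x, D' (π x) = π (D x))
    (h0 : π (D₀ (a s₀)) ≠ 0)
    (hcert : ∀ s, D₀ (a s) ≠ 0 → ∃ e : ℕ, lin g (a s) ^ e ∈ Ideal.span (Set.range
      fun D : Derivation ℤ R R => quad g (fun t => D (a t) * w t) a)) :
    π (hasseWitt p g (fam a)).det ≠ 0 := by
  classical
  intro hdet
  have hfact : Fact p.Prime := ⟨hp⟩
  have hdet' : (hasseWitt p g (fam fun s => π (a s))).det = 0 := by
    rw [← fam_map, ← Pool.Agent.Y218.Adc.det_map p g π (fam a)]
    exact hdet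
  obtain ⟨U, hU0, hU⟩ := exists_ker p hp2 g n N hn2 hN _ hdet'
  have hw' : ∀ s, π (w s) * ∏ t ∈ Finset.univ.erase s, (π (a s) - π (a t)) = 1 := by
    intro s
    have := congrArg π (hw s)
    rw [map_mul, map_prod, map_one] at this
    simpa using this
  have hinj : Function.Injective fun s => π (a s) := by
    intro s t hst
    by_contra hne
    have h1 := hw' s
    rw [Finset.prod_eq_zero (Finset.mem_erase.2 ⟨fun h => hne h.symm, Finset.mem_univ t⟩)
      (sub_eq_zero.2 hst), mul_zero] at h1
    exact zero_ne_one h1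
  obtain ⟨D₀', hD₀'⟩ := hDP D₀
  apply hU0
  refine ker_zero p D₀' hp2 g n N (fun s => π (a s)) hinj hN hgN s₀ ?_ ?_ U hU
  · rw [hD₀']
    exact h0
  · intro V hV s hs
    have hs' : D₀ (a s) ≠ 0 := by
      intro h
      apply hs
      rw [hD₀', h, map_zero]
    obtain ⟨e, he⟩ := hcert s hs'
    -- evaluation at the coefficients of `V`
    let ev : MvPolynomial (Fin g) R →+* S :=
      (MvPolynomial.eval fun l : Fin g => V.coeff l).comp (MvPolynomial.map π)
    have hker : Ideal.span (Set.range fun D : Derivation ℤ R R =>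
        quad g (fun t => D (a t) * w t) a) ≤ RingHom.ker ev := by
      rw [Ideal.span_le]
      rintro _ ⟨D, rfl⟩
      change ev _ = 0
      change MvPolynomial.eval _ (MvPolynomial.map π _) = 0
      rw [map_quad, eval_quad]
      -- isotropy
      obtain ⟨D', hD'⟩ := hDP D
      have hφ : Function.Injective (algebraMap S (FractionRing S)) :=
        IsFractionRing.injective _ _
      have key := isotropic p (FractionRing S) (algebraMap _ _) hφ D' hp2 g n N
        hg (fun s => π (a s)) hinj hn1 hN V hV
      apply hφ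
      rw [map_zero, map_sum, ← key]
      refine Finset.sum_congr rfl fun t _ => ?_
      rw [eval_eq g _ V hV.1, hD', map_mul, map_mul, map_mul, map_pow]
      have h1 := congrArg (algebraMap S (FractionRing S)) (hw' t)
      rw [map_mul, map_prod, map_one] at h1
      simp only [map_sub] at h1
      have h2 : (∏ t' ∈ Finset.univ.erase t, ((algebraMap S (FractionRing S)) (π (a t)) -
          (algebraMap S (FractionRing S)) (π (a t')))) ≠ 0 := right_ne_zero_of_mul_eq_one h1
      rw [eq_div_iff h2]
      linear_combination ((algebraMap S (FractionRing S)) (π (D (a t))) *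
        (algebraMap S (FractionRing S)) (V.eval (π (a t))) ^ 2) * h1
    have h3 : ev (lin g (a s) ^ e) = 0 := hker he
    rw [map_pow] at h3
    have h4 : ev (lin g (a s)) = V.eval (π (a s)) := by
      change MvPolynomial.eval _ (MvPolynomial.map π _) = _
      rw [map_lin, eval_lin, eval_eq g _ V hV.1]
    rw [h4] at h3
    by_contra hne
    exact pow_ne_zero e hne h3

end Pool.Agent.D0H58.OR
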