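import Pool.Agent.D0H58.OR.Pair

/-! Kernels of the Cartier operator on families of hyperelliptic curves over a domain with
derivations. -/

set_option autoImplicit false

open Polynomial

namespace Pool.Agent.D0H58.OR

open Pool.Agent.Results.MP_2ca583_ag.HasseWittClassification
open Pool.Agent.Y218.HW

section

variable {R : Type*} [CommRing R] (D : Derivation ℤ R R)

lemma Dx_add (P Q : R[X]) : Dx D (P + Q) = Dx D P + Dx D Q := by
  ext1 n
  rw [coeff_Dx, coeff_add, coeff_add, coeff_Dx, coeff_Dx, map_add]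

lemma Dx_one : Dx D (1 : R[X]) = 0 := by
  rw [← C_1, Dx_C]; simp

/-- the product with the moving roots -/
noncomputable def fam {n : ℕ} (a : Fin n → R) : R[X] := ∏ s, (X - C (a s))

lemma fam_monic {n : ℕ} (a : Fin n → R) : (fam a).Monic := monic_prod_of_monic _ _ fun _ _ => monic_X_sub_C _

lemma Dx_prod' {n : ℕ} (a : Fin n → R) (T : Finset (Fin n)) :
    Dx D (∏ s ∈ T, (X - C (a s))) = -∑ s ∈ T, C (D (a s)) * ∏ t ∈ T.erase s, (X - C (a t)) := by
  classical
  induction T using Finset.induction_on with
  | empty => simp [Dx_one]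
  | insert b T hb ih =>
    rw [Finset.prod_insert hb, Dx_mul, ih, Dx_sub, Dx_X, Dx_C, Finset.sum_insert hb,
      Finset.erase_insert hb]
    have h1 : ∀ s ∈ T, C (D (a s)) * ∏ t ∈ (insert b T).erase s, (X - C (a t)) =
        (X - C (a b)) * (C (D (a s)) * ∏ t ∈ T.erase s, (X - C (a t))) := by
      intro s hs
      have h2 : (insert b T).erase s = insert b (T.erase s) := by
        rw [Finset.erase_insert_of_ne]
        rintro rfl; exact hb hs
      rw [h2, Finset.prod_insert (fun h => hb (Finset.mem_of_mem_erase h))]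
      ring
    rw [Finset.sum_congr rfl h1, ← Finset.mul_sum]
    ring

lemma Dx_fam {n : ℕ} (a : Fin n → R) :
    Dx D (fam a) = -∑ s, C (D (a s)) * ∏ t ∈ Finset.univ.erase s, (X - C (a t)) :=
  Dx_prod' D a Finset.univ

lemma eval_Dx_fam {n : ℕ} (a : Fin n → R) (s : Fin n) :
    (Dx D (fam a)).eval (a s) = -(D (a s) * ∏ t ∈ Finset.univ.erase s, (a s - a t)) := by
  classical
  rw [Dx_fam, eval_neg, eval_finsetSum, Finset.sum_eq_single s]
  · simp [eval_prod]
  · intro b _ hb
    rw [eval_mul, eval_prod, Finset.prod_eq_zero (Finset.mem_erase.2 ⟨hb.symm, Finset.mem_univ s⟩), mul_zero]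
    simp
  · intro h; exact absurd (Finset.mem_univ s) h

lemma degree_Dx_fam {n : ℕ} (hn : 0 < n) (a : Fin n → R) : (Dx D (fam a)).degree < n := by
  classical
  rw [Dx_fam, degree_neg]
  refine ((degree_sum_le _ _).trans (Finset.sup_le (a := ((n - 1 : ℕ) : WithBot ℕ)) fun s _ => ?_)).trans_lt ?_
  · refine (degree_mul_le _ _).trans ((add_le_of_nonpos_left degree_C_le).trans ?_)
    have h1 : (∏ t ∈ Finset.univ.erase s, (X - C (a t))).degree ≤
        ((∏ t ∈ Finset.univ.erase s, (X - C (a t))).natDegree : WithBot ℕ) := degree_le_natDegree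
    refine h1.trans ?_
    have h2 : (∏ t ∈ Finset.univ.erase s, (X - C (a t))).natDegree ≤ n - 1 := by
      refine (natDegree_prod_le _ _).trans ?_
      refine (Finset.sum_le_card_nsmul _ _ 1 fun t _ => natDegree_X_sub_C_le _).trans ?_
      rw [Finset.card_erase_of_mem (Finset.mem_univ s)]
      simp
    exact_mod_cast h2
  · exact_mod_cast (by omega : n - 1 < n)

lemma Dx_mul_pow' (f U : R[X]) (N : ℕ) (hN : 1 ≤ N) :
    Dx D (U * f ^ N) = f ^ (N - 1) * (f * Dx D U + C (N : R) * (Dx D f * U)) := by
  obtain ⟨M, rfl⟩ : ∃ M, N = M + 1 := ⟨N - 1, by omega⟩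
  rw [Dx_mul, Dx_pow]
  simp only [Nat.add_sub_cancel]
  have h2 : (C ((M + 1 : ℕ) : R) : R[X]) = ((M + 1 : ℕ) : R[X]) := by simp
  rw [pow_succ, h2]
  ring

end

section domain

variable {R : Type*} [CommRing R] [IsDomain R] (p : ℕ) [Fact p.Prime] [CharP R p]

/-- the elements of the kernel of the Cartier operator -/
def Ker (g N : ℕ) {n : ℕ} (a : Fin n → R) (U : R[X]) : Prop :=
  U.degree < g ∧ NoTop p (U * fam a ^ N)

/-- they are isotropic -/
lemma isotropic (K : Type*) [Field K] (φ : R →+* K) (hφ : Function.Injective φ)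
    (D : Derivation ℤ R R) (hp2 : 2 < p) (g n N : ℕ) (hg : 1 ≤ g) (a : Fin n → R)
    (ha : Function.Injective a) (hn : 2 * g + 1 ≤ n) (hN : 2 * N + 1 = p) (U : R[X])
    (hU : Ker p g N a U) :
    ∑ s, φ (D (a s)) * φ (U.eval (a s)) ^ 2 / (∏ t ∈ Finset.univ.erase s, (φ (a s) - φ (a t))) = 0 := by
  classical
  have hN1 : 1 ≤ N := by omega
  have hK : CharP K p := charP_of_injective_ringHom hφ p
  have h1 := noTop_map' p _ φ hU.2
  rw [Polynomial.map_mul, Polynomial.map_pow] at h1
  have h2 := noTop_map' p _ φ (noTop_Dx D p _ hU.2)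
  rw [Dx_mul_pow' D _ _ N hN1] at h2
  have hf : (fam a).map φ = ∏ s, (X - C (φ (a s))) := by
    unfold fam
    simp [Polynomial.map_prod]
  have key := pair (k := K) p hp2 g n hg (fun s => φ (a s)) (fun s t h => ha (hφ h)) hn
    ((fam a).map φ) (U.map φ) (U.map φ) ((Dx D U).map φ) ((Dx D (fam a)).map φ) hf
    (lt_of_le_of_lt degree_map_le hU.1) (lt_of_le_of_lt degree_map_le hU.1)
    (lt_of_le_of_lt degree_map_le (lt_of_le_of_lt (degree_Dx_le D U) hU.1))
    (lt_of_le_of_lt degree_map_le (degree_Dx_fam D (by omega) a)) N hN h1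
    (by
      have e2 : (fam a ^ (N - 1) * (fam a * Dx D U + C (N : R) * (Dx D (fam a) * U))).map φ =
          (fam a).map φ ^ (N - 1) * ((fam a).map φ * (Dx D U).map φ +
            C (N : K) * ((Dx D (fam a)).map φ * U.map φ)) := by
        simp only [Polynomial.map_mul, Polynomial.map_pow, Polynomial.map_add, Polynomial.map_C]
        rw [map_natCast]
      rw [← e2]
      exact h2)
  have hprod : ∀ s, ∏ t ∈ Finset.univ.erase s, (φ (a s) - φ (a t)) ≠ 0 := by
    intro s
    rw [Finset.prod_ne_zero_iff]
    intro t ht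
    exact sub_ne_zero.2 fun h => (Finset.mem_erase.1 ht).1 (ha (hφ h)).symm
  have hev : ∀ (P : R[X]) (s : Fin n), (P.map φ).eval (φ (a s)) = φ (P.eval (a s)) := by
    intro P s
    rw [eval_map, eval₂_hom]
  rw [← neg_eq_zero, ← Finset.sum_neg_distrib]
  rw [← key]
  refine Finset.sum_congr rfl fun s _ => ?_
  have h3 := hprod s
  rw [hev, hev, eval_Dx_fam]
  rw [map_neg, map_mul, map_prod]
  simp only [map_sub]
  field_simp

omit [IsDomain R] in
lemma fam_eq {n : ℕ} (a : Fin n → R) (s : Fin n) :
    fam a = (X - C (a s)) * ∏ t ∈ Finset.univ.erase s, (X - C (a t)) := by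
  classical
  unfold fam
  rw [Finset.mul_prod_erase _ (fun t => X - C (a t)) (Finset.mem_univ s)]

/-- if all elements of the kernel vanish at the points which are moved by `D`, then the kernel is zero -/
lemma ker_zero (D : Derivation ℤ R R) (hp2 : 2 < p) (g n N : ℕ) (a : Fin n → R)
    (ha : Function.Injective a) (hN : 2 * N + 1 = p) (hgN : g ≤ N) (s₀ : Fin n)
    (h0 : D (a s₀) ≠ 0)
    (hvan : ∀ U, Ker p g N a U → ∀ s, D (a s) ≠ 0 → U.eval (a s) = 0) (U : R[X])
    (hU : Ker p g N a U) : U = 0 := by
  classical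
  have hN1 : 1 ≤ N := by omega
  -- the quotients
  have hquot : ∀ U, Ker p g N a U → ∀ s, D (a s) ≠ 0 → (X - C (a s)) * (U /ₘ (X - C (a s))) = U := by
    intro U hU s hs
    have := hvan U hU s hs
    exact mul_divByMonic_eq_iff_isRoot.2 this
  have main : ∀ m, m ≤ g → ∀ U, Ker p g N a U → (X - C (a s₀)) ^ m ∣ U := by
    intro m
    induction m with
    | zero => intro _ U _; simp
    | succ m ih =>
      intro hm U hU
      rcases Nat.eq_zero_or_pos m with rfl | hmpos
      · rw [zero_add, pow_one, dvd_iff_isRoot]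
        exact hvan U hU s₀ h0
      · obtain ⟨W, hW⟩ := ih (by omega) U hU
        obtain ⟨U1, hU1⟩ : ∃ U1 : R[X], U1 = ∑ s with D (a s) ≠ 0,
          C (D (a s)) * (U /ₘ (X - C (a s))) := ⟨_, rfl⟩
        have hfU : Dx D (fam a) * U = -(fam a * U1) := by
          rw [Dx_fam, neg_mul, Finset.sum_mul, hU1, Finset.mul_sum]
          congr 1
          rw [Finset.sum_filter]
          refine Finset.sum_congr rfl fun s _ => ?_
          by_cases hs : D (a s) ≠ 0
          · rw [if_pos hs]
            nth_rewrite 1 [← hquot U hU s hs]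
            nth_rewrite 1 [fam_eq a s]
            ring
          · rw [if_neg hs]
            push Not at hs
            rw [hs, C_0, zero_mul, zero_mul]
        obtain ⟨V, hV⟩ : ∃ V, V = Dx D U - C (N : R) * U1 := ⟨_, rfl⟩
        have hVker : Ker p g N a V := by
          constructor
          · rw [hV]
            refine lt_of_le_of_lt (degree_sub_le _ _) (max_lt ?_ ?_)
            · exact lt_of_le_of_lt (degree_Dx_le D U) hU.1
            · refine lt_of_le_of_lt ((degree_mul_le _ _).trans (add_le_of_nonpos_left degree_C_le)) ?_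
              rw [hU1]
              refine lt_of_le_of_lt ((degree_sum_le _ _).trans (Finset.sup_le (a := U.degree)
                fun s _ => ?_)) hU.1
              refine (degree_mul_le _ _).trans ((add_le_of_nonpos_left degree_C_le).trans ?_)
              exact degree_divByMonic_le _ _
          · have e1 := noTop_Dx D p _ hU.2
            rw [Dx_mul_pow' D _ _ N hN1, hfU] at e1
            have e2 : fam a ^ (N - 1) * (fam a * Dx D U + C (N : R) * -(fam a * U1)) =
                V * fam a ^ N := by
              have e3 : fam a ^ N = fam a ^ (N - 1) * fam a := by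
                rw [← pow_succ]; congr 1; omega
              rw [e3, hV]; ring
            rwa [e2] at e1
        have hdvd := ih (by omega) V hVker
        obtain ⟨m', rfl⟩ : ∃ m', m = m' + 1 := ⟨m - 1, by omega⟩
        obtain ⟨L, hL⟩ : ∃ L : R[X], L = X - C (a s₀) := ⟨_, rfl⟩
        rw [← hL] at hdvd hW ⊢
        have hLmonic : L.Monic := by rw [hL]; exact monic_X_sub_C _
        have hL0 : L ≠ 0 := hLmonic.ne_zero
        have hDL : Dx D L = -C (D (a s₀)) := by rw [hL, Dx_sub, Dx_X, Dx_C, zero_sub]
        -- the quotient at `s₀`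
        have hq0 : U /ₘ (X - C (a s₀)) = L ^ m' * W := by
          have e1 := hquot U hU s₀ h0
          rw [← hL] at e1 ⊢
          apply mul_left_cancel₀ hL0
          rw [e1, hW]; ring
        have hqs : ∀ s, s ≠ s₀ → D (a s) ≠ 0 → L ^ (m' + 1) ∣ U /ₘ (X - C (a s)) := by
          intro s hs hDs
          have e1 := hquot U hU s hDs
          have e2 : L ^ (m' + 1) ∣ (X - C (a s)) * (U /ₘ (X - C (a s))) := by
            rw [e1, hW]; exact dvd_mul_right _ _
          -- `L` is prime
          have hLp : Prime L := by rw [hL]; exact prime_X_sub_C _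
          have e3 : ¬ L ∣ X - C (a s) := by
            rw [hL, dvd_iff_isRoot, IsRoot.def, eval_sub, eval_X, eval_C]
            exact fun h => hs (ha (sub_eq_zero.1 h)).symm
          exact hLp.pow_dvd_of_dvd_mul_left _ e3 e2
        have hU1' : ∃ Y, U1 = C (D (a s₀)) * (L ^ m' * W) + L ^ (m' + 1) * Y := by
          have e1 : s₀ ∈ (Finset.univ.filter fun s => D (a s) ≠ 0) := by
            rw [Finset.mem_filter]; exact ⟨Finset.mem_univ _, h0⟩
          rw [hU1, ← Finset.add_sum_erase _ _ e1, hq0]
          have e2 : L ^ (m' + 1) ∣ ∑ s ∈ (Finset.univ.filter fun s => D (a s) ≠ 0).erase s₀,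
              C (D (a s)) * (U /ₘ (X - C (a s))) := by
            apply Finset.dvd_sum
            intro s hs
            rw [Finset.mem_erase, Finset.mem_filter] at hs
            exact (hqs s hs.1 hs.2.2).mul_left _
          obtain ⟨Y, hY⟩ := e2
          exact ⟨Y, by rw [hY]⟩
        obtain ⟨Y, hY⟩ := hU1'
        have hVeq : V = L ^ m' * (L * (Dx D W - C (N : R) * Y) -
            C (((m' + 1 + N : ℕ) : R) * D (a s₀)) * W) := by
          rw [hV, hY, hW, Dx_mul, Dx_pow, hDL]
          simp only [Nat.add_sub_cancel]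
          have e4 : (C (((m' + 1 + N : ℕ) : R) * D (a s₀)) : R[X]) =
              ((m' + 1 + N : ℕ) : R[X]) * C (D (a s₀)) := by simp
          have e5 : (C (N : R) : R[X]) = (N : R[X]) := by simp
          rw [e4, e5]
          push_cast
          ring
        rw [hVeq, pow_succ, mul_dvd_mul_iff_left (pow_ne_zero _ hL0)] at hdvd
        have hdvd2 : L ∣ C (((m' + 1 + N : ℕ) : R) * D (a s₀)) * W :=
          (dvd_sub_right (dvd_mul_right L _)).1 hdvd
        have hdvd3 : L ∣ W := by
          rw [hL, dvd_iff_isRoot, IsRoot.def, eval_mul, eval_C] at hdvd2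
          rw [hL, dvd_iff_isRoot, IsRoot.def]
          rcases mul_eq_zero.1 hdvd2 with h | h
          · exfalso
            rcases mul_eq_zero.1 h with h' | h'
            · exact (natCast_isUnit (R := R) p _ (by omega) (by omega)).ne_zero h'
            · exact h0 h'
          · exact h
        rw [hW, pow_succ]
        exact mul_dvd_mul_left _ hdvd3
  have h1 := main g le_rfl U hU
  by_contra hne
  have h2 := degree_le_of_dvd h1 hne
  rw [degree_pow, degree_X_sub_C, nsmul_eq_mul, mul_one] at h2
  exact absurd hU.1 (not_lt.2 h2)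

end domain

end Pool.Agent.D0H58.OR
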