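import Pool.Agent.D0H58.OR.Loc

/-! Dense ordinary reduction of hyperelliptic curves. -/

set_option autoImplicit false

universe u

open Polynomial

namespace Pool.Agent.D0H58.OR

open Pool.Agent.Results.MP_2ca583_ag.HasseWittClassification
open Pool.Agent.Y218.HW

/-- Dense ordinary reduction. -/
theorem main2 {k : Type u} {ι : Type*} [Field k] [IsAlgClosed k] [CharZero k] [Fintype ι] (n : ι → ℕ)
    (a : ∀ i, Fin (n i) → k) (ha : ∀ i, Function.Injective (a i))
    (h : ∀ i, 3 ≤ n i → Moves (a i) ∨ Big (a i))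
    (A : Subalgebra ℤ k) (hA : A.FG) (F : ι → A[X])
    (hF : ∀ i, (F i).map (algebraMap A k) = ∏ s, (X - C (a i s))) (c : A) (hc : c ≠ 0) :
    ∃ N : ℕ, ∀ p : ℕ, N ≤ p → p.Prime → ∃ M : Ideal A, M.IsMaximal ∧ (p : A) ∈ M ∧ c ∉ M ∧
      ∀ i, (hasseWitt p ((n i - 1) / 2) ((F i).map (Ideal.Quotient.mk M))).det ≠ 0 := by
  classical
  obtain ⟨TA, hTA⟩ := hA
  obtain ⟨T, hT⟩ : ∃ T : Finset k, T = TA ∪ Finset.univ.biUnion fun i => Finset.univ.image (a i) :=
    ⟨_, rfl⟩
  obtain ⟨G, hG1, hG2⟩ := frac_closure T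
  have haT : ∀ i s, a i s ∈ T := by
    intro i s
    rw [hT, Finset.mem_union, Finset.mem_biUnion]
    exact Or.inr ⟨i, Finset.mem_univ i, Finset.mem_image_of_mem _ (Finset.mem_univ s)⟩
  have haE : ∀ i s, ∃ x ∈ G, ((x : Subfield.closure (T : Set k)) : k) = a i s :=
    fun i s => hG1 _ (haT i s)
  choose aE haEG haE using haE
  have hinjE : ∀ i, Function.Injective (aE i) := by
    intro i s t hst
    apply ha i
    rw [← haE i s, ← haE i t, hst]
  have hcharE : CharZero (Subfield.closure (T : Set k)) :=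
    RingHom.charZero (Subfield.closure (T : Set k)).subtype
  -- the local statements
  have hloc : ∀ i, 3 ≤ n i → Loc (aE i) := by
    intro i h3
    have h4 : (fun s => algebraMap (Subfield.closure (T : Set k)) k (aE i s)) = a i :=
      _root_.funext fun s => haE i s
    rcases h i h3 with h5 | h5
    · exact loc_of_moves h3 (aE i) (hinjE i) (by rw [h4]; exact h5)
    · exact loc_of_big h3 (aE i) (hinjE i) (by rw [h4]; exact h5)
  choose CC ΔΔ hCΔ using hloc
  -- elements of `A`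
  have hAl : ∀ x ∈ A, ∃ y : Subfield.closure (T : Set k), y ∈ Algebra.adjoin ℤ
      (G : Set (Subfield.closure (T : Set k))) ∧ (y : k) = x := by
    intro x hx
    rw [← hTA] at hx
    induction hx using Algebra.adjoin_induction with
    | mem x hx =>
      obtain ⟨y, hy, hyx⟩ := hG1 x (by rw [hT]; exact Finset.mem_union_left _ hx)
      exact ⟨y, Algebra.subset_adjoin hy, hyx⟩
    | algebraMap z =>
      refine ⟨(z : Subfield.closure (T : Set k)), ?_, by simp⟩
      simp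
    | add x y _ _ hx hy =>
      obtain ⟨x', h1, h2⟩ := hx
      obtain ⟨y', h3, h4⟩ := hy
      exact ⟨x' + y', Subalgebra.add_mem _ h1 h3, by push_cast; rw [h2, h4]⟩
    | mul x y _ _ hx hy =>
      obtain ⟨x', h1, h2⟩ := hx
      obtain ⟨y', h3, h4⟩ := hy
      exact ⟨x' * y', Subalgebra.mul_mem _ h1 h3, by push_cast; rw [h2, h4]⟩
  obtain ⟨cE, hcE1, hcE2⟩ := hAl c c.2
  have hcE0 : cE ≠ 0 := by
    rintro rfl
    apply hc
    apply Subtype.ext
    rw [← hcE2]
    simp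
  -- the stable ring
  obtain ⟨Δ, hΔ⟩ : ∃ Δ : Finset (Derivation ℤ (Subfield.closure (T : Set k))
      (Subfield.closure (T : Set k))), Δ = Finset.univ.biUnion fun i =>
      if h3 : 3 ≤ n i then ΔΔ i h3 else ∅ := ⟨_, rfl⟩
  obtain ⟨C0, hC0⟩ : ∃ C0 : Finset (Subfield.closure (T : Set k)), C0 = insert cE⁻¹
      (Finset.univ.biUnion fun i => if h3 : 3 ≤ n i then CC i h3 else ∅) := ⟨_, rfl⟩
  obtain ⟨R, hRfg, hRG, hRC, hRD⟩ := stable_ring G C0 hG2 Δ
  have hcR : cE⁻¹ ∈ R := hRC _ (by rw [hC0]; exact Finset.mem_insert_self _ _)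
  have hCCR : ∀ i (h3 : 3 ≤ n i), ∀ x ∈ CC i h3, x ∈ R := by
    intro i h3 x hx
    apply hRC
    rw [hC0]
    refine Finset.mem_insert_of_mem (Finset.mem_biUnion.2 ⟨i, Finset.mem_univ i, ?_⟩)
    rw [dif_pos h3]
    exact hx
  have hΔΔR : ∀ i (h3 : 3 ≤ n i), ∀ D ∈ ΔΔ i h3, D ∈ Δ := by
    intro i h3 D hD
    rw [hΔ]
    refine Finset.mem_biUnion.2 ⟨i, Finset.mem_univ i, ?_⟩
    rw [dif_pos h3]
    exact hD
  obtain ⟨iR, hiR⟩ : ∃ iR : R →+* Subfield.closure (T : Set k), ∀ x, iR x = x.1 :=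
    ⟨R.val.toRingHom, fun _ => rfl⟩
  have hiRinj : Function.Injective iR := by
    intro x y h
    rw [hiR, hiR] at h
    exact Subtype.ext h
  have hres : ∀ D ∈ Δ, ∃ D' : Derivation ℤ R R, ∀ x, iR (D' x) = D (iR x) := fun D hD =>
    restrictD iR hiRinj D fun x => ⟨⟨D x.1, hRD D hD x.1 x.2⟩, by rw [hiR, hiR]⟩
  obtain ⟨κ, hκ⟩ : ∃ κ : R →+* k, κ = (Subfield.closure (T : Set k)).subtype.comp iR := ⟨_, rfl⟩
  have hκx : ∀ x, κ x = ((x.1 : Subfield.closure (T : Set k)) : k) := by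
    intro x
    rw [hκ, RingHom.comp_apply, hiR]
    rfl
  have hκinj : Function.Injective κ := by
    rw [hκ]
    exact (Subtype.val_injective (p := fun x => x ∈ Subfield.closure (T : Set k))).comp hiRinj
  have hchar : CharZero R := RingHom.charZero κ
  have hft : Algebra.FiniteType ℤ R := (Subalgebra.fg_iff_finiteType _).mp hRfg
  have haR : ∀ i s, aE i s ∈ R := fun i s => hRG _ (haEG i s)
  obtain ⟨aR, haR'⟩ : ∃ aR : ∀ i, Fin (n i) → R, ∀ i s, iR (aR i s) = aE i s :=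
    ⟨fun i s => ⟨aE i s, haR i s⟩, fun i s => hiR _⟩
  -- the map from `A`
  have hRadj : Algebra.adjoin ℤ (G : Set (Subfield.closure (T : Set k))) ≤ R :=
    Algebra.adjoin_le fun x hx => hRG x hx
  obtain ⟨iA, hiA⟩ := exists_hom (algebraMap A k) κ hκinj (fun x => by
    obtain ⟨y, hy1, hy2⟩ := hAl x x.2
    exact ⟨⟨y, hRadj hy1⟩, by rw [hκx]; exact hy2⟩)
  have hfA : Algebra.FiniteType ℤ A := (Subalgebra.fg_iff_finiteType _).mp ⟨TA, hTA⟩
  have hJ : IsJacobsonRing A := by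
    have := Pool.Agent.Y162.HW.jac_int
    exact isJacobsonRing_of_finiteType (A := ℤ)
  have hcc : iA c * ⟨cE⁻¹, hcR⟩ = 1 := by
    apply hκinj
    rw [map_mul, map_one, hiA, hκx]
    change (c : k) * ((cE⁻¹ : Subfield.closure (T : Set k)) : k) = 1
    rw [← hcE2, ← Subfield.coe_mul, mul_inv_cancel₀ hcE0]
    rfl
  have haκ : ∀ i s, κ (aR i s) = a i s := by
    intro i s
    rw [hκ, RingHom.comp_apply, haR']
    exact haE i s
  have hFR : ∀ i, (F i).map iA = fam (aR i) := by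
    intro i
    apply map_injective κ hκinj
    rw [Polynomial.map_map, fam_map]
    have e1 : κ.comp iA = algebraMap A k := RingHom.ext hiA
    rw [e1, hF]
    unfold fam
    simp_rw [haκ]
  -- the primes
  obtain ⟨M1, hM1⟩ := diff_prime R
  refine ⟨M1 + 2 * (∑ i, n i) + 3, fun p hp hpp => ?_⟩
  obtain ⟨P, hP, hpP, hDP⟩ := hM1 p (by omega) hpp
  have hdom : IsDomain (R ⧸ P) := Ideal.Quotient.isDomain P
  have hcharP : CharP (R ⧸ P) p := charP_of_zero p hpp (by
    have := Ideal.Quotient.eq_zero_iff_mem.2 hpP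
    rwa [map_natCast] at this)
  have hfact : Fact p.Prime := ⟨hpp⟩
  have hM0 : (P.comap iA).IsPrime := Ideal.comap_isPrime iA P
  refine closed_point p (fun i => (n i - 1) / 2) F c (P.comap iA) hM0 ?_ ?_ fun i => ?_
  · rw [Ideal.mem_comap, map_natCast]; exact hpP
  · rw [Ideal.mem_comap]
    intro h
    apply hP.ne_top
    rw [Ideal.eq_top_iff_one, ← hcc]
    exact P.mul_mem_right _ h
  · rw [Ideal.mem_comap, Pool.Agent.Y218.Adc.det_map, hFR]
    intro hmem
    rcases Nat.lt_or_ge (n i) 3 with h3 | h3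
    · -- genus zero
      have h4 : (n i - 1) / 2 = 0 := by omega
      have h5 : (hasseWitt p ((n i - 1) / 2) (fam (aR i))).det = 1 := by
        have : IsEmpty (Fin ((n i - 1) / 2)) := by rw [h4]; infer_instance
        exact Matrix.det_isEmpty
      rw [h5] at hmem
      exact hP.ne_top ((Ideal.eq_top_iff_one P).2 hmem)
    · have hni : n i ≤ ∑ i, n i := Finset.single_le_sum (fun _ _ => Nat.zero_le _) (Finset.mem_univ i)
      obtain ⟨N, hN⟩ : ∃ N, 2 * N + 1 = p := by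
        have : Odd p := hpp.odd_of_ne_two (by omega)
        obtain ⟨m, hm⟩ := this
        exact ⟨m, hm.symm⟩
      refine hCΔ i h3 R (R ⧸ P) iR (Ideal.Quotient.mk P) p N (aR i) hiRinj
        (fun x hx => ⟨⟨x, hCCR i h3 x hx⟩, hiR _⟩) (fun D hD => hres D (hΔΔR i h3 D hD))
        (fun D => ?_) hN (by omega) (haR' i) ?_
      · apply push_quot _ Ideal.Quotient.mk_surjective
        intro x hx
        rw [Ideal.Quotient.eq_zero_iff_mem] at hx ⊢
        exact hDP D x hx
      · rw [← fam_map, ← Pool.Agent.Y218.Adc.det_map]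
        exact Ideal.Quotient.eq_zero_iff_mem.2 hmem

end Pool.Agent.D0H58.OR
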