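import Pool.Agent.D0H58.OR.Core

/-! The horizontal functionals on the de Rham cohomology of hyperelliptic curves in characteristic `p`
which vanish on the conjugate filtration. -/

set_option autoImplicit false

open Polynomial

namespace Pool.Agent.D0H58.OR

open Pool.Agent.Results.MP_2ca583_ag.HasseWittClassification
open Pool.Agent.Y218.HW

section ring

variable {R : Type*} [CommRing R]

/-- the product without one factor -/
noncomputable def fe {n : ℕ} (a : Fin n → R) (s : Fin n) : R[X] :=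
  ∏ t ∈ Finset.univ.erase s, (X - C (a t))

lemma fam_fe {n : ℕ} (a : Fin n → R) (s : Fin n) : fam a = (X - C (a s)) * fe a s := fam_eq a s

lemma derivative_fam {n : ℕ} (a : Fin n → R) : derivative (fam a) = ∑ s, fe a s := by
  classical
  unfold fam fe
  rw [derivative_prod_finset]
  refine Finset.sum_congr rfl fun s _ => ?_
  simp

lemma Dx_fam_fe (D : Derivation ℤ R R) {n : ℕ} (a : Fin n → R) :
    Dx D (fam a) = -∑ s, C (D (a s)) * fe a s := Dx_fam D a

/-- the horizontal functionals -/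
noncomputable def lam (p N : ℕ) {n : ℕ} (a : Fin n → R) (j : ℕ) (s : Fin n) : R :=
  (fe a s * fam a ^ (N - 1)).coeff (j * p + (p - 1))

lemma noTop_derivative (p : ℕ) (hp : 1 ≤ p) [CharP R p] (P : R[X]) : NoTop p (derivative P) := by
  intro i
  rw [coeff_derivative]
  have h1 : ((i * p + (p - 1) : ℕ) : R) + 1 = ((i * p + (p - 1) + 1 : ℕ) : R) := by push_cast; ring
  have h2 : i * p + (p - 1) + 1 = (i + 1) * p := by
    rw [add_mul, one_mul]; omega
  rw [h1, h2, Nat.cast_mul, CharP.cast_eq_zero R p, mul_zero, mul_zero]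

lemma noTop_C_mul (p : ℕ) (c : R) (P : R[X]) (h : NoTop p P) : NoTop p (C c * P) := by
  intro i
  rw [coeff_C_mul, h i, mul_zero]

end ring

section domain

variable {R : Type*} [CommRing R] [IsDomain R] (p : ℕ) [Fact p.Prime] [CharP R p]

/-- the sum of the horizontal functionals -/
lemma sum_lam {n : ℕ} (a : Fin n → R) (N : ℕ) (hN : 2 * N + 1 = p) (hN1 : 1 ≤ N) (j : ℕ) :
    ∑ s, lam p N a j s = 0 := by
  have hu := natCast_isUnit (R := R) p N hN1 (by omega)
  have h1 := noTop_derivative p (by omega) (fam a ^ N) j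
  rw [derivative_pow, derivative_fam] at h1
  have h2 : C (N : R) * fam a ^ (N - 1) * ∑ s, fe a s =
      C (N : R) * ∑ s, fe a s * fam a ^ (N - 1) := by
    rw [Finset.mul_sum, Finset.mul_sum]
    refine Finset.sum_congr rfl fun s _ => ?_
    ring
  rw [h2, coeff_C_mul, finsetSum_coeff] at h1
  exact (mul_eq_zero.1 h1).resolve_left hu.ne_zero

/-- the functionals are horizontal -/
lemma lam_deriv (D : Derivation ℤ R R) {n : ℕ} (a : Fin n → R) (N : ℕ) (hN : 2 * N + 1 = p)
    (hN1 : 1 ≤ N) (s : Fin n) (θ : Fin n → R) (hθ : ∀ t, θ t * (a s - a t) = D (a s - a t)) (j : ℕ) :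
    D (lam p N a j s) = (N : R) * ∑ t, θ t * (lam p N a j s - lam p N a j t) := by
  obtain ⟨G, hG⟩ : ∃ G : R[X], G = fe a s * fam a ^ (N - 1) := ⟨_, rfl⟩
  have h0 : (X - C (a s)) * G = fam a ^ N := by
    rw [hG, ← mul_assoc, ← fam_fe, ← pow_succ']
    congr 1; omega
  have h1 : -C (D (a s)) * G + (X - C (a s)) * Dx D G =
      -(C (N : R) * fam a ^ (N - 1) * ∑ t, C (D (a t)) * fe a t) := by
    have := congrArg (Dx D) h0
    rw [Dx_mul, Dx_sub, Dx_X, Dx_C, Dx_pow, Dx_fam_fe, zero_sub] at this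
    rw [this]
    have e2 : (C (N : R) : R[X]) = (N : R[X]) := by simp
    rw [e2]; ring
  have h2 : G + (X - C (a s)) * derivative G = C (N : R) * fam a ^ (N - 1) * ∑ t, fe a t := by
    have := congrArg derivative h0
    rw [derivative_mul, derivative_pow, derivative_fam] at this
    rw [← this]
    simp
  have h3 : Dx D G + C (D (a s)) * derivative G =
      C (N : R) * ∑ t, C (θ t) * (fe a s * fam a ^ (N - 1) - fe a t * fam a ^ (N - 1)) := by
    have hX : (X - C (a s) : R[X]) ≠ 0 := X_sub_C_ne_zero _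
    apply mul_left_cancel₀ hX
    have e1 : (X - C (a s)) * (Dx D G + C (D (a s)) * derivative G) =
        -(C (N : R) * fam a ^ (N - 1) * ∑ t, C (D (a t)) * fe a t) +
          C (D (a s)) * (C (N : R) * fam a ^ (N - 1) * ∑ t, fe a t) := by
      rw [← h1, ← h2]; ring
    rw [e1, Finset.mul_sum, Finset.mul_sum, Finset.mul_sum, Finset.mul_sum, Finset.mul_sum,
      ← Finset.sum_neg_distrib, ← Finset.sum_add_distrib]
    refine Finset.sum_congr rfl fun t _ => ?_
    have e2 : (X - C (a s)) * (C (N : R) * (C (θ t) * (fe a s * fam a ^ (N - 1) -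
        fe a t * fam a ^ (N - 1)))) = C (N : R) * C (θ t) * fam a ^ (N - 1) *
        ((X - C (a s)) * fe a s - (X - C (a s)) * fe a t) := by ring
    rw [e2, ← fam_fe, fam_fe a t]
    have e3 : (C (θ t) : R[X]) * (C (a s) - C (a t)) = C (D (a s)) - C (D (a t)) := by
      rw [← C_sub, ← C_mul, hθ, map_sub, C_sub]
    linear_combination (-(C (N : R)) * (((X - C (a t)) * fe a t) ^ (N - 1)) * fe a t) * e3
  have h4 := congrArg (fun P => P.coeff (j * p + (p - 1))) h3
  simp only [coeff_add, coeff_C_mul, finsetSum_coeff, coeff_sub] at h4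
  rw [noTop_derivative p (by omega) G j, mul_zero, add_zero, coeff_Dx] at h4
  rw [hG] at h4
  exact h4

end domain

section hw

variable {R : Type*} [CommRing R]

lemma hw_coeff (p g N : ℕ) (hp : 1 ≤ p) (hN : (p - 1) / 2 = N) {n : ℕ} (a : Fin n → R) (U : R[X])
    (hU : U.degree < g) (i : Fin g) :
    (U * fam a ^ N).coeff ((i : ℕ) * p + (p - 1)) =
      ∑ l : Fin g, U.coeff l * hasseWitt p g (fam a) i l := by
  classical
  have e2 : (U * fam a ^ N).coeff (i * p + (p - 1)) = (X * (U * fam a ^ N)).coeff (p * (i + 1)) := by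
    have : p * (i + 1) = (i * p + (p - 1)) + 1 := by
      rw [mul_add, mul_one, mul_comm p i]; omega
    rw [this, coeff_X_mul]
  have hU2 : U = ∑ j : Fin g, C (U.coeff j) * X ^ (j : ℕ) := by
    rcases eq_or_ne U 0 with rfl | h0
    · simp
    · have h1 := (natDegree_lt_iff_degree_lt h0).2 hU
      conv_lhs => rw [U.as_sum_range' g h1]
      rw [Finset.sum_range]
      refine Finset.sum_congr rfl fun j _ => ?_
      rw [C_mul_X_pow_eq_monomial]
  rw [e2]
  have e3 : X * (U * fam a ^ N) = ∑ j : Fin g, C (U.coeff j) * (X ^ ((j : ℕ) + 1) * fam a ^ N) := by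
    conv_lhs => rw [hU2]
    rw [Finset.sum_mul, Finset.mul_sum]
    refine Finset.sum_congr rfl fun j _ => ?_
    rw [pow_succ]; ring
  rw [e3, finsetSum_coeff]
  refine Finset.sum_congr rfl fun j _ => ?_
  rw [coeff_C_mul]
  unfold hasseWitt
  rw [hN]
  rfl

/-- the holomorphic form which is cohomologous to the form given by `x ^ m` -/
noncomputable def um (N : ℕ) {n : ℕ} (a : Fin n → R) (m : ℕ) : R[X] :=
  C (m : R) * X ^ (m - 1) + C (N : R) * ∑ s, ∑ l ∈ Finset.range m, X ^ l * C (a s) ^ (m - 1 - l)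

lemma degree_um (N : ℕ) {n : ℕ} (a : Fin n → R) (m g : ℕ) (hm : m ≤ g) (hg : 1 ≤ g) :
    (um N a m).degree < g := by
  unfold um
  refine (degree_add_le _ _).trans_lt (max_lt ?_ ?_)
  · refine (degree_C_mul_X_pow_le _ _).trans_lt ?_
    exact_mod_cast (by omega : m - 1 < g)
  · refine (degree_mul_le _ _).trans_lt ((add_le_of_nonpos_left degree_C_le).trans_lt ?_)
    refine (degree_sum_le _ _).trans_lt ?_
    rw [Finset.sup_lt_iff (WithBot.bot_lt_coe _)]
    intro s _
    refine (degree_sum_le _ _).trans_lt ?_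
    rw [Finset.sup_lt_iff (WithBot.bot_lt_coe _)]
    intro l hl
    rw [Finset.mem_range] at hl
    rw [← C_pow, mul_comm]
    refine (degree_C_mul_X_pow_le _ _).trans_lt ?_
    exact_mod_cast (by omega : l < g)

lemma um_eq (N : ℕ) (hN1 : 1 ≤ N) {n : ℕ} (a : Fin n → R) (m : ℕ) :
    derivative (X ^ m * fam a ^ N) = um N a m * fam a ^ N +
      C (N : R) * ∑ s, C (a s ^ m) * (fe a s * fam a ^ (N - 1)) := by
  have h1 : ∀ s, X ^ m * (fe a s * fam a ^ (N - 1)) = (∑ l ∈ Finset.range m, X ^ l * C (a s) ^ (m - 1 - l)) *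
      fam a ^ N + C (a s ^ m) * (fe a s * fam a ^ (N - 1)) := by
    intro s
    have h2 := geom_sum₂_mul (X : R[X]) (C (a s)) m
    have h3 : fam a ^ N = fam a * fam a ^ (N - 1) := by
      rw [← pow_succ']; congr 1; omega
    rw [h3]
    have h4 : (∑ l ∈ Finset.range m, X ^ l * C (a s) ^ (m - 1 - l)) * (fam a * fam a ^ (N - 1)) =
        ((∑ l ∈ Finset.range m, X ^ l * C (a s) ^ (m - 1 - l)) * (X - C (a s))) *
          (fe a s * fam a ^ (N - 1)) := by
      nth_rewrite 1 [fam_fe a s]
      ring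
    rw [h4, h2, C_pow]
    ring
  rw [derivative_mul, derivative_X_pow, derivative_pow, derivative_fam]
  have h5 : X ^ m * (C (N : R) * fam a ^ (N - 1) * ∑ s, fe a s) =
      C (N : R) * ∑ s, X ^ m * (fe a s * fam a ^ (N - 1)) := by
    rw [Finset.mul_sum, Finset.mul_sum, Finset.mul_sum]
    refine Finset.sum_congr rfl fun s _ => ?_
    ring
  rw [h5, Finset.sum_congr rfl fun s _ => h1 s, Finset.sum_add_distrib, ← Finset.sum_mul]
  unfold um
  ring

/-- the determinant of the horizontal functionals on the holomorphic forms vanishes with the Hasse-Witt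
determinant -/
lemma det_lam [IsDomain R] (p g N : ℕ) [Fact p.Prime] [CharP R p] (hN : 2 * N + 1 = p) (hN1 : 1 ≤ N)
    {n : ℕ} (a : Fin n → R) (h : (hasseWitt p g (fam a)).det = 0) (hg : 1 ≤ g) :
    (Matrix.of fun i j : Fin g => ∑ s, a s ^ ((j : ℕ) + 1) * lam p N a i s).det = 0 := by
  classical
  have hu := natCast_isUnit (R := R) p N hN1 (by omega)
  have key : ∀ i j : Fin g, (N : R) * ∑ s, a s ^ ((j : ℕ) + 1) * lam p N a i s =
      -∑ l : Fin g, hasseWitt p g (fam a) i l * (um N a ((j : ℕ) + 1)).coeff l := by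
    intro i j
    have h1 := noTop_derivative p (by omega) (X ^ ((j : ℕ) + 1) * fam a ^ N) i
    rw [um_eq N hN1, coeff_add, hw_coeff p g N (by omega) (by omega) a _
      (degree_um N a _ g (by omega) hg), coeff_C_mul, finsetSum_coeff] at h1
    simp only [coeff_C_mul] at h1
    rw [eq_neg_iff_add_eq_zero, ← h1, add_comm]
    congr 1
    refine Finset.sum_congr rfl fun l _ => ?_
    ring
  have hmat : (N : R) • (Matrix.of fun i j : Fin g => ∑ s, a s ^ ((j : ℕ) + 1) * lam p N a i s) =
      -(hasseWitt p g (fam a) * Matrix.of fun l j : Fin g => (um N a ((j : ℕ) + 1)).coeff l) := by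
    ext i j
    rw [Matrix.smul_apply, Matrix.neg_apply, Matrix.mul_apply, Matrix.of_apply, smul_eq_mul, key]
    rfl
  have hdet := congrArg Matrix.det hmat
  rw [Matrix.det_smul, Matrix.det_neg, Matrix.det_mul, h, zero_mul, mul_zero] at hdet
  exact (mul_eq_zero.1 hdet).resolve_left (pow_ne_zero _ hu.ne_zero)

end hw

end Pool.Agent.D0H58.OR
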