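import Pool.Agent.D0H58.OR.Tens
import Pool.Agent.D0H58.OR.Cert

/-! The tensors which are generated by the product of the holomorphic forms under the Gauss-Manin
connection. -/

set_option autoImplicit false

namespace Pool.Agent.D0H58.OR

/-- The Gauss-Manin connection of `y² = ∏ (x - a s)` on tensors of degree `g`; the tensor with the
value `T s` at `s` is the sum of the `T s` times the product of the classes of
`dx / ((x - a (s i)) y)`. -/
noncomputable def nabla {k : Type*} [Field k] {g n : ℕ} (a : Fin n → k) (δ : Derivation ℤ k k)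
    (T : (Fin g → Fin n) → k) : (Fin g → Fin n) → k := fun s =>
  δ (T s) - (1 / 2) * ∑ i, ∑ t, δ (a (s i) - a t) / (a (s i) - a t) *
    (T s - T (Function.update s i t))

/-- The tensors generated by the product of the holomorphic forms. -/
inductive Gen {k : Type*} [Field k] (g : ℕ) {n : ℕ} (a : Fin n → k) : ((Fin g → Fin n) → k) → Prop
  | vol : Gen g a (vol g a)
  | add (T T' : (Fin g → Fin n) → k) : Gen g a T → Gen g a T' → Gen g a (T + T')
  | smul (c : k) (T : (Fin g → Fin n) → k) : Gen g a T → Gen g a (c • T)
  | nabla (δ : Derivation ℤ k k) (T : (Fin g → Fin n) → k) : Gen g a T → Gen g a (nabla a δ T)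

section

variable {k : Type*} [Field k] {g n : ℕ} (a : Fin n → k) (δ : Derivation ℤ k k)

lemma nabla_zero : nabla (g := g) a δ 0 = 0 := by
  funext s
  simp [nabla]

lemma nabla_add (T T' : (Fin g → Fin n) → k) : nabla a δ (T + T') = nabla a δ T + nabla a δ T' := by
  funext s
  simp only [nabla, Pi.add_apply, map_add]
  have h : ∑ i, ∑ t, δ (a (s i) - a t) / (a (s i) - a t) *
      (T s + T' s - (T (Function.update s i t) + T' (Function.update s i t))) =
      ∑ i, ∑ t, δ (a (s i) - a t) / (a (s i) - a t) * (T s - T (Function.update s i t)) +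
      ∑ i, ∑ t, δ (a (s i) - a t) / (a (s i) - a t) * (T' s - T' (Function.update s i t)) := by
    rw [← Finset.sum_add_distrib]
    refine Finset.sum_congr rfl fun i _ => ?_
    rw [← Finset.sum_add_distrib]
    refine Finset.sum_congr rfl fun t _ => ?_
    ring
  rw [h]
  ring

lemma nabla_smul (c : k) (T : (Fin g → Fin n) → k) :
    nabla a δ (c • T) = δ c • T + c • nabla a δ T := by
  funext s
  simp only [nabla, Pi.add_apply, Pi.smul_apply, smul_eq_mul, Derivation.leibniz]
  have h : ∑ i, ∑ t, δ (a (s i) - a t) / (a (s i) - a t) *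
      (c * T s - c * T (Function.update s i t)) =
      c * ∑ i, ∑ t, δ (a (s i) - a t) / (a (s i) - a t) * (T s - T (Function.update s i t)) := by
    rw [Finset.mul_sum]
    refine Finset.sum_congr rfl fun i _ => ?_
    rw [Finset.mul_sum]
    refine Finset.sum_congr rfl fun t _ => ?_
    ring
  rw [h]
  ring

end

lemma vol_map {A B : Type*} [CommRing A] [CommRing B] (φ : A →+* B) (g : ℕ) {n : ℕ} (a : Fin n → A)
    (s : Fin g → Fin n) : φ (vol g a s) = vol g (fun s => φ (a s)) s := by
  unfold vol
  rw [RingHom.map_det]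
  congr 1
  ext i j
  simp

section span

variable {E k : Type*} [Field E] [Field k] [Algebra E k]

/-- The tensors over `k` are combinations of the tensors over `E`. -/
lemma gen_span (g : ℕ) {n : ℕ} (a : Fin n → E) (T : (Fin g → Fin n) → k)
    (hT : Gen g (fun s => algebraMap E k (a s)) T) :
    T ∈ Submodule.span k {T' | ∃ T₀ : (Fin g → Fin n) → E, Gen g a T₀ ∧
      T' = fun s => algebraMap E k (T₀ s)} := by
  classical
  obtain ⟨W, hW⟩ : ∃ W : Submodule k ((Fin g → Fin n) → k),
    W = Submodule.span k {T' | ∃ T₀ : (Fin g → Fin n) → E, Gen g a T₀ ∧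
      T' = fun s => algebraMap E k (T₀ s)} := ⟨_, rfl⟩
  rw [← hW]
  have hmem : ∀ T₀ : (Fin g → Fin n) → E, Gen g a T₀ → (fun s => algebraMap E k (T₀ s)) ∈ W := by
    intro T₀ h
    rw [hW]
    exact Submodule.subset_span ⟨T₀, h, rfl⟩
  -- functionals
  have hfun : ∀ x : (Fin g → Fin n) → k, (∀ ℓ : k →ₗ[E] E, Gen g a fun s => ℓ (x s)) → x ∈ W := by
    intro x hx
    let b := Module.Basis.ofVectorSpace E k
    set J : Finset _ := Finset.univ.biUnion fun s => (b.repr (x s)).support with hJ
    have h1 : x = ∑ j ∈ J, b j • fun s => algebraMap E k (b.coord j (x s)) := by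
      funext s
      rw [Finset.sum_apply]
      have h2 := b.linearCombination_repr (x s)
      rw [Finsupp.linearCombination_apply, Finsupp.sum_of_support_subset (s := J)] at h2
      · conv_lhs => rw [← h2]
        refine Finset.sum_congr rfl fun j _ => ?_
        rw [Algebra.smul_def, Pi.smul_apply, smul_eq_mul, mul_comm]
        rfl
      · exact Finset.subset_biUnion_of_mem (fun s => (b.repr (x s)).support) (Finset.mem_univ s)
      · intro j _
        rw [zero_smul]
    rw [h1]
    exact Submodule.sum_mem _ fun j _ => W.smul_mem _ (hmem _ (hx _))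
  have hgen : ∀ (δ : Derivation ℤ k k) (T₀ : (Fin g → Fin n) → E), Gen g a T₀ →
      nabla (fun s => algebraMap E k (a s)) δ (fun s => algebraMap E k (T₀ s)) ∈ W := by
    intro δ T₀ h
    apply hfun
    intro ℓ
    have h1 : (fun s => ℓ (nabla (fun s => algebraMap E k (a s)) δ
        (fun s => algebraMap E k (T₀ s)) s)) = nabla a (push δ ℓ) T₀ := by
      funext s
      have e2 : algebraMap E k (1 / 2) = 1 / 2 := by rw [map_div₀, map_one, map_ofNat]
      have e1 : nabla (fun s => algebraMap E k (a s)) δ (fun s => algebraMap E k (T₀ s)) s =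
          δ (algebraMap E k (T₀ s)) - ∑ i, ∑ t, ((1 / 2) * ((a (s i) - a t)⁻¹ *
            (T₀ s - T₀ (Function.update s i t)))) • δ (algebraMap E k (a (s i) - a t)) := by
        unfold nabla
        rw [Finset.mul_sum]
        congr 1
        refine Finset.sum_congr rfl fun i _ => ?_
        rw [Finset.mul_sum]
        refine Finset.sum_congr rfl fun t _ => ?_
        rw [Algebra.smul_def, map_mul, map_mul, e2, map_inv₀]
        simp only [map_sub]
        ring
      rw [e1, map_sub, map_sum]
      simp only [nabla, push_apply]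
      congr 1
      rw [Finset.mul_sum]
      refine Finset.sum_congr rfl fun i _ => ?_
      rw [map_sum, Finset.mul_sum]
      refine Finset.sum_congr rfl fun t _ => ?_
      rw [map_smul, smul_eq_mul]
      ring
    rw [h1]
    exact Gen.nabla _ _ h
  have hstab : ∀ (δ : Derivation ℤ k k), ∀ x ∈ W, nabla (fun s => algebraMap E k (a s)) δ x ∈ W := by
    intro δ x hx
    rw [hW] at hx
    induction hx using Submodule.span_induction with
    | mem x hx =>
      obtain ⟨T₀, h, rfl⟩ := hx
      exact hgen δ T₀ h
    | zero => rw [nabla_zero]; exact W.zero_mem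
    | add x y _ _ hx hy => rw [nabla_add]; exact W.add_mem hx hy
    | smul c x hx' hx =>
      rw [nabla_smul]
      exact W.add_mem (W.smul_mem _ (hW ▸ hx')) (W.smul_mem _ hx)
  induction hT with
  | vol =>
    have := hmem _ Gen.vol
    have e : (fun s => algebraMap E k (vol g a s)) = vol g fun s => algebraMap E k (a s) := by
      funext s
      exact vol_map _ g a s
    rwa [e] at this
  | add T T' _ _ h1 h2 => exact W.add_mem h1 h2
  | smul c T _ h => exact W.smul_mem _ h
  | nabla δ T _ h => exact hstab δ T h

end span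

lemma pr_add {S : Type*} [CommRing S] {g n : ℕ} (l : Fin g → Fin n → S) (T T' : (Fin g → Fin n) → S) :
    pr l (T + T') = pr l T + pr l T' := by
  unfold pr
  rw [← Finset.sum_add_distrib]
  refine Finset.sum_congr rfl fun s _ => ?_
  rw [Pi.add_apply, add_mul]

lemma pr_smul {S : Type*} [CommRing S] {g n : ℕ} (l : Fin g → Fin n → S) (c : S)
    (T : (Fin g → Fin n) → S) : pr l (c • T) = c * pr l T := by
  unfold pr
  rw [Finset.mul_sum]
  refine Finset.sum_congr rfl fun s _ => ?_
  rw [Pi.smul_apply, smul_eq_mul, mul_assoc]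

/-- a family of functionals over `k` which kills the tensors over `E` kills the tensors over `k` -/
lemma pr_gen {E k : Type*} [Field E] [Field k] [Algebra E k] (g : ℕ) {n : ℕ} (a : Fin n → E)
    (μ : Fin g → Fin n → k) (h : ∀ T₀ : (Fin g → Fin n) → E, Gen g a T₀ →
      pr μ (fun s => algebraMap E k (T₀ s)) = 0) (T : (Fin g → Fin n) → k)
    (hT : Gen g (fun s => algebraMap E k (a s)) T) : pr μ T = 0 := by
  have h1 := gen_span g a T hT
  clear hT
  induction h1 using Submodule.span_induction with
  | mem x hx =>
    obtain ⟨T₀, h2, rfl⟩ := hx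
    exact h T₀ h2
  | zero => unfold pr; simp
  | add x y _ _ hx hy => rw [pr_add, hx, hy, add_zero]
  | smul c x _ hx => rw [pr_smul, hx, mul_zero]

end Pool.Agent.D0H58.OR
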