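import Pool.Agent.D0H58.OR.Big

/-! The local statements at differential prime ideals. -/

set_option autoImplicit false

universe u

open Polynomial

namespace Pool.Agent.D0H58.OR

open Pool.Agent.Results.MP_2ca583_ag.HasseWittClassification
open Pool.Agent.Y218.HW

/-- The Hasse-Witt determinant does not vanish modulo differential prime ideals over large primes. -/
def Loc {E : Type u} [Field E] {n : ℕ} (a : Fin n → E) : Prop :=
  ∃ (C : Finset E) (Δ : Finset (Derivation ℤ E E)), ∀ (R S : Type u) [CommRing R] [CommRing S]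
    [IsDomain S] (iR : R →+* E) (π : R →+* S) (p N : ℕ) [Fact p.Prime] [CharP S p]
    (aR : Fin n → R), Function.Injective iR → (∀ c ∈ C, ∃ x, iR x = c) →
    (∀ D ∈ Δ, ∃ DR : Derivation ℤ R R, ∀ x, iR (DR x) = D (iR x)) →
    (∀ D : Derivation ℤ R R, ∃ DS : Derivation ℤ S S, ∀ x, DS (π x) = π (D x)) →
    2 * N + 1 = p → n ≤ N → (∀ s, iR (aR s) = a s) →
    (hasseWitt p ((n - 1) / 2) (fam fun s => π (aR s))).det ≠ 0

lemma loc_of_big {k E : Type u} [Field k] [IsAlgClosed k] [Field E] [CharZero E] [Algebra E k]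
    {n : ℕ} (hn : 3 ≤ n) (a : Fin n → E) (ha : Function.Injective a)
    (h : Big fun s => algebraMap E k (a s)) : Loc a := by
  classical
  obtain ⟨C, Δ, hCΔ⟩ := big_good hn a ha h
  refine ⟨insert (1 / 2) (C ∪ Finset.univ.biUnion fun s => Finset.univ.image fun t => (a s - a t)⁻¹),
    Δ, ?_⟩
  intro R S _ _ _ iR π p N _ _ aR hiR hC hΔ hπ hN hnN haR hdet
  have hN1 : 1 ≤ N := by omega
  obtain ⟨hR, hhR⟩ := hC (1 / 2) (Finset.mem_insert_self _ _)
  have hv : ∀ s t, ∃ x, iR x = (a s - a t)⁻¹ := fun s t => hC _ (Finset.mem_insert_of_mem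
    (Finset.mem_union_right _ (Finset.mem_biUnion.2 ⟨s, Finset.mem_univ s,
      Finset.mem_image_of_mem _ (Finset.mem_univ t)⟩)))
  choose vR hvR using hv
  have hvR1 : ∀ s t, s ≠ t → vR s t * (aR s - aR t) = 1 := by
    intro s t hst
    apply hiR
    rw [map_mul, hvR, map_sub, haR, haR, map_one]
    exact inv_mul_cancel₀ (sub_ne_zero.2 fun h => hst (ha h))
  have hπv : ∀ s t, s ≠ t → π (vR s t) * (π (aR s) - π (aR t)) = 1 := by
    intro s t hst
    rw [← map_sub, ← map_mul, hvR1 s t hst, map_one]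
  have hinj : Function.Injective fun s => π (aR s) := by
    intro s t hst
    by_contra hne
    have h1 := hπv s t hne
    simp only at hst
    rw [hst, sub_self, mul_zero] at h1
    exact zero_ne_one h1
  have h2R : 2 * hR = 1 := by
    apply hiR
    rw [map_mul, hhR, map_ofNat, map_one]
    have : (2 : E) ≠ 0 := two_ne_zero
    field_simp
  have h2S : 2 * π hR = 1 := by
    have := congrArg π h2R
    rwa [map_mul, map_ofNat, map_one] at this
  have hNS : 2 * (N : S) + 1 = 0 := by
    have h3 : ((2 * N + 1 : ℕ) : S) = 0 := by rw [hN]; exact CharP.cast_eq_zero S p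
    push_cast at h3; exact h3
  have hNh : (N : S) = -π hR := by
    have h3 : (N : S) = (2 * π hR) * N := by rw [h2S, one_mul]
    rw [h3]
    linear_combination (π hR) * hNS
  have hvol : pr (fun (j : Fin ((n - 1) / 2)) s => lam p N (fun s => π (aR s)) j s)
      (vol ((n - 1) / 2) fun s => π (aR s)) = 0 := by
    rw [pr_vol]
    exact det_lam p ((n - 1) / 2) N hN hN1 (fun s => π (aR s)) hdet (by omega)
  refine hCΔ R S p N hN hnN
    { iR := iR
      hiR := hiR
      π := π
      l := fun j s => lam p N (fun s => π (aR s)) j s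
      aR := aR
      haR := haR
      vR := vR
      hvR := hvR
      hR := hR
      hhR := hhR
      hvol := hvol } (fun _ _ => rfl) hinj ?_
  refine ⟨fun c hc => hC c (Finset.mem_insert_of_mem (Finset.mem_union_left _ hc)), fun D hD => ?_⟩
  obtain ⟨DR, hDR⟩ := hΔ D hD
  obtain ⟨DS, hDS⟩ := hπ DR
  refine ⟨DR, DS, hDR, hDS, fun j s => ?_⟩
  change DS (lam p N (fun s => π (aR s)) j s) = -π hR * ∑ t, π (DR (aR s - aR t) * vR s t) *
    (lam p N (fun s => π (aR s)) j s - lam p N (fun s => π (aR s)) j t)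
  rw [← hNh]
  refine lam_deriv p DS (fun s => π (aR s)) N hN hN1 s (fun t => π (DR (aR s - aR t) * vR s t))
    (fun t => ?_) j
  rw [← map_sub, hDS, map_mul]
  rcases eq_or_ne s t with rfl | hst
  · simp
  · rw [mul_assoc, ← map_mul, hvR1 s t hst, map_one, mul_one]

lemma loc_of_moves {k E : Type u} [Field k] [IsAlgClosed k] [Field E] [CharZero E] [Algebra E k]
    {n : ℕ} (hn : 3 ≤ n) (a : Fin n → E) (ha : Function.Injective a)
    (h : Moves fun s => algebraMap E k (a s)) : Loc a := by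
  classical
  obtain ⟨D₀, s₀, h5, h6⟩ := cert_of_moves a h
  have h7 : ∀ s, ∃ (e : ℕ) (Fc : Derivation ℤ E E →₀ MvPolynomial (Fin ((n - 1) / 2)) E),
      D₀ (a s) ≠ 0 → lin ((n - 1) / 2) (a s) ^ e = Fc.sum fun D f =>
        f * quad ((n - 1) / 2)
          (fun t => D (a t) * (∏ t' ∈ Finset.univ.erase t, (a t - a t'))⁻¹) a := by
    intro s
    by_cases hs : D₀ (a s) ≠ 0
    · obtain ⟨e, Fc, he⟩ := h6 s hs
      exact ⟨e, Fc, fun _ => he⟩
    · exact ⟨0, 0, fun h => absurd h hs⟩
  choose e Fc he using h7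
  refine ⟨(Finset.univ.biUnion fun s => (Fc s).support.biUnion fun D =>
      (Fc s D).support.image fun m => MvPolynomial.coeff m (Fc s D)) ∪
      Finset.univ.image fun s => (∏ t ∈ Finset.univ.erase s, (a s - a t))⁻¹,
    insert D₀ (Finset.univ.biUnion fun s => (Fc s).support), ?_⟩
  intro R S _ _ _ iR π p N _ _ aR hiR hC hΔ hπ hN hnN haR
  have hp := (Fact.out : p.Prime)
  have hw : ∀ s, ∃ x, iR x = (∏ t ∈ Finset.univ.erase s, (a s - a t))⁻¹ := fun s => hC _
    (Finset.mem_union_right _ (Finset.mem_image_of_mem _ (Finset.mem_univ s)))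
  choose wR hwR using hw
  obtain ⟨D₀R, hD₀R⟩ := hΔ D₀ (Finset.mem_insert_self _ _)
  have hcoef : ∀ s, ∀ D ∈ (Fc s).support, ∀ m, ∃ y, iR y = MvPolynomial.coeff m (Fc s D) := by
    intro s D hD m
    by_cases hm : m ∈ (Fc s D).support
    · exact hC _ (Finset.mem_union_left _ (Finset.mem_biUnion.2 ⟨s, Finset.mem_univ s,
        Finset.mem_biUnion.2 ⟨D, hD, Finset.mem_image_of_mem _ hm⟩⟩))
    · rw [MvPolynomial.notMem_support_iff.1 hm]
      exact ⟨0, map_zero _⟩
  have hres : ∀ s, ∀ D ∈ (Fc s).support, ∃ DR : Derivation ℤ R R, ∀ x, iR (DR x) = D (iR x) :=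
    fun s D hD => hΔ D (Finset.mem_insert_of_mem (Finset.mem_biUnion.2 ⟨s, Finset.mem_univ s, hD⟩))
  have key := det_ne (R := R) (S := S) p ((n - 1) / 2) n N hp (by omega) (by omega) (by omega)
    (by omega) hN (by omega) aR wR (fun s => ?_) D₀R s₀ π hπ ?_ (fun s hs => ?_)
  · rw [Pool.Agent.Y218.Adc.det_map, fam_map] at key
    exact key
  · apply hiR
    rw [map_mul, map_prod, hwR, map_one]
    simp only [map_sub, haR]
    apply inv_mul_cancel₀
    rw [Finset.prod_ne_zero_iff]
    intro t ht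
    exact sub_ne_zero.2 fun h => (Finset.mem_erase.1 ht).1 (ha h).symm
  · have h8 : D₀R (aR s₀) = 1 := by
      apply hiR
      rw [hD₀R, haR, h5, map_one]
    rw [h8, map_one]
    exact one_ne_zero
  · have hs' : D₀ (a s) ≠ 0 := by
      intro h0
      apply hs
      apply hiR
      rw [hD₀R, haR, h0, map_zero]
    have h9 := he s hs'
    refine ⟨e s, ?_⟩
    choose D' hD' using fun D : (Fc s).support => hres s D.1 D.2
    choose F' hF' using fun D : (Fc s).support => lift_poly iR (Fc s D.1) (hcoef s D.1 D.2)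
    have h10 : lin ((n - 1) / 2) (aR s) ^ e s = ∑ D : (Fc s).support,
        F' D * quad ((n - 1) / 2) (fun t => D' D (aR t) * wR t) aR := by
      apply MvPolynomial.map_injective iR hiR
      rw [map_pow, map_lin, haR, h9, map_sum, Finsupp.sum, ← Finset.sum_coe_sort]
      refine Finset.sum_congr rfl fun D _ => ?_
      rw [map_mul, hF', map_quad]
      simp only [map_mul, hD', haR, hwR]
    rw [h10]
    exact Ideal.sum_mem _ fun D _ => Ideal.mul_mem_left _ _ (Ideal.subset_span ⟨D' D, rfl⟩)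

end Pool.Agent.D0H58.OR
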