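import Mathlib

/-! Noether normalization of finitely generated domains over `ℤ` of characteristic zero. -/

set_option autoImplicit false

open Polynomial

namespace Pool.Agent.D0H58.OR

/-- elements of the `ℚ`-algebra generated by a set have a multiple in the ring -/
lemma multiple {R E : Type*} [CommRing R] [Field E] [CharZero E] [Algebra R E]
    (G : Set R) (y : E) (hy : y ∈ Algebra.adjoin ℚ ((algebraMap R E) '' G)) :
    ∃ n : ℕ, n ≠ 0 ∧ ∃ r : R, (n : E) * y = algebraMap R E r := by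
  induction hy using Algebra.adjoin_induction with
  | mem x hx =>
    obtain ⟨r, -, rfl⟩ := hx
    exact ⟨1, one_ne_zero, r, by simp⟩
  | algebraMap q =>
    refine ⟨q.den, q.den_nz, (q.num : R), ?_⟩
    have h1 : ((q.den : ℚ) * q : ℚ) = q.num := Rat.den_mul_eq_num q
    have h2 := congrArg (algebraMap ℚ E) h1
    rw [map_mul, map_natCast, map_intCast] at h2
    rw [h2, map_intCast]
  | add x y _ _ hx hy =>
    obtain ⟨n, hn, r, hr⟩ := hx
    obtain ⟨m, hm, t, ht⟩ := hy
    refine ⟨n * m, mul_ne_zero hn hm, m * r + n * t, ?_⟩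
    rw [map_add, map_mul, map_mul, ← hr, ← ht, map_natCast, map_natCast]
    push_cast
    ring
  | mul x y _ _ hx hy =>
    obtain ⟨n, hn, r, hr⟩ := hx
    obtain ⟨m, hm, t, ht⟩ := hy
    refine ⟨n * m, mul_ne_zero hn hm, r * t, ?_⟩
    rw [map_mul, ← hr, ← ht]
    push_cast
    ring

/-- scaling the variables -/
lemma scale_bij (s n : ℕ) (hn : n ≠ 0) :
    Function.Bijective (MvPolynomial.aeval (fun i => MvPolynomial.C (n : ℚ) * MvPolynomial.X i) :
      MvPolynomial (Fin s) ℚ →ₐ[ℚ] MvPolynomial (Fin s) ℚ) := by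
  set σ : MvPolynomial (Fin s) ℚ →ₐ[ℚ] MvPolynomial (Fin s) ℚ :=
    MvPolynomial.aeval (fun i => MvPolynomial.C (n : ℚ) * MvPolynomial.X i) with hσ
  set τ : MvPolynomial (Fin s) ℚ →ₐ[ℚ] MvPolynomial (Fin s) ℚ :=
    MvPolynomial.aeval (fun i => MvPolynomial.C ((n : ℚ)⁻¹) * MvPolynomial.X i) with hτ
  have hn' : (n : ℚ) ≠ 0 := Nat.cast_ne_zero.2 hn
  have h1 : σ.comp τ = AlgHom.id ℚ _ := by
    apply MvPolynomial.algHom_ext
    intro i
    have e1 : τ (MvPolynomial.X i) = MvPolynomial.C ((n : ℚ)⁻¹) * MvPolynomial.X i := by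
      rw [hτ, MvPolynomial.aeval_X]
    have e2 : σ (MvPolynomial.X i) = MvPolynomial.C (n : ℚ) * MvPolynomial.X i := by
      rw [hσ, MvPolynomial.aeval_X]
    have e3 : ∀ c : ℚ, σ (MvPolynomial.C c) = MvPolynomial.C c := fun c => σ.commutes c
    rw [AlgHom.comp_apply, e1, map_mul, e2, e3, ← mul_assoc, ← MvPolynomial.C_mul,
      inv_mul_cancel₀ hn', MvPolynomial.C_1, one_mul]
    rfl
  have h2 : τ.comp σ = AlgHom.id ℚ _ := by
    apply MvPolynomial.algHom_ext
    intro i
    have e1 : τ (MvPolynomial.X i) = MvPolynomial.C ((n : ℚ)⁻¹) * MvPolynomial.X i := by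
      rw [hτ, MvPolynomial.aeval_X]
    have e2 : σ (MvPolynomial.X i) = MvPolynomial.C (n : ℚ) * MvPolynomial.X i := by
      rw [hσ, MvPolynomial.aeval_X]
    have e3 : ∀ c : ℚ, τ (MvPolynomial.C c) = MvPolynomial.C c := fun c => τ.commutes c
    rw [AlgHom.comp_apply, e2, map_mul, e1, e3, ← mul_assoc, ← MvPolynomial.C_mul,
      mul_inv_cancel₀ hn', MvPolynomial.C_1, one_mul]
    rfl
  refine ⟨fun x y h => ?_, fun x => ⟨τ x, ?_⟩⟩
  · have h3 := congrArg τ h
    have h4 : ∀ z, τ (σ z) = z := fun z => by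
      have := congrArg (fun f : MvPolynomial (Fin s) ℚ →ₐ[ℚ] MvPolynomial (Fin s) ℚ => f z) h2
      exact this
    rwa [h4, h4] at h3
  · have := congrArg (fun f : MvPolynomial (Fin s) ℚ →ₐ[ℚ] MvPolynomial (Fin s) ℚ => f x) h1
    exact this

/-- Noether normalization over `ℤ`: there are a polynomial ring `P = ℤ[X₁, …, X_s] ⊂ R` and integers
`N ≠ 0`, `d` such that every element of `R`, multiplied by a power of `N`, is the root of a monic
polynomial of degree `d` over `P`. -/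
theorem norm_int_aux (R E : Type*) [CommRing R] [Field E] [CharZero E] [Algebra R E]
    (hRE : Function.Injective (algebraMap R E)) [hft : Algebra.FiniteType ℤ R] :
    ∃ (s : ℕ) (φ : MvPolynomial (Fin s) ℤ →+* R), Function.Injective φ ∧
      ∃ N d : ℕ, N ≠ 0 ∧ ∀ x : R, ∃ a : ℕ, ∃ Q : (MvPolynomial (Fin s) ℤ)[X], Q.Monic ∧
        Q.natDegree = d ∧ Q.eval₂ φ ((N : R) ^ a * x) = 0 := by
  classical
  obtain ⟨G, hG⟩ := hft.out
  let RQ : Subalgebra ℚ E := Algebra.adjoin ℚ ((algebraMap R E) '' (G : Set R))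
  have hRQ : Algebra.FiniteType ℚ RQ := by
    rw [← Subalgebra.fg_iff_finiteType]
    exact Subalgebra.fg_def.2 ⟨_, (G.finite_toSet.image _), rfl⟩
  obtain ⟨s, g, hginj, hgint⟩ := exists_integral_inj_algHom_of_fg ℚ RQ
  -- scale the variables
  have h1 : ∀ i, ∃ n : ℕ, n ≠ 0 ∧ ∃ r : R, (n : E) * (g (MvPolynomial.X i) : E) = algebraMap R E r :=
    fun i => multiple (G : Set R) _ (g (MvPolynomial.X i)).2
  choose n hn r hr using h1
  set n1 : ℕ := ∏ i, n i with hn1
  have hn10 : n1 ≠ 0 := Finset.prod_ne_zero_iff.2 fun i _ => hn i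
  have h2 : ∀ i, ∃ t : R, (n1 : E) * (g (MvPolynomial.X i) : E) = algebraMap R E t := by
    intro i
    refine ⟨(∏ j ∈ Finset.univ.erase i, n j : ℕ) * r i, ?_⟩
    rw [map_mul, ← hr i, map_natCast, ← mul_assoc, ← Nat.cast_mul,
      Finset.prod_erase_mul _ _ (Finset.mem_univ i)]
  choose t ht using h2
  let σ : MvPolynomial (Fin s) ℚ →ₐ[ℚ] MvPolynomial (Fin s) ℚ :=
    MvPolynomial.aeval (fun i => MvPolynomial.C (n1 : ℚ) * MvPolynomial.X i)
  have hσ : Function.Bijective σ := scale_bij s n1 hn10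
  let g' : MvPolynomial (Fin s) ℚ →+* E := (algebraMap RQ E).comp (g.toRingHom.comp σ.toRingHom)
  have hg'X : ∀ i, g' (MvPolynomial.X i) = algebraMap R E (t i) := by
    intro i
    rw [← ht i]
    have e1 : σ (MvPolynomial.X i) = MvPolynomial.C (n1 : ℚ) * MvPolynomial.X i := by
      change MvPolynomial.aeval _ _ = _
      rw [MvPolynomial.aeval_X]
    have e2 : g (MvPolynomial.C (n1 : ℚ)) = algebraMap ℚ RQ (n1 : ℚ) := g.commutes _
    change (algebraMap RQ E) (g (σ (MvPolynomial.X i))) = _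
    rw [e1, map_mul, e2, map_mul]
    have e3 : (algebraMap RQ E) (algebraMap ℚ RQ (n1 : ℚ)) = (n1 : E) := by
      rw [← IsScalarTower.algebraMap_apply, map_natCast]
    rw [e3]
    rfl
  have hg'inj : Function.Injective g' := by
    intro x y h
    exact hσ.1 (hginj (Subtype.val_injective h))
  let φ : MvPolynomial (Fin s) ℤ →+* R := (MvPolynomial.aeval t : MvPolynomial (Fin s) ℤ →ₐ[ℤ] R).toRingHom
  let j : MvPolynomial (Fin s) ℤ →+* MvPolynomial (Fin s) ℚ := MvPolynomial.map (algebraMap ℤ ℚ)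
  have hjinj : Function.Injective j := MvPolynomial.map_injective _ (FaithfulSMul.algebraMap_injective ℤ ℚ)
  have hcomp : (algebraMap R E).comp φ = g'.comp j := by
    apply MvPolynomial.ringHom_ext
    · intro z
      have e1 : (MvPolynomial.C z : MvPolynomial (Fin s) ℤ) = ((z : ℤ) : MvPolynomial (Fin s) ℤ) := by
        simp
      rw [e1, map_intCast, map_intCast]
    · intro i
      have e1 : φ (MvPolynomial.X i) = t i := by
        change MvPolynomial.aeval t (MvPolynomial.X i) = _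
        rw [MvPolynomial.aeval_X]
      have e2 : j (MvPolynomial.X i) = MvPolynomial.X i := by
        change MvPolynomial.map _ _ = _
        rw [MvPolynomial.map_X]
      rw [RingHom.comp_apply, RingHom.comp_apply, e1, e2, hg'X]
  have hφinj : Function.Injective φ := by
    intro x y h
    have h3 : (g'.comp j) x = (g'.comp j) y := by
      rw [← hcomp, RingHom.comp_apply, RingHom.comp_apply, h]
    exact hjinj (hg'inj h3)
  refine ⟨s, φ, hφinj, ?_⟩
  -- algebra structures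
  let algPR : Algebra (MvPolynomial (Fin s) ℤ) R := φ.toAlgebra
  let algQE : Algebra (MvPolynomial (Fin s) ℚ) E := g'.toAlgebra
  let algPQ : Algebra (MvPolynomial (Fin s) ℤ) (MvPolynomial (Fin s) ℚ) :=
    MvPolynomial.algebraMvPolynomial
  let algPE : Algebra (MvPolynomial (Fin s) ℤ) E := ((algebraMap R E).comp φ).toAlgebra
  have tow1 : IsScalarTower (MvPolynomial (Fin s) ℤ) (MvPolynomial (Fin s) ℚ) E :=
    IsScalarTower.of_algebraMap_eq' hcomp
  have tow2 : IsScalarTower (MvPolynomial (Fin s) ℤ) R E := IsScalarTower.of_algebraMap_eq' rfl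
  have hloc : IsLocalization (Submonoid.map (MvPolynomial.C : ℤ →+* MvPolynomial (Fin s) ℤ)
      (nonZeroDivisors ℤ)) (MvPolynomial (Fin s) ℚ) := by
    exact MvPolynomial.isLocalization (σ := Fin s) (nonZeroDivisors ℤ) ℚ
  -- integrality of the generators
  have hint : ∀ x ∈ G, ∃ m : ℕ, m ≠ 0 ∧ IsIntegral (MvPolynomial (Fin s) ℤ) ((m : R) * x) := by
    intro x hx
    have hxRQ : algebraMap R E x ∈ RQ := Algebra.subset_adjoin ⟨x, hx, rfl⟩
    have e1 : IsIntegral (MvPolynomial (Fin s) ℚ) (algebraMap R E x) := by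
      have e2 : (g.toRingHom.comp σ.toRingHom).IsIntegral :=
        RingHom.IsIntegral.trans _ _ (RingHom.isIntegral_of_surjective _ hσ.2) hgint
      obtain ⟨q, hq1, hq2⟩ := e2 ⟨algebraMap R E x, hxRQ⟩
      refine ⟨q, hq1, ?_⟩
      have e3 := congrArg (algebraMap RQ E) hq2
      rw [Polynomial.hom_eval₂, map_zero] at e3
      exact e3
    obtain ⟨⟨m, hm⟩, hmx⟩ := IsIntegral.exists_multiple_integral_of_isLocalization
      (Submonoid.map (MvPolynomial.C : ℤ →+* MvPolynomial (Fin s) ℤ) (nonZeroDivisors ℤ))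
      (Rₘ := MvPolynomial (Fin s) ℚ) _ e1
    obtain ⟨z, hz, rfl⟩ := hm
    have hz0 : z ≠ 0 := nonZeroDivisors.ne_zero hz
    have e4 : IsIntegral (MvPolynomial (Fin s) ℤ) (algebraMap R E ((z : R) * x)) := by
      have e5 : (algebraMap R E ((z : R) * x)) =
          ((⟨MvPolynomial.C z, ⟨z, hz, rfl⟩⟩ : Submonoid.map (MvPolynomial.C : ℤ →+* MvPolynomial (Fin s) ℤ)
            (nonZeroDivisors ℤ)) : MvPolynomial (Fin s) ℤ) • (algebraMap R E x) := by
        rw [Algebra.smul_def, map_mul, map_intCast]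
        congr 1
        change _ = algebraMap R E (φ (MvPolynomial.C z))
        have e1 : (MvPolynomial.C z : MvPolynomial (Fin s) ℤ) = ((z : ℤ) : MvPolynomial (Fin s) ℤ) := by
          simp
        rw [e1, map_intCast, map_intCast]
      rw [e5]
      exact hmx
    rw [isIntegral_algebraMap_iff hRE] at e4
    refine ⟨z.natAbs, Int.natAbs_ne_zero.2 hz0, ?_⟩
    rcases Int.natAbs_eq z with h | h
    · have : ((z.natAbs : ℕ) : R) = (z : R) := by
        conv_rhs => rw [h]
        simp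
      rw [this]; exact e4
    · have : ((z.natAbs : ℕ) : R) = -(z : R) := by
        conv_rhs => rw [h]
        simp
      rw [this, neg_mul]; exact e4.neg
  have hint' : ∀ x : R, ∃ m : ℕ, m ≠ 0 ∧ (x ∈ G → IsIntegral (MvPolynomial (Fin s) ℤ) ((m : R) * x)) := by
    intro x
    by_cases hx : x ∈ G
    · obtain ⟨m, h1, h2⟩ := hint x hx
      exact ⟨m, h1, fun _ => h2⟩
    · exact ⟨1, one_ne_zero, fun h => absurd h hx⟩
  choose m hm hmint using hint'
  let B : Subalgebra (MvPolynomial (Fin s) ℤ) R :=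
    Algebra.adjoin (MvPolynomial (Fin s) ℤ) ((fun x => (m x : R) * x) '' (G : Set R))
  have hBfg : (Subalgebra.toSubmodule B).FG := by
    apply fg_adjoin_of_finite (G.finite_toSet.image _)
    rintro _ ⟨x, hx, rfl⟩
    exact hmint x hx
  have hBfin : Module.Finite (MvPolynomial (Fin s) ℤ) B := ⟨(Submodule.fg_top _).2 hBfg⟩
  refine ⟨∏ x ∈ G, m x, (⊤ : Submodule (MvPolynomial (Fin s) ℤ) B).spanFinrank,
    Finset.prod_ne_zero_iff.2 fun x _ => hm x, fun x => ?_⟩
  obtain ⟨N, hN⟩ : ∃ N : ℕ, N = ∏ x ∈ G, m x := ⟨_, rfl⟩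
  rw [← hN]
  -- a multiple in `B`
  have hNB : (N : R) ∈ B := by
    have : (N : R) = algebraMap (MvPolynomial (Fin s) ℤ) R (N : MvPolynomial (Fin s) ℤ) := by
      rw [map_natCast]
    rw [this]; exact B.algebraMap_mem _
  have hmem : ∃ a : ℕ, (N : R) ^ a * x ∈ B := by
    have hx : x ∈ Algebra.adjoin ℤ (G : Set R) := by rw [hG]; exact Algebra.mem_top
    induction hx using Algebra.adjoin_induction with
    | mem x hx =>
      refine ⟨1, ?_⟩
      rw [pow_one, hN, ← Finset.mul_prod_erase _ _ hx]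
      push_cast
      have e1 : (m x : R) * (∏ y ∈ G.erase x, (m y : R)) * x =
          ((∏ y ∈ G.erase x, m y : ℕ) : R) * ((m x : R) * x) := by push_cast; ring
      rw [e1]
      refine B.mul_mem ?_ (Algebra.subset_adjoin ⟨x, hx, rfl⟩)
      have : ((∏ y ∈ G.erase x, m y : ℕ) : R) = algebraMap (MvPolynomial (Fin s) ℤ) R
        ((∏ y ∈ G.erase x, m y : ℕ) : MvPolynomial (Fin s) ℤ) := by rw [map_natCast]
      rw [this]; exact B.algebraMap_mem _
    | algebraMap z =>
      refine ⟨0, ?_⟩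
      rw [pow_zero, one_mul]
      have : algebraMap ℤ R z = algebraMap (MvPolynomial (Fin s) ℤ) R (z : MvPolynomial (Fin s) ℤ) := by
        rw [map_intCast]; simp
      rw [this]; exact B.algebraMap_mem _
    | add x y _ _ hx hy =>
      obtain ⟨a, ha⟩ := hx
      obtain ⟨b, hb⟩ := hy
      refine ⟨a + b, ?_⟩
      have e1 : (N : R) ^ (a + b) * (x + y) = (N : R) ^ b * ((N : R) ^ a * x) +
          (N : R) ^ a * ((N : R) ^ b * y) := by ring
      rw [e1]
      exact B.add_mem (B.mul_mem (B.pow_mem hNB _) ha) (B.mul_mem (B.pow_mem hNB _) hb)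
    | mul x y _ _ hx hy =>
      obtain ⟨a, ha⟩ := hx
      obtain ⟨b, hb⟩ := hy
      refine ⟨a + b, ?_⟩
      have e1 : (N : R) ^ (a + b) * (x * y) = ((N : R) ^ a * x) * ((N : R) ^ b * y) := by ring
      rw [e1]
      exact B.mul_mem ha hb
  obtain ⟨a, ha⟩ := hmem
  obtain ⟨Q, hQ1, hQ2, hQ3⟩ := LinearMap.exists_monic_and_natDegree_eq_and_aeval_eq_zero
    (MvPolynomial (Fin s) ℤ) (Algebra.lmul (MvPolynomial (Fin s) ℤ) B ⟨(N : R) ^ a * x, ha⟩)
  refine ⟨a, Q, hQ1, hQ2, ?_⟩
  rw [Polynomial.aeval_algHom_apply] at hQ3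
  have h5 := congrArg (fun f : Module.End (MvPolynomial (Fin s) ℤ) B => ((f 1 : B) : R)) hQ3
  simp only [Algebra.coe_lmul_eq_mul, LinearMap.mul_apply', mul_one, LinearMap.zero_apply,
    ZeroMemClass.coe_zero] at h5
  have h6 : ((aeval (⟨(N : R) ^ a * x, ha⟩ : B) Q : B) : R) = aeval ((N : R) ^ a * x) Q := by
    have := Polynomial.aeval_algHom_apply B.val (⟨(N : R) ^ a * x, ha⟩ : B) Q
    exact this.symm
  rw [h6] at h5
  exact h5

theorem norm_int (R : Type*) [CommRing R] [IsDomain R] [CharZero R] [hft : Algebra.FiniteType ℤ R] :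
    ∃ (s : ℕ) (φ : MvPolynomial (Fin s) ℤ →+* R), Function.Injective φ ∧
      ∃ N d : ℕ, N ≠ 0 ∧ ∀ x : R, ∃ a : ℕ, ∃ Q : (MvPolynomial (Fin s) ℤ)[X], Q.Monic ∧
        Q.natDegree = d ∧ Q.eval₂ φ ((N : R) ^ a * x) = 0 :=
  norm_int_aux R (FractionRing R) (IsFractionRing.injective R _)

end Pool.Agent.D0H58.OR
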