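import Pool.Agent.D0H58.OR.Spec
import Pool.Agent.D0H58.OR.Main

/-! The certificate that the generated tensors are not killed by isotropic families of functionals. -/

set_option autoImplicit false

universe u

open MvPolynomial

namespace Pool.Agent.D0H58.OR

/-- the variables: the functionals and a basis of their common kernel -/
abbrev Vr (g m n : ℕ) := (Fin g × Fin n) ⊕ (Fin m × Fin n)

section polys

variable {A : Type*} [CommRing A] {g m n : ℕ}

/-- sum of a functional -/
noncomputable def rowP (A : Type*) [CommRing A] {g m n : ℕ} (j : Fin g) : MvPolynomial (Vr g m n) A :=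
  ∑ s, X (Sum.inl (j, s))

/-- functional times vector -/
noncomputable def kerP (A : Type*) [CommRing A] {g m n : ℕ} (j : Fin g) (i : Fin m) :
    MvPolynomial (Vr g m n) A :=
  ∑ s, X (Sum.inl (j, s)) * X (Sum.inr (i, s))

/-- the form at two vectors -/
noncomputable def formP {g m n : ℕ} (w : Fin n → Fin n → A) (i i' : Fin m) :
    MvPolynomial (Vr g m n) A :=
  ∑ s, ∑ t, C (w s t) * (X (Sum.inr (i, s)) * X (Sum.inr (i', t)) -
    X (Sum.inr (i, t)) * X (Sum.inr (i', s)))

/-- the value of a tensor -/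
noncomputable def prP {g m n : ℕ} (T : (Fin g → Fin n) → A) : MvPolynomial (Vr g m n) A :=
  ∑ s, C (T s) * ∏ j, X (Sum.inl (j, s j))

/-- the product of two minors -/
noncomputable def detP (A : Type*) [CommRing A] {g m n : ℕ} (s : Fin g → Fin n) (s' : Fin m → Fin n) :
    MvPolynomial (Vr g m n) A :=
  (Matrix.of fun i j : Fin g => (X (Sum.inl (i, s j)) : MvPolynomial (Vr g m n) A)).det *
    (Matrix.of fun i j : Fin m => (X (Sum.inr (i, s' j)) : MvPolynomial (Vr g m n) A)).det

variable {B : Type*} [CommRing B] (φ : A →+* B)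

lemma map_rowP (j : Fin g) : MvPolynomial.map φ (rowP A j : MvPolynomial (Vr g m n) A) = rowP B j := by
  unfold rowP; simp

lemma map_kerP (j : Fin g) (i : Fin m) :
    MvPolynomial.map φ (kerP A j i : MvPolynomial (Vr g m n) A) = kerP B j i := by
  unfold kerP; simp

lemma map_formP (w : Fin n → Fin n → A) (i i' : Fin m) :
    MvPolynomial.map φ (formP w i i' : MvPolynomial (Vr g m n) A) = formP (fun s t => φ (w s t)) i i' := by
  unfold formP; simp

lemma map_prP (T : (Fin g → Fin n) → A) :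
    MvPolynomial.map φ (prP T : MvPolynomial (Vr g m n) A) = prP fun s => φ (T s) := by
  unfold prP; simp

lemma map_detP (s : Fin g → Fin n) (s' : Fin m → Fin n) :
    MvPolynomial.map φ (detP A s s' : MvPolynomial (Vr g m n) A) = detP B s s' := by
  unfold detP
  rw [map_mul, RingHom.map_det, RingHom.map_det]
  congr 2
  · ext1 i j; simp
  · ext1 i j; simp

variable (pt : Vr g m n → B)

lemma eval_rowP (j : Fin g) : eval₂ φ pt (rowP A j) = ∑ s, pt (Sum.inl (j, s)) := by
  unfold rowP; simp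

lemma eval_kerP (j : Fin g) (i : Fin m) : eval₂ φ pt (kerP A j i) =
    ∑ s, pt (Sum.inl (j, s)) * pt (Sum.inr (i, s)) := by
  unfold kerP; simp

lemma eval_formP (w : Fin n → Fin n → A) (i i' : Fin m) : eval₂ φ pt (formP w i i') =
    ∑ s, ∑ t, φ (w s t) * (pt (Sum.inr (i, s)) * pt (Sum.inr (i', t)) -
      pt (Sum.inr (i, t)) * pt (Sum.inr (i', s))) := by
  unfold formP; simp

lemma eval_prP (T : (Fin g → Fin n) → A) : eval₂ φ pt (prP T) =
    ∑ s, φ (T s) * ∏ j, pt (Sum.inl (j, s j)) := by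
  unfold prP; simp

lemma eval_detP (s : Fin g → Fin n) (s' : Fin m → Fin n) : eval₂ φ pt (detP A s s') =
    (Matrix.of fun i j : Fin g => pt (Sum.inl (i, s j))).det *
      (Matrix.of fun i j : Fin m => pt (Sum.inr (i, s' j))).det := by
  have h : ∀ q, eval₂ φ pt q = eval₂Hom φ pt q := fun q => rfl
  unfold detP
  rw [h, map_mul, RingHom.map_det, RingHom.map_det]
  congr 2
  · ext1 i j; simp
  · ext1 i j; simp

end polys

/-- the coefficients of the form -/
noncomputable def wt {E : Type*} [Field E] {n : ℕ} (a : Fin n → E) (s t : Fin n) : E :=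
  (a s - a t)⁻¹ * (∏ u ∈ Finset.univ.erase s, (a s - a u))⁻¹

/-- the equations -/
def eqs {E : Type*} [Field E] (g m : ℕ) {n : ℕ} (a : Fin n → E) : Set (MvPolynomial (Vr g m n) E) :=
  {q | (∃ j, q = rowP E j) ∨ (∃ j i, q = kerP E j i) ∨ (∃ i i', q = formP (wt a) i i') ∨
    ∃ T, Gen g a T ∧ q = prP T}

/-- the Nullstellensatz -/
theorem certificate2 {E k : Type*} [Field E] [Field k] [Algebra E k] [IsAlgClosed k]
    (g m n : ℕ) (a : Fin n → E) (s : Fin g → Fin n) (s' : Fin m → Fin n)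
    (h : ∀ pt : Vr g m n → k, (∀ q ∈ eqs g m a, eval₂ (algebraMap E k) pt q = 0) →
      eval₂ (algebraMap E k) pt (detP E s s') = 0) :
    ∃ e : ℕ, (detP E s s' : MvPolynomial (Vr g m n) E) ^ e ∈ Ideal.span (eqs g m a) := by
  have h1 : detP E s s' ∈ (Ideal.span (eqs g m a)).radical := by
    rw [← vanishingIdeal_zeroLocus_eq_radical (K := k), mem_vanishingIdeal_iff]
    intro v hv
    rw [mem_zeroLocus_iff] at hv
    rw [aeval_def]
    apply h
    intro q hq
    have := hv q (Ideal.subset_span hq)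
    rwa [aeval_def] at this
  exact h1

/-- transfer to positive characteristic -/
lemma transfer {E : Type u} [Field E] (g m n : ℕ) (a : Fin n → E) (x : MvPolynomial (Vr g m n) E)
    (hx : x ∈ Ideal.span (eqs g m a)) : ∃ (C : Finset E) (Δ : Finset (Derivation ℤ E E)),
      ∀ (R S K : Type u) [CommRing R] [CommRing S] [Field K] (Y : Spec a g R S) (φ : S →+* K)
        (pt : Vr g m n → K) (wR : Fin n → Fin n → R), Y.Ok C Δ → (∀ s t, Y.iR (wR s t) = wt a s t) →
        (∀ j s, pt (Sum.inl (j, s)) = φ (Y.l j s)) → (∀ j, ∑ s, pt (Sum.inl (j, s)) = 0) →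
        (∀ j i, ∑ s, pt (Sum.inl (j, s)) * pt (Sum.inr (i, s)) = 0) →
        (∀ i i', ∑ s, ∑ t, φ (Y.π (wR s t)) * (pt (Sum.inr (i, s)) * pt (Sum.inr (i', t)) -
          pt (Sum.inr (i, t)) * pt (Sum.inr (i', s))) = 0) →
        ∃ y : MvPolynomial (Vr g m n) R, MvPolynomial.map Y.iR y = x ∧
          eval₂ (φ.comp Y.π) pt y = 0 := by
  classical
  induction hx using Submodule.span_induction with
  | mem x hx =>
    rcases hx with ⟨j, rfl⟩ | ⟨j, i, rfl⟩ | ⟨i, i', rfl⟩ | ⟨T, hT, rfl⟩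
    · exact ⟨∅, ∅, fun R S K _ _ _ Y φ pt wR _ _ _ h1 _ _ => ⟨rowP R j, map_rowP _ _, by
        rw [eval_rowP]; exact h1 j⟩⟩
    · exact ⟨∅, ∅, fun R S K _ _ _ Y φ pt wR _ _ _ _ h1 _ => ⟨kerP R j i, map_kerP _ _ _, by
        rw [eval_kerP]; exact h1 j i⟩⟩
    · refine ⟨∅, ∅, fun R S K _ _ _ Y φ pt wR _ h0 _ _ _ h1 => ⟨formP wR i i', ?_, ?_⟩⟩
      · rw [map_formP]
        congr 1
        funext s t
        exact h0 s t
      · rw [eval_formP]; exact h1 i i'
    · obtain ⟨C, Δ, h⟩ := gen_good a g T hT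
      refine ⟨C, Δ, fun R S K _ _ _ Y φ pt wR hY _ h0 _ _ _ => ?_⟩
      obtain ⟨TR, h1, h2⟩ := h R S Y hY
      refine ⟨prP TR, ?_, ?_⟩
      · rw [map_prP]
        congr 1
        funext s
        exact h1 s
      · rw [eval_prP]
        simp only [h0]
        have h3 := congrArg φ h2
        unfold pr at h3
        rw [map_zero, map_sum] at h3
        rw [← h3]
        refine Finset.sum_congr rfl fun s _ => ?_
        rw [map_mul, map_prod]
        rfl
  | zero => exact ⟨∅, ∅, fun R S K _ _ _ Y φ pt wR _ _ _ _ _ _ => ⟨0, map_zero _, by simp⟩⟩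
  | add x y _ _ hx hy =>
    obtain ⟨C, Δ, h1⟩ := hx
    obtain ⟨C', Δ', h2⟩ := hy
    refine ⟨C ∪ C', Δ ∪ Δ', fun R S K _ _ _ Y φ pt wR hY h3 h4 h5 h6 h7 => ?_⟩
    obtain ⟨x', hx1, hx2⟩ := h1 R S K Y φ pt wR
      (hY.mono Finset.subset_union_left Finset.subset_union_left) h3 h4 h5 h6 h7
    obtain ⟨y', hy1, hy2⟩ := h2 R S K Y φ pt wR
      (hY.mono Finset.subset_union_right Finset.subset_union_right) h3 h4 h5 h6 h7
    exact ⟨x' + y', by rw [map_add, hx1, hy1], by rw [eval₂_add, hx2, hy2, add_zero]⟩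
  | smul c x _ hx =>
    obtain ⟨C, Δ, h1⟩ := hx
    refine ⟨C ∪ c.support.image fun m => MvPolynomial.coeff m c, Δ,
      fun R S K _ _ _ Y φ pt wR hY h3 h4 h5 h6 h7 => ?_⟩
    obtain ⟨x', hx1, hx2⟩ := h1 R S K Y φ pt wR
      (hY.mono Finset.subset_union_left subset_rfl) h3 h4 h5 h6 h7
    obtain ⟨c', hc'⟩ := lift_poly Y.iR c (fun m => by
      by_cases hm : m ∈ c.support
      · exact hY.1 _ (Finset.mem_union_right _ (Finset.mem_image_of_mem _ hm))
      · rw [MvPolynomial.notMem_support_iff.1 hm]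
        exact ⟨0, map_zero _⟩)
    exact ⟨c' * x', by rw [map_mul, hc', hx1, smul_eq_mul], by rw [eval₂_mul, hx2, mul_zero]⟩

end Pool.Agent.D0H58.OR
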