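import Pool.Agent.Y218.HW

/-! The pairing of exact forms on hyperelliptic curves in characteristic `p` when all the branch points
move. -/

set_option autoImplicit false

open Polynomial

namespace Pool.Agent.D0H58.OR

open Pool.Agent.Results.MP_2ca583_ag.HasseWittClassification
open Pool.Agent.Y218.HW

section field

variable {k : Type*} [Field k] (p : ℕ) [Fact p.Prime] [CharP k p]

/-- the sum of residues -/
lemma pair (hp2 : 2 < p) (g n : ℕ) (hg : 1 ≤ g) (a : Fin n → k) (ha : Function.Injective a)
    (hn : 2 * g + 1 ≤ n)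
    (f u w v e : k[X]) (hf : f = ∏ s, (X - C (a s))) (hu : u.degree < g) (hw : w.degree < g)
    (hv : v.degree < g) (he : e.degree < n) (N : ℕ) (hN : 2 * N + 1 = p)
    (h1 : NoTop p (w * f ^ N))
    (h2 : NoTop p (f ^ (N - 1) * (f * v + C (N : k) * (e * u)))) :
    ∑ s, e.eval (a s) * (u.eval (a s) * w.eval (a s)) /
      (∏ t ∈ Finset.univ.erase s, (a s - a t)) ^ 2 = 0 := by
  classical
  have hN1 : 1 ≤ N := by omega
  have hug : u.natDegree ≤ g - 1 := by
    rcases eq_or_ne u 0 with rfl | hv0
    · simp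
    · have := (natDegree_lt_iff_degree_lt hv0).2 hu; omega
  have hwg : w.natDegree ≤ g - 1 := by
    rcases eq_or_ne w 0 with rfl | hv0
    · simp
    · have := (natDegree_lt_iff_degree_lt hv0).2 hw; omega
  have hvg : v.natDegree ≤ g - 1 := by
    rcases eq_or_ne v 0 with rfl | hv0
    · simp
    · have := (natDegree_lt_iff_degree_lt hv0).2 hv; omega
  have heg : e.natDegree ≤ n - 1 := by
    rcases eq_or_ne e 0 with rfl | hv0
    · simp
    · have := (natDegree_lt_iff_degree_lt hv0).2 he; omega
  have hfd : f.natDegree ≤ n := by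
    rw [hf, natDegree_prod_of_monic _ _ (fun l _ => monic_X_sub_C _)]
    simp
  obtain ⟨G, hG, hGd⟩ := exists_antideriv p _ h1
  obtain ⟨V, hV⟩ : ∃ V, V = f ^ (N - 1) * (f * v + C (N : k) * (e * u)) := ⟨_, rfl⟩
  rw [← hV] at h2
  -- degree bounds
  have hPd : (w * f ^ N).natDegree ≤ (g - 1) + N * n := by
    refine le_trans natDegree_mul_le ?_
    have := natDegree_pow_le_of_le N hfd
    omega
  have hVd : V.natDegree ≤ (N - 1) * n + (n + (g - 1)) := by
    rw [hV]
    refine le_trans natDegree_mul_le ?_
    have e1 : (f ^ (N - 1)).natDegree ≤ (N - 1) * n := natDegree_pow_le_of_le (N - 1) hfd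
    have e2 : (f * v + C (N : k) * (e * u)).natDegree ≤ n + (g - 1) := by
      refine (natDegree_add_le _ _).trans (max_le ?_ ?_)
      · refine le_trans natDegree_mul_le ?_
        omega
      · refine le_trans (natDegree_C_mul_le _ _) (le_trans natDegree_mul_le ?_)
        omega
    omega
  obtain ⟨W, hW⟩ : ∃ W, W = G * V := ⟨_, rfl⟩
  have hWd : W.natDegree < (n - 1) * p + (p - 1) := by
    rw [hW]
    refine lt_of_le_of_lt natDegree_mul_le ?_
    have e3 : (g - 1) + N * n + 1 + ((N - 1) * n + (n + (g - 1))) < (n - 1) * p + (p - 1) := by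
      obtain ⟨M, rfl⟩ : ∃ M, N = M + 1 := ⟨N - 1, by omega⟩
      obtain ⟨g', rfl⟩ : ∃ g', g = g' + 1 := ⟨g - 1, by omega⟩
      obtain ⟨n', rfl⟩ : ∃ n', n = n' + 1 := ⟨n - 1, by omega⟩
      rw [← hN]
      simp only [Nat.add_sub_cancel]
      nlinarith
    omega
  -- the polynomial Q
  obtain ⟨Q, hQ⟩ : ∃ Q : k[X], Q = ∑ i ∈ Finset.range (W.natDegree + 1),
    monomial i (W.coeff (i * p + (p - 1))) := ⟨_, rfl⟩
  have hQeval : ∀ x : k, Q.eval (x ^ p) = (taylor x W).coeff (p - 1) := by
    intro x
    rw [taylor_coeff_pred p W x, hQ, eval_finsetSum]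
    simp only [eval_monomial]
  have hQcoeff : ∀ m, n - 1 ≤ m → Q.coeff m = 0 := by
    intro m hm
    rw [hQ, finsetSum_coeff]
    apply Finset.sum_eq_zero
    intro i _
    rw [coeff_monomial]
    split_ifs with hin
    · rw [hin]
      apply coeff_eq_zero_of_natDegree_lt
      have : (n - 1) * p ≤ m * p := Nat.mul_le_mul_right p hm
      omega
    · rfl
  have hp' : p - 1 = 2 * N := by omega
  have hNk : ((N : k) + 1) ≠ 0 := by
    have := natCast_ne_zero_of_lt (k := k) p (N + 1) (by omega) (by omega)
    push_cast at this; exact this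
  -- local computation
  have hloc : ∀ s, (taylor (a s) W).coeff (p - 1) * ((N : k) + 1) =
      (N : k) * (e.eval (a s) * (u.eval (a s) * w.eval (a s))) *
        (∏ t ∈ Finset.univ.erase s, (a s - a t)) ^ (2 * N - 1) := by
    intro s
    obtain ⟨h, hh⟩ : ∃ h : k[X], h = ∏ t ∈ Finset.univ.erase s, (X - C (a t)) := ⟨_, rfl⟩
    have hfh : f = (X - C (a s)) * h := by
      rw [hf, hh, Finset.mul_prod_erase _ (fun t => X - C (a t)) (Finset.mem_univ s)]
    have hhs : h.eval (a s) = ∏ t ∈ Finset.univ.erase s, (a s - a t) := by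
      rw [hh, eval_prod]; simp
    rw [← hhs]
    have hdf : (X - C (a s)) ∣ f := ⟨h, hfh⟩
    have hP : (X - C (a s)) ^ N ∣ w * f ^ N := (pow_dvd_pow_of_dvd hdf N).mul_left _
    have hτ : taylor (a s) (X - C (a s)) = X := by simp
    have hτf : taylor (a s) f = X * taylor (a s) h := by rw [hfh, taylor_mul, hτ]
    have hτV : taylor (a s) V = X ^ (N - 1) * ((taylor (a s) h) ^ (N - 1)
        * (X * taylor (a s) h * taylor (a s) v + C (N : k) * (taylor (a s) e * taylor (a s) u))) := by
      rw [hV, taylor_mul, taylor_pow, map_add, taylor_mul, taylor_mul, taylor_mul, taylor_C, hτf,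
        mul_pow]
      ring
    have hsum : (taylor (a s) W).coeff (p - 1)
        = (taylor (a s) G).coeff (N + 1) * (taylor (a s) V).coeff (N - 1) := by
      rw [hW, taylor_mul, coeff_mul, Finset.sum_eq_single (N + 1, N - 1)]
      · rintro ⟨i, j⟩ hij hne'
        rw [Finset.HasAntidiagonal.mem_antidiagonal] at hij
        simp only at hij ⊢
        by_cases hi0 : i = 0
        · have : j = p - 1 := by omega
          rw [this, taylor_coeff_pred_of_noTop p V (a s) h2, mul_zero]
        · by_cases hiN : i ≤ N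
          · rw [coeff_taylor_antideriv p G _ hG (a s) N (by omega) hP i (by omega) hiN, zero_mul]
          · have hiN' : i ≠ N + 1 := by
              intro h0
              apply hne'
              rw [h0]
              congr 1
              omega
            rw [hτV, coeff_X_pow_mul', if_neg (by omega), mul_zero]
      · intro hnot
        exact absurd (Finset.HasAntidiagonal.mem_antidiagonal.2 (by omega)) hnot
    have hVc : (taylor (a s) V).coeff (N - 1) =
        h.eval (a s) ^ (N - 1) * ((N : k) * (e.eval (a s) * u.eval (a s))) := by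
      rw [hτV, coeff_X_pow_mul', if_pos le_rfl, Nat.sub_self, coeff_zero_eq_eval_zero]
      simp only [eval_mul, eval_pow, eval_add, eval_X, eval_C, taylor_eval]
      ring_nf
    have hGc : (taylor (a s) G).coeff (N + 1) * ((N : k) + 1) = w.eval (a s) * h.eval (a s) ^ N := by
      have e1 : (derivative (taylor (a s) G)).coeff N =
          (taylor (a s) G).coeff (N + 1) * ((N : k) + 1) := coeff_derivative _ _
      rw [← e1, derivative_taylor, hG, taylor_mul, taylor_pow, hτf, mul_pow]
      have e2 : taylor (a s) w * (X ^ N * (taylor (a s) h) ^ N) =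
          X ^ N * (taylor (a s) w * (taylor (a s) h) ^ N) := by
        ring
      rw [e2, coeff_X_pow_mul', if_pos le_rfl, Nat.sub_self, coeff_zero_eq_eval_zero]
      simp only [eval_mul, eval_pow, taylor_eval, zero_add]
    have e4 : (taylor (a s) W).coeff (p - 1) * ((N : k) + 1) =
        ((taylor (a s) G).coeff (N + 1) * ((N : k) + 1)) * (taylor (a s) V).coeff (N - 1) := by
      rw [hsum]; ring
    rw [e4, hGc, hVc]
    have e5 : 2 * N - 1 = N + (N - 1) := by omega
    rw [e5, pow_add]
    ring
  -- Lagrange interpolation at the points `a s ^ p`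
  have hfrob : ∀ x y : k, (x - y) ^ p = x ^ p - y ^ p := fun x y => sub_pow_char x y
  have hinj : Function.Injective (fun s => a s ^ p) := by
    intro s t hst
    have h3 : (a s - a t) ^ p = 0 := by rw [hfrob]; exact sub_eq_zero.2 hst
    exact ha (sub_eq_zero.1 (pow_eq_zero_iff (Fact.out : p.Prime).ne_zero |>.1 h3))
  have hQdeg : Q.degree < (Finset.univ : Finset (Fin n)).card := by
    rw [Finset.card_univ, Fintype.card_fin, degree_lt_iff_coeff_zero]
    intro m hm
    exact hQcoeff m (by omega)
  have key := Lagrange.coeff_eq_sum (s := (Finset.univ : Finset (Fin n))) (v := fun s => a s ^ p)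
    (hinj.injOn) hQdeg
  rw [Finset.card_univ, Fintype.card_fin, hQcoeff (n - 1) le_rfl] at key
  have hNk' : (N : k) ≠ 0 := natCast_ne_zero_of_lt p N hN1 (by omega)
  have hprod : ∀ s, ∏ t ∈ Finset.univ.erase s, (a s - a t) ≠ 0 := by
    intro s
    rw [Finset.prod_ne_zero_iff]
    intro t ht
    exact sub_ne_zero.2 fun h => (Finset.mem_erase.1 ht).1 (ha h).symm
  have e6 : ∀ s, Q.eval (a s ^ p) / ∏ t ∈ Finset.univ.erase s, (a s ^ p - a t ^ p) =
      ((N : k) / ((N : k) + 1)) * (e.eval (a s) * (u.eval (a s) * w.eval (a s)) /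
      (∏ t ∈ Finset.univ.erase s, (a s - a t)) ^ 2) := by
    intro s
    have e7 : ∏ t ∈ Finset.univ.erase s, (a s ^ p - a t ^ p) =
        (∏ t ∈ Finset.univ.erase s, (a s - a t)) ^ p := by
      rw [← Finset.prod_pow]
      exact Finset.prod_congr rfl fun t _ => (hfrob _ _).symm
    have e8 := hloc s
    rw [hQeval, e7]
    have e9 : (∏ t ∈ Finset.univ.erase s, (a s - a t)) ^ p =
        (∏ t ∈ Finset.univ.erase s, (a s - a t)) ^ (2 * N - 1) *
          (∏ t ∈ Finset.univ.erase s, (a s - a t)) ^ 2 := by
      rw [← pow_add]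
      congr 1
      omega
    have e10 : (taylor (a s) W).coeff (p - 1) = (N : k) * (e.eval (a s) * (u.eval (a s) * w.eval (a s))) *
        (∏ t ∈ Finset.univ.erase s, (a s - a t)) ^ (2 * N - 1) / ((N : k) + 1) := by
      rw [← e8, mul_div_assoc, div_self hNk, mul_one]
    rw [e10, e9]
    have := hprod s
    field_simp
  rw [Finset.sum_congr rfl fun s _ => e6 s, ← Finset.mul_sum] at key
  rcases mul_eq_zero.1 key.symm with h | h
  · exact absurd h (div_ne_zero hNk' hNk)
  · exact h

end field

end Pool.Agent.D0H58.OR
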