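import Pool.Agent.D0H58.OR.Flat

/-! The horizontal functionals are linearly independent. -/

set_option autoImplicit false

open Polynomial

namespace Pool.Agent.D0H58.OR

section

variable {R : Type*} [CommRing R]

/-- the high part of a polynomial -/
noncomputable def hi (k : ℕ) (P : R[X]) : R[X] := divX^[k] P

lemma coeff_hi (k : ℕ) (P : R[X]) (i : ℕ) : (hi k P).coeff i = P.coeff (i + k) := by
  unfold hi
  induction k generalizing P i with
  | zero => rfl
  | succ k ih =>
    rw [Function.iterate_succ_apply, ih, coeff_divX]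
    congr 1

lemma eval_hi (k : ℕ) (a : R) (G : R[X]) : (hi (k + 1) ((X - C a) * G)).eval a = G.coeff k := by
  have h1 : hi (k + 1) ((X - C a) * G) = C (G.coeff k) + (X - C a) * hi (k + 1) G := by
    ext i
    rw [coeff_hi, coeff_add, sub_mul, sub_mul, coeff_sub, coeff_sub, coeff_C_mul, coeff_C_mul, coeff_hi]
    rcases i with _ | i
    · simp [sub_eq_add_neg]
    · rw [coeff_X_mul, coeff_hi, coeff_C, if_neg (by omega)]
      have : i + 1 + (k + 1) = (i + (k + 1)) + 1 := by ring
      rw [this, coeff_X_mul]
      ring
  rw [h1, eval_add, eval_mul, eval_sub, eval_X, eval_C, eval_C, sub_self, zero_mul, add_zero]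

lemma lo_degree (k : ℕ) (P : R[X]) : (P - X ^ k * hi k P).degree < (k : WithBot ℕ) := by
  rw [degree_lt_iff_coeff_zero]
  intro m hm
  rw [coeff_sub, coeff_X_pow_mul', if_pos hm, coeff_hi, Nat.sub_add_cancel hm, sub_self]

end

section field

variable {K : Type*} [Field K] (p : ℕ) [Fact p.Prime] [CharP K p]

lemma natDegree_fam {n : ℕ} (a : Fin n → K) : (fam a).natDegree = n := by
  unfold fam
  rw [natDegree_prod_of_monic _ _ (fun l _ => monic_X_sub_C _)]
  simp

lemma degree_fam {n : ℕ} (a : Fin n → K) : (fam a).degree = n := by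
  rw [degree_eq_natDegree (fam_monic a).ne_zero, natDegree_fam]

/-- the degree bound for the differential operator -/
lemma degree_E {n N : ℕ} (a : Fin n → K) (hn : 1 ≤ n) (j : ℕ) :
    (fam a * derivative (hi ((j + 1) * p) (fam a ^ N)) -
      C (N : K) * derivative (fam a) * hi ((j + 1) * p) (fam a ^ N)).degree < n := by
  obtain ⟨k, hk⟩ : ∃ k, k = (j + 1) * p := ⟨_, rfl⟩
  have hp : 1 ≤ p := (Fact.out : p.Prime).one_le
  have hk1 : 1 ≤ k := by rw [hk]; exact Nat.mul_pos (by omega) hp
  have hk0 : (k : K) = 0 := by rw [hk, Nat.cast_mul, CharP.cast_eq_zero K p, mul_zero]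
  rw [← hk]
  obtain ⟨q, hq⟩ : ∃ q, q = hi k (fam a ^ N) := ⟨_, rfl⟩
  obtain ⟨r, hr⟩ : ∃ r, r = fam a ^ N - X ^ k * q := ⟨_, rfl⟩
  have hrd : r.degree < (k : WithBot ℕ) := by rw [hr, hq]; exact lo_degree k _
  have hder : derivative (fam a ^ N) = X ^ k * derivative q + derivative r := by
    have : fam a ^ N = X ^ k * q + r := by rw [hr]; ring
    rw [this, derivative_add, derivative_mul, derivative_X_pow, hk0]
    simp
  have hE : fam a * derivative (fam a ^ N) - C (N : K) * derivative (fam a) * fam a ^ N = 0 := by
    rw [derivative_pow]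
    rcases N with _ | N
    · simp
    · rw [Nat.add_sub_cancel, pow_succ]; ring
  have key : X ^ k * (fam a * derivative q - C (N : K) * derivative (fam a) * q) =
      -(fam a * derivative r - C (N : K) * derivative (fam a) * r) := by
    rw [hder] at hE
    have e1 : fam a ^ N = X ^ k * q + r := by rw [hr]; ring
    rw [e1] at hE
    linear_combination hE
  rw [← hq]
  have hrd' : ∀ m : ℕ, r.degree ≤ (k - 1 : ℕ) := fun _ => by
    have := Order.le_pred_of_lt hrd
    rcases eq_or_ne r 0 with h0 | h0
    · rw [h0, degree_zero]; exact bot_le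
    · have h1 := (natDegree_lt_iff_degree_lt h0).2 hrd
      exact degree_le_of_natDegree_le (by omega)
  have hfd : (derivative (fam a)).degree ≤ (n - 1 : ℕ) := by
    refine degree_le_of_natDegree_le ?_
    exact (natDegree_derivative_le _).trans (by rw [natDegree_fam])
  have hdeg : (fam a * derivative r - C (N : K) * derivative (fam a) * r).degree < (n + k : ℕ) := by
    refine (degree_sub_le _ _).trans_lt (max_lt ?_ ?_)
    · refine (degree_mul_le _ _).trans_lt ?_
      rw [degree_fam, Nat.cast_add]
      have : (derivative r).degree < k := lt_of_le_of_lt degree_derivative_le hrd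
      exact WithBot.add_lt_add_left (WithBot.natCast_ne_bot n) this
    · refine (degree_mul_le _ _).trans_lt ?_
      have h2 : (C (N : K) * derivative (fam a)).degree ≤ (n - 1 : ℕ) :=
        (degree_mul_le _ _).trans ((add_le_of_nonpos_left degree_C_le).trans hfd)
      refine (add_le_add h2 (hrd' 0)).trans_lt ?_
      exact_mod_cast (by omega : n - 1 + (k - 1) < n + k)
  rw [← degree_neg, ← key, degree_mul, degree_X_pow, Nat.cast_add, add_comm] at hdeg
  exact (WithBot.add_lt_add_iff_right (WithBot.natCast_ne_bot k)).1 hdeg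

/-- the horizontal functionals are linearly independent -/
lemma lam_indep {g n N : ℕ} (hN : 2 * N + 1 = p) (hgN : g ≤ N) (hn : 2 * g + 1 ≤ n) (a : Fin n → K)
    (ha : Function.Injective a) (v : Fin g → K) (hv : ∀ s, ∑ j, v j * lam p N a j s = 0) : v = 0 := by
  classical
  have hp : 1 ≤ p := (Fact.out : p.Prime).one_le
  rcases Nat.eq_zero_or_pos g with rfl | hg
  · exact Subsingleton.elim _ _
  have hN1 : 1 ≤ N := by omega
  obtain ⟨Y, hY⟩ : ∃ Y : K[X], Y = ∑ j : Fin g, C (v j) * hi (((j : ℕ) + 1) * p) (fam a ^ N) :=
    ⟨_, rfl⟩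
  have hfN : fam a ^ N = fam a * fam a ^ (N - 1) := by
    rw [← pow_succ']; congr 1; omega
  -- the values
  have hYs : ∀ s, Y.eval (a s) = 0 := by
    intro s
    rw [hY, eval_finsetSum, ← hv s]
    refine Finset.sum_congr rfl fun j _ => ?_
    rw [eval_mul, eval_C]
    congr 1
    have h1 : fam a ^ N = (X - C (a s)) * (fe a s * fam a ^ (N - 1)) := by
      rw [hfN, ← mul_assoc, ← fam_fe]
    have h2 : ((j : ℕ) + 1) * p = ((j : ℕ) * p + (p - 1)) + 1 := by
      rw [add_mul, one_mul]; omega
    rw [h1, h2, eval_hi]
    rfl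
  have hfY : fam a ∣ Y := by
    unfold fam
    apply Finset.prod_dvd_of_coprime
    · intro s _ t _ hst
      exact pairwise_coprime_X_sub_C ha hst
    · intro s _
      exact dvd_iff_isRoot.2 (hYs s)
  -- the differential equation
  have hEY : fam a * derivative Y - C (N : K) * derivative (fam a) * Y = 0 := by
    apply eq_zero_of_dvd_of_degree_lt (p := fam a)
    · exact dvd_sub (dvd_mul_right _ _) (hfY.mul_left _)
    · rw [degree_fam]
      have e1 : fam a * derivative Y - C (N : K) * derivative (fam a) * Y =
          ∑ j : Fin g, C (v j) * (fam a * derivative (hi (((j : ℕ) + 1) * p) (fam a ^ N)) -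
            C (N : K) * derivative (fam a) * hi (((j : ℕ) + 1) * p) (fam a ^ N)) := by
        rw [hY, derivative_sum, Finset.mul_sum, Finset.mul_sum, ← Finset.sum_sub_distrib]
        refine Finset.sum_congr rfl fun j _ => ?_
        rw [derivative_C_mul]
        ring
      rw [e1]
      refine (degree_sum_le _ _).trans_lt ?_
      rw [Finset.sup_lt_iff (WithBot.bot_lt_coe _)]
      intro j _
      refine (degree_mul_le _ _).trans_lt ((add_le_of_nonpos_left degree_C_le).trans_lt ?_)
      exact degree_E p a (by omega) j
  have hcop : IsCoprime (fam a) (derivative (fam a)) := by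
    have := (separable_prod_X_sub_C_iff (f := a)).2 ha
    exact this
  have hpow : ∀ m, m ≤ N → fam a ^ m ∣ Y := by
    intro m
    induction m with
    | zero => intro _; simp
    | succ m ih =>
      intro hm
      obtain ⟨W, hW⟩ := ih (by omega)
      have h1 : fam a ^ m * (fam a * derivative W - C ((N : K) - m) * derivative (fam a) * W) = 0 := by
        rw [← hEY, hW, derivative_mul, derivative_pow, C_sub]
        rcases m with _ | m
        · simp
        · rw [Nat.add_sub_cancel, pow_succ]; ring
      have h2 := (mul_eq_zero.1 h1).resolve_left (pow_ne_zero _ (fam_monic a).ne_zero)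
      have h3 : fam a ∣ C ((N : K) - m) * derivative (fam a) * W := by
        rw [sub_eq_zero] at h2
        rw [← h2]
        exact dvd_mul_right _ _
      have h4 : fam a ∣ derivative (fam a) * (C ((N : K) - m) * W) := by
        have : C ((N : K) - m) * derivative (fam a) * W = derivative (fam a) * (C ((N : K) - m) * W) := by
          ring
        rwa [this] at h3
      have h5 := hcop.dvd_of_dvd_mul_left h4
      have h6 : IsUnit (C ((N : K) - m) : K[X]) := by
        rw [isUnit_C, ← Nat.cast_sub (by omega)]
        exact Pool.Agent.Y218.HW.natCast_isUnit p (N - m) (by omega) (by omega)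
      rw [h6.dvd_mul_left] at h5
      rw [hW, pow_succ]
      exact mul_dvd_mul_left _ h5
  have hnd : (fam a ^ N).natDegree = N * n := by
    rw [natDegree_pow, natDegree_fam]
  have hcz : ∀ m, N * n < m → (fam a ^ N).coeff m = 0 := fun m hm =>
    coeff_eq_zero_of_natDegree_lt (by omega)
  have hY0 : Y = 0 := by
    apply eq_zero_of_dvd_of_degree_lt (hpow N le_rfl)
    rw [degree_pow, degree_fam, nsmul_eq_mul, ← Nat.cast_mul, degree_lt_iff_coeff_zero]
    intro m hm
    rw [hY, finsetSum_coeff]
    apply Finset.sum_eq_zero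
    intro j _
    rw [coeff_C_mul, coeff_hi, hcz, mul_zero]
    have : 1 * p ≤ ((j : ℕ) + 1) * p := Nat.mul_le_mul_right p (by omega)
    omega
  have hgp : g * p ≤ N * n := by
    have h1 : N * (2 * g + 1) ≤ N * n := Nat.mul_le_mul_left N hn
    have h2 : g * p = N * (2 * g) + g := by rw [← hN]; ring
    have h3 : N * (2 * g + 1) = N * (2 * g) + N := by ring
    omega
  -- the coefficients
  have hlead : (fam a ^ N).coeff (N * n) = 1 := by
    have := (fam_monic a).pow N
    rw [← hnd]; exact this
  have main : ∀ m : ℕ, ∀ j : Fin g, (j : ℕ) = m → v j = 0 := by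
    intro m
    induction m using Nat.strong_induction_on with
    | _ m ih =>
      intro j hj
      have hjg : ((j : ℕ) + 1) * p ≤ g * p := Nat.mul_le_mul_right p (by omega)
      have h1 : Y.coeff (N * n - ((j : ℕ) + 1) * p) = v j := by
        rw [hY, finsetSum_coeff, Finset.sum_eq_single j]
        · rw [coeff_C_mul, coeff_hi, Nat.sub_add_cancel (by omega), hlead, mul_one]
        · intro b _ hb
          rcases lt_or_gt_of_ne (fun h => hb (Fin.ext h) : (b : ℕ) ≠ (j : ℕ)) with h | h
          · rw [ih b (by omega) b rfl]; simp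
          · rw [coeff_C_mul, coeff_hi, hcz, mul_zero]
            have : ((j : ℕ) + 1 + 1) * p ≤ ((b : ℕ) + 1) * p := Nat.mul_le_mul_right p (by omega)
            have h5 : ((j : ℕ) + 1 + 1) * p = ((j : ℕ) + 1) * p + p := by ring
            omega
        · intro h; exact absurd (Finset.mem_univ j) h
      rw [← h1, hY0, coeff_zero]
  funext j
  exact main j j rfl

end field

end Pool.Agent.D0H58.OR
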