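import Pool.Agent.D0H58.OR.Gen

/-! Specialization of the tensors at a differential prime ideal. -/

set_option autoImplicit false

universe u

namespace Pool.Agent.D0H58.OR

/-- the data at a differential prime ideal -/
structure Spec {E : Type u} [Field E] {n : ℕ} (a : Fin n → E) (g : ℕ) (R S : Type u) [CommRing R]
    [CommRing S] where
  /-- the inclusion -/
  iR : R →+* E
  hiR : Function.Injective iR
  /-- the reduction -/
  π : R →+* S
  /-- the horizontal functionals -/
  l : Fin g → Fin n → S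
  /-- the branch points -/
  aR : Fin n → R
  haR : ∀ s, iR (aR s) = a s
  /-- the inverses of the differences -/
  vR : Fin n → Fin n → R
  hvR : ∀ s t, iR (vR s t) = (a s - a t)⁻¹
  /-- one half -/
  hR : R
  hhR : iR hR = 1 / 2
  hvol : pr l (vol g fun s => π (aR s)) = 0

/-- the condition on constants and derivations -/
def Spec.Ok {E : Type u} [Field E] {n : ℕ} {a : Fin n → E} {g : ℕ} {R S : Type u} [CommRing R]
    [CommRing S] (X : Spec a g R S) (C : Finset E) (Δ : Finset (Derivation ℤ E E)) : Prop :=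
  (∀ c ∈ C, ∃ x, X.iR x = c) ∧ ∀ D ∈ Δ, ∃ (DR : Derivation ℤ R R) (DS : Derivation ℤ S S),
    (∀ x, X.iR (DR x) = D (X.iR x)) ∧ (∀ x, DS (X.π x) = X.π (DR x)) ∧
    ∀ j s, DS (X.l j s) = -X.π X.hR * ∑ t, X.π (DR (X.aR s - X.aR t) * X.vR s t) *
      (X.l j s - X.l j t)

lemma Spec.Ok.mono {E : Type u} [Field E] {n : ℕ} {a : Fin n → E} {g : ℕ} {R S : Type u} [CommRing R]
    [CommRing S] {X : Spec a g R S} {C C' : Finset E} {Δ Δ' : Finset (Derivation ℤ E E)}
    (h : X.Ok C' Δ') (hC : C ⊆ C') (hΔ : Δ ⊆ Δ') : X.Ok C Δ :=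
  ⟨fun c hc => h.1 c (hC hc), fun D hD => h.2 D (hΔ hD)⟩

/-- all generated tensors are killed by the horizontal functionals -/
lemma gen_good {E : Type u} [Field E] {n : ℕ} (a : Fin n → E) (g : ℕ) (T : (Fin g → Fin n) → E)
    (hT : Gen g a T) : ∃ (C : Finset E) (Δ : Finset (Derivation ℤ E E)),
      ∀ (R S : Type u) [CommRing R] [CommRing S] (X : Spec a g R S), X.Ok C Δ →
        ∃ TR : (Fin g → Fin n) → R, (∀ s, X.iR (TR s) = T s) ∧
          pr X.l (fun s => X.π (TR s)) = 0 := by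
  classical
  induction hT with
  | vol =>
    refine ⟨∅, ∅, fun R S _ _ X _ => ⟨vol g X.aR, fun s => ?_, ?_⟩⟩
    · rw [vol_map]
      simp only [X.haR]
    · rw [← X.hvol]
      congr 1
      funext s
      exact vol_map _ g _ s
  | add T T' _ _ h1 h2 =>
    obtain ⟨C, Δ, h1⟩ := h1
    obtain ⟨C', Δ', h2⟩ := h2
    refine ⟨C ∪ C', Δ ∪ Δ', fun R S _ _ X hX => ?_⟩
    obtain ⟨T1, h3, h4⟩ := h1 R S X (hX.mono Finset.subset_union_left Finset.subset_union_left)
    obtain ⟨T2, h5, h6⟩ := h2 R S X (hX.mono Finset.subset_union_right Finset.subset_union_right)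
    refine ⟨T1 + T2, fun s => ?_, ?_⟩
    · rw [Pi.add_apply, map_add, h3, h5]; rfl
    · have : (fun s => X.π ((T1 + T2) s)) = (fun s => X.π (T1 s)) + fun s => X.π (T2 s) := by
        funext s; rw [Pi.add_apply, map_add]; rfl
      rw [this, pr_add, h4, h6, add_zero]
  | smul c T _ h =>
    obtain ⟨C, Δ, h⟩ := h
    refine ⟨insert c C, Δ, fun R S _ _ X hX => ?_⟩
    obtain ⟨T1, h3, h4⟩ := h R S X (hX.mono (Finset.subset_insert _ _) subset_rfl)
    obtain ⟨c', hc'⟩ := hX.1 c (Finset.mem_insert_self _ _)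
    refine ⟨c' • T1, fun s => ?_, ?_⟩
    · rw [Pi.smul_apply, smul_eq_mul, map_mul, h3, hc']; rfl
    · have : (fun s => X.π ((c' • T1) s)) = X.π c' • fun s => X.π (T1 s) := by
        funext s; rw [Pi.smul_apply, smul_eq_mul, map_mul]; rfl
      rw [this, pr_smul, h4, mul_zero]
  | nabla δ T _ h =>
    obtain ⟨C, Δ, h⟩ := h
    refine ⟨C, insert δ Δ, fun R S _ _ X hX => ?_⟩
    obtain ⟨T1, h3, h4⟩ := h R S X (hX.mono subset_rfl (Finset.subset_insert _ _))
    obtain ⟨DR, DS, h5, h6, h7⟩ := hX.2 δ (Finset.mem_insert_self _ _)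
    refine ⟨fun s => DR (T1 s) - X.hR * ∑ i, ∑ t, DR (X.aR (s i) - X.aR t) * X.vR (s i) t *
      (T1 s - T1 (Function.update s i t)), fun s => ?_, ?_⟩
    · unfold nabla
      simp only [map_sub, map_mul, map_sum, h5, h3, X.hhR, X.haR, X.hvR, div_eq_mul_inv]
    · have hθ : ∀ s t, X.π (DR (X.aR s - X.aR t) * X.vR s t) =
          X.π (DR (X.aR t - X.aR s) * X.vR t s) := by
        intro s t
        congr 1
        apply X.hiR
        rw [map_mul, map_mul, h5, h5, X.hvR, X.hvR]
        simp only [map_sub, X.haR]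
        rw [← neg_sub (a t) (a s), inv_neg]
        ring
      have key := pr_deriv DS (fun s t => X.π (DR (X.aR s - X.aR t) * X.vR s t)) hθ (-X.π X.hR) X.l h7
        (fun s => X.π (T1 s))
      rw [h4, map_zero] at key
      rw [key]
      congr 1
      funext s
      rw [map_sub, map_mul, map_sum, h6]
      simp only [map_sum, map_mul, map_sub]
      ring

end Pool.Agent.D0H58.OR
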